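import Mathlib
import Pool.Agent.Helper17.CFamily
import Pool.Agent.Helper17.LocalDiffeo

set_option maxSynthPendingDepth 3

open scoped ContDiff Topology
open Set Function Filter

namespace Pool.Agent.Helper42

open Pool.Agent.Helper17

variable {T : Type} [TopologicalSpace T] {E : Type} [NormedAddCommGroup E] [NormedSpace ℝ E]
  [FiniteDimensional ℝ E]

/-- Joint continuity of the inverses of a continuous family of bijections with common compact
support. -/
lemma continuous_inverse_family {F G : T → E → E}
    (hF : Continuous (fun p : T × E => F p.1 p.2)) {K : Set E} (hK : IsCompact K)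
    (hFK : ∀ t, ∀ x ∉ K, F t x = x) (hFG : ∀ t x, F t (G t x) = x)
    (hGF : ∀ t x, G t (F t x) = x) :
    Continuous (fun p : T × E => G p.1 p.2) := by
  have : ProperSpace E := FiniteDimensional.proper ℝ E
  rw [continuous_iff_continuousAt]
  rintro ⟨t₀, y₀⟩
  rw [ContinuousAt, tendsto_def]
  intro s hs
  obtain ⟨U, hUs, hU, hxU⟩ := mem_nhds_iff.1 hs
  simp only at hxU
  have hC : IsCompact ((K ∪ Metric.closedBall y₀ 1) \ U) :=
    (hK.union (isCompact_closedBall y₀ 1)).diff hU
  have h1 : ∀ᶠ q : T × E in 𝓝 (t₀, y₀), ∀ x ∈ (K ∪ Metric.closedBall y₀ 1) \ U,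
      F q.1 x ≠ q.2 := by
    apply hC.eventually_forall_of_forall_eventually
    intro x hx
    have h2 : F t₀ x ≠ y₀ := by
      intro h
      apply hx.2
      have h3 : x = G t₀ y₀ := by rw [← h, hGF]
      rw [h3]
      exact hxU
    have hc' : Continuous (fun z : (T × E) × E => F z.1.1 z.2 - z.1.2) := by
      apply Continuous.sub _ (continuous_snd.comp continuous_fst)
      exact hF.comp ((continuous_fst.comp continuous_fst).prodMk continuous_snd)
    have hne : F t₀ x - y₀ ≠ 0 := sub_ne_zero.2 h2
    have := (hc'.continuousAt (x := ((t₀, y₀), x))).eventually_ne hne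
    filter_upwards [this] with z hz
    exact sub_ne_zero.1 hz
  have h3 : ∀ᶠ q : T × E in 𝓝 (t₀, y₀), q.2 ∈ Metric.closedBall y₀ 1 :=
    continuous_snd.continuousAt.eventually_mem (Metric.closedBall_mem_nhds y₀ one_pos)
  filter_upwards [h1, h3] with q hq1 hq2
  apply hUs
  by_contra hneg
  have h4 : G q.1 q.2 ∈ K ∪ Metric.closedBall y₀ 1 := by
    by_cases h : G q.1 q.2 ∈ K
    · exact Or.inl h
    · right
      have h5 := hFK q.1 _ h
      rw [hFG] at h5
      rw [← h5]
      exact hq2
  exact hq1 _ ⟨h4, hneg⟩ (hFG q.1 q.2)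

/-- The inverses of a smooth family of diffeomorphisms with common compact support form a smooth
family. -/
theorem CF_inverse {F G : T → E → E} (hF : CF F) {K : Set E} (hK : IsCompact K)
    (hFK : ∀ t, ∀ x ∉ K, F t x = x) (hinj : ∀ t x, Injective (fderiv ℝ (F t) x))
    (hFG : ∀ t x, F t (G t x) = x) (hGF : ∀ t x, G t (F t x) = x) : CF G := by
  have : CompleteSpace E := FiniteDimensional.complete ℝ E
  have hc := continuous_inverse_family hF.continuous hK hFK hFG hGF
  have hd : ∀ t y, HasFDerivAt (G t) (ContinuousLinearMap.inverse (fderiv ℝ (F t) (G t y))) y := by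
    intro t y
    have h1 := coe_cleOfInjective _ (hinj t (G t y))
    have h2 : HasFDerivAt (F t) ((cleOfInjective _ (hinj t (G t y)) : E ≃L[ℝ] E) : E →L[ℝ] E)
        (G t y) := by
      rw [h1]
      exact (hF.differentiable t _).hasFDerivAt
    have h3 := HasFDerivAt.of_local_left_inverse (g := G t) (a := y)
      (hc.comp (Continuous.prodMk_right t)).continuousAt h2
      (Eventually.of_forall fun z => hFG t z)
    rw [← h1, ContinuousLinearMap.inverse_equiv]
    exact h3
  intro k
  induction k with
  | zero => exact hc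
  | succ k ih =>
    refine ⟨hc, fun t y => (hd t y).differentiableAt, ?_⟩
    have h1 : CFk T E k (E →L[ℝ] E) (fun t y => fderiv ℝ (F t) (G t y)) :=
      CFk.comp (hF.fderiv k) ih
    have h2 : CFk T E k (E →L[ℝ] E)
        (fun t y => ContinuousLinearMap.inverse (fderiv ℝ (F t) (G t y))) := by
      refine CFk.comp_smooth (g := ContinuousLinearMap.inverse) (fun t y => ?_) h1
      rw [← coe_cleOfInjective _ (hinj t (G t y))]
      exact contDiffAt_map_inverse _
    convert h2 using 3 with t y
    exact (hd t y).fderiv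

/-- Existence form of `CF_inverse`. -/
theorem exists_CF_inverse {F : T → E → E} (hF : CF F) {K : Set E} (hK : IsCompact K)
    (hFK : ∀ t, ∀ x ∉ K, F t x = x) (hinj : ∀ t x, Injective (fderiv ℝ (F t) x)) :
    ∃ G : T → E → E, CF G ∧ (∀ t x, F t (G t x) = x) ∧ (∀ t x, G t (F t x) = x) ∧
      (∀ t, ∀ x ∉ K, G t x = x) := by
  have hbij : ∀ t, Bijective (F t) := fun t =>
    bijective_of_injective_fderiv (hF.contDiff t) (hinj t) hK (hFK t)
  set G : T → E → E := fun t => (Equiv.ofBijective (F t) (hbij t)).symm with hG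
  have hFG : ∀ t x, F t (G t x) = x := fun t x => (Equiv.ofBijective (F t) (hbij t)).apply_symm_apply x
  have hGF : ∀ t x, G t (F t x) = x := fun t x => (Equiv.ofBijective (F t) (hbij t)).symm_apply_apply x
  refine ⟨G, CF_inverse hF hK hFK hinj hFG hGF, hFG, hGF, fun t x hx => ?_⟩
  have := hGF t x
  rwa [hFK t x hx] at this

end Pool.Agent.Helper42
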