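import Mathlib
import Pool.Agent.Helper17.Potential
import Pool.Agent.Helper17.Criterion
import Pool.Agent.Helper17.Isotopy
import Pool.Agent.Helper17.Moser

set_option maxSynthPendingDepth 3

open scoped ContDiff Topology
open Set Function Filter

namespace Pool.Agent.Helper42

open Pool.Agent.Helper17

variable {n : ℕ}

/-- The first position coordinate `x_0` of `ℝ^{2n+2}`. -/
noncomputable def xL : Phase (n + 1) →L[ℝ] ℝ := EuclideanSpace.proj (Sum.inl 0)

/-- The first momentum coordinate `y_0` of `ℝ^{2n+2}`. -/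
noncomputable def yL : Phase (n + 1) →L[ℝ] ℝ := EuclideanSpace.proj (Sum.inr 0)

/-- The remaining coordinates of a point of `ℝ^{2n+2}`, as a point of `ℝ^{2n}`. -/
noncomputable def wL : Phase (n + 1) →L[ℝ] Phase n :=
  LinearMap.toContinuousLinearMap
    { toFun := fun p => WithLp.toLp 2 (fun k => p (Sum.map Fin.succ Fin.succ k))
      map_add' := fun p q => by ext k; simp
      map_smul' := fun c p => by ext k; simp }

/-- The inclusion of `ℝ^{2n}` in `ℝ^{2n+2}` as the remaining coordinates. -/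
noncomputable def eL : Phase n →L[ℝ] Phase (n + 1) :=
  LinearMap.toContinuousLinearMap
    { toFun := fun w => WithLp.toLp 2 (Sum.elim (Fin.cons 0 fun i => w (Sum.inl i))
        (Fin.cons 0 fun i => w (Sum.inr i)))
      map_add' := fun p q => by
        ext k
        rcases k with i | i
        all_goals
          refine Fin.cases ?_ (fun j => ?_) i <;> simp
      map_smul' := fun c p => by
        ext k
        rcases k with i | i
        all_goals
          refine Fin.cases ?_ (fun j => ?_) i <;> simp }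

/-- The unit vector in the direction of `x_0`. -/
noncomputable def ex : Phase (n + 1) := EuclideanSpace.single (Sum.inl 0) 1

/-- The unit vector in the direction of `y_0`. -/
noncomputable def ey : Phase (n + 1) := EuclideanSpace.single (Sum.inr 0) 1

lemma xL_apply (p : Phase (n + 1)) : xL p = p (Sum.inl 0) := rfl
lemma yL_apply (p : Phase (n + 1)) : yL p = p (Sum.inr 0) := rfl
lemma wL_apply (p : Phase (n + 1)) (k : Fin n ⊕ Fin n) :
    wL p k = p (Sum.map Fin.succ Fin.succ k) := rfl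
lemma eL_inl_zero (w : Phase n) : eL w (Sum.inl 0) = 0 := rfl
lemma eL_inr_zero (w : Phase n) : eL w (Sum.inr 0) = 0 := rfl
lemma eL_inl_succ (w : Phase n) (i : Fin n) : eL w (Sum.inl i.succ) = w (Sum.inl i) := rfl
lemma eL_inr_succ (w : Phase n) (i : Fin n) : eL w (Sum.inr i.succ) = w (Sum.inr i) := rfl

@[simp] lemma xL_ex : xL (ex : Phase (n + 1)) = 1 := by simp [xL_apply, ex]
@[simp] lemma xL_ey : xL (ey : Phase (n + 1)) = 0 := by simp [xL_apply, ey]
@[simp] lemma yL_ex : yL (ex : Phase (n + 1)) = 0 := by simp [yL_apply, ex]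
@[simp] lemma yL_ey : yL (ey : Phase (n + 1)) = 1 := by simp [yL_apply, ey]
@[simp] lemma xL_eL (w : Phase n) : xL (eL w) = 0 := rfl
@[simp] lemma yL_eL (w : Phase n) : yL (eL w) = 0 := rfl
@[simp] lemma wL_eL (w : Phase n) : wL (eL w) = w := by
  ext k
  rcases k with i | i <;> rfl
@[simp] lemma wL_ex : wL (ex : Phase (n + 1)) = 0 := by
  ext k
  rw [wL_apply]
  rcases k with i | i <;> simp [ex]
@[simp] lemma wL_ey : wL (ey : Phase (n + 1)) = 0 := by
  ext k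
  rw [wL_apply]
  rcases k with i | i <;> simp [ey]

/-- The decomposition of a point. -/
lemma split_eq (p : Phase (n + 1)) : xL p • ex + yL p • ey + eL (wL p) = p := by
  ext k
  rcases k with i | i
  all_goals
    refine Fin.cases ?_ (fun j => ?_) i
  · simp [xL_apply, yL_apply, ex, ey, eL_inl_zero]
  · simp [xL_apply, yL_apply, ex, ey, eL_inl_succ, wL_apply]
  · simp [xL_apply, yL_apply, ex, ey, eL_inr_zero]
  · simp [xL_apply, yL_apply, ex, ey, eL_inr_succ, wL_apply]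

lemma omega_split (p q : Phase (n + 1)) :
    omegaStd p q = xL p * yL q - yL p * xL q + omegaStd (wL p) (wL q) := by
  rw [omegaStd, Fin.sum_univ_succ, omegaStd]
  rfl

lemma norm_sq_split (p : Phase (n + 1)) : ‖p‖ ^ 2 = xL p ^ 2 + yL p ^ 2 + ‖wL p‖ ^ 2 := by
  rw [EuclideanSpace.norm_sq_eq, EuclideanSpace.norm_sq_eq, Fintype.sum_sum_type,
    Fin.sum_univ_succ, Fin.sum_univ_succ, Fintype.sum_sum_type]
  simp only [Real.norm_eq_abs, sq_abs, xL_apply, yL_apply, wL_apply, Sum.map_inl, Sum.map_inr]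
  ring

lemma abs_xL_le (p : Phase (n + 1)) : |xL p| ≤ ‖p‖ := by
  apply abs_le_of_sq_le_sq _ (norm_nonneg _)
  rw [norm_sq_split]
  nlinarith [sq_nonneg (yL p), sq_nonneg ‖wL p‖]

lemma abs_yL_le (p : Phase (n + 1)) : |yL p| ≤ ‖p‖ := by
  apply abs_le_of_sq_le_sq _ (norm_nonneg _)
  rw [norm_sq_split]
  nlinarith [sq_nonneg (xL p), sq_nonneg ‖wL p‖]

lemma norm_wL_le (p : Phase (n + 1)) : ‖wL p‖ ≤ ‖p‖ := by
  apply le_of_sq_le_sq _ (norm_nonneg _)
  rw [norm_sq_split p]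
  nlinarith [sq_nonneg (xL p), sq_nonneg (yL p)]

@[simp] lemma norm_eL (w : Phase n) : ‖eL w‖ = ‖w‖ := by
  have h := norm_sq_split (eL w)
  rw [xL_eL, yL_eL, wL_eL] at h
  have h2 : ‖eL w‖ ^ 2 = ‖w‖ ^ 2 := by rw [h]; ring
  exact (pow_left_inj₀ (norm_nonneg _) (norm_nonneg _) two_ne_zero).1 h2

@[simp] lemma norm_ex : ‖(ex : Phase (n + 1))‖ = 1 := by simp [ex]
@[simp] lemma norm_ey : ‖(ey : Phase (n + 1))‖ = 1 := by simp [ey]

/-- The point of `ℝ^{2n+2}` with given coordinates. -/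
noncomputable def pt (s y : ℝ) (w : Phase n) : Phase (n + 1) := s • ex + y • ey + eL w

@[simp] lemma xL_pt (s y : ℝ) (w : Phase n) : xL (pt s y w) = s := by simp [pt]
@[simp] lemma yL_pt (s y : ℝ) (w : Phase n) : yL (pt s y w) = y := by simp [pt]
@[simp] lemma wL_pt (s y : ℝ) (w : Phase n) : wL (pt s y w) = w := by simp [pt]
@[simp] lemma pt_eta (p : Phase (n + 1)) : pt (xL p) (yL p) (wL p) = p := split_eq p

lemma ext_split {p q : Phase (n + 1)} (h1 : xL p = xL q) (h2 : yL p = yL q)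
    (h3 : wL p = wL q) : p = q := by
  rw [← split_eq p, ← split_eq q, h1, h2, h3]

/-- The map stretching the first two coordinates by `l`. -/
noncomputable def Dl (l : ℝ) : Phase (n + 1) →L[ℝ] Phase (n + 1) :=
  l • ContinuousLinearMap.id ℝ _ + (1 - l) • (eL.comp wL)

lemma Dl_apply (l : ℝ) (p : Phase (n + 1)) : Dl l p = l • p + (1 - l) • eL (wL p) := rfl

@[simp] lemma xL_Dl (l : ℝ) (p : Phase (n + 1)) : xL (Dl l p) = l * xL p := by
  simp [Dl_apply]
@[simp] lemma yL_Dl (l : ℝ) (p : Phase (n + 1)) : yL (Dl l p) = l * yL p := by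
  simp [Dl_apply]
@[simp] lemma wL_Dl (l : ℝ) (p : Phase (n + 1)) : wL (Dl l p) = wL p := by
  rw [Dl_apply, map_add, map_smul, map_smul, wL_eL, ← add_smul]
  simp
@[simp] lemma Dl_one (p : Phase (n + 1)) : Dl 1 p = p := by simp [Dl_apply]
@[simp] lemma Dl_ex (l : ℝ) : Dl l (ex : Phase (n + 1)) = l • ex := by simp [Dl_apply]
@[simp] lemma Dl_ey (l : ℝ) : Dl l (ey : Phase (n + 1)) = l • ey := by simp [Dl_apply]
@[simp] lemma Dl_eL (l : ℝ) (w : Phase n) : Dl l (eL w) = eL w := by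
  rw [Dl_apply, wL_eL, ← add_smul]
  simp

lemma le_norm_Dl {l : ℝ} (h0 : 0 ≤ l) (h1 : l ≤ 1) (p : Phase (n + 1)) :
    l * ‖p‖ ≤ ‖Dl l p‖ := by
  apply le_of_sq_le_sq _ (norm_nonneg _)
  rw [mul_pow, norm_sq_split p, norm_sq_split (Dl l p), xL_Dl, yL_Dl, wL_Dl]
  have h2 : l ^ 2 ≤ 1 := pow_le_one₀ h0 h1
  nlinarith [sq_nonneg ‖wL p‖]

lemma norm_Dl_le {l : ℝ} (h0 : 0 ≤ l) (h1 : l ≤ 1) (p : Phase (n + 1)) :
    ‖Dl l p‖ ≤ ‖p‖ := by
  apply le_of_sq_le_sq _ (norm_nonneg _)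
  rw [norm_sq_split p, norm_sq_split (Dl l p), xL_Dl, yL_Dl, wL_Dl, mul_pow, mul_pow]
  have h2 : l ^ 2 ≤ 1 := pow_le_one₀ h0 h1
  nlinarith [sq_nonneg (xL p), sq_nonneg (yL p)]

/-- The deviation of a linear map `ℝ^{2n+2} → ℝ^{2n}`, added to the projection, from pulling back
the symplectic form to its pull back by the projection. -/
noncomputable def kap (C : Phase (n + 1) →L[ℝ] Phase n) (u v : Phase (n + 1)) : ℝ :=
  omegaStd (wL u + C u) (wL v + C v) - omegaStd (wL u) (wL v)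

lemma kap_eq (C : Phase (n + 1) →L[ℝ] Phase n) (u v : Phase (n + 1)) :
    kap C u v = omegaStd (wL u) (C v) + omegaStd (C u) (wL v) + omegaStd (C u) (C v) := by
  rw [kap, omegaStd_add_left, omegaStd_add_right, omegaStd_add_right]
  ring

lemma kap_add_left (C : Phase (n + 1) →L[ℝ] Phase n) (u u' v : Phase (n + 1)) :
    kap C (u + u') v = kap C u v + kap C u' v := by
  simp only [kap_eq, map_add, omegaStd_add_left]
  ring

lemma kap_add_right (C : Phase (n + 1) →L[ℝ] Phase n) (u v v' : Phase (n + 1)) :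
    kap C u (v + v') = kap C u v + kap C u v' := by
  simp only [kap_eq, map_add, omegaStd_add_right]
  ring

lemma kap_smul_left (C : Phase (n + 1) →L[ℝ] Phase n) (r : ℝ) (u v : Phase (n + 1)) :
    kap C (r • u) v = r * kap C u v := by
  simp only [kap_eq, map_smul, omegaStd_smul_left]
  ring

lemma kap_smul_right (C : Phase (n + 1) →L[ℝ] Phase n) (r : ℝ) (u v : Phase (n + 1)) :
    kap C u (r • v) = r * kap C u v := by
  simp only [kap_eq, map_smul, omegaStd_smul_right]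
  ring

lemma kap_comp_Dl (C : Phase (n + 1) →L[ℝ] Phase n) (l : ℝ) (u v : Phase (n + 1)) :
    kap (C.comp (Dl l)) u v = kap C (Dl l u) (Dl l v) := by
  rw [kap, kap]
  simp only [ContinuousLinearMap.comp_apply, wL_Dl]

lemma abs_kap_le (C : Phase (n + 1) →L[ℝ] Phase n) {M : ℝ} (hM : ‖C‖ ≤ M)
    (u v : Phase (n + 1)) : |kap C u v| ≤ (2 * M + M ^ 2) * (‖u‖ * ‖v‖) := by
  have hM0 : 0 ≤ M := (norm_nonneg _).trans hM
  have h1 : ∀ u, ‖C u‖ ≤ M * ‖u‖ := fun u =>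
    (C.le_opNorm u).trans (mul_le_mul_of_nonneg_right hM (norm_nonneg _))
  rw [kap_eq]
  have e1 : |omegaStd (wL u) (C v)| ≤ ‖u‖ * (M * ‖v‖) :=
    (abs_omegaStd_le _ _).trans (mul_le_mul (norm_wL_le u) (h1 v) (norm_nonneg _) (norm_nonneg _))
  have e2 : |omegaStd (C u) (wL v)| ≤ (M * ‖u‖) * ‖v‖ :=
    (abs_omegaStd_le _ _).trans (mul_le_mul (h1 u) (norm_wL_le v) (norm_nonneg _)
      (mul_nonneg hM0 (norm_nonneg _)))
  have e3 : |omegaStd (C u) (C v)| ≤ (M * ‖u‖) * (M * ‖v‖) :=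
    (abs_omegaStd_le _ _).trans (mul_le_mul (h1 u) (h1 v) (norm_nonneg _)
      (mul_nonneg hM0 (norm_nonneg _)))
  calc |omegaStd (wL u) (C v) + omegaStd (C u) (wL v) + omegaStd (C u) (C v)|
      ≤ |omegaStd (wL u) (C v)| + |omegaStd (C u) (wL v)| + |omegaStd (C u) (C v)| :=
        abs_add_three _ _ _
    _ ≤ ‖u‖ * (M * ‖v‖) + (M * ‖u‖) * ‖v‖ + (M * ‖u‖) * (M * ‖v‖) := by linarith
    _ = (2 * M + M ^ 2) * (‖u‖ * ‖v‖) := by ring

/-- If the fibre part of `kap C` is small, then so is all of `kap (C ∘ Dl l)` for small `l`. -/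
lemma abs_kap_Dl_le (C : Phase (n + 1) →L[ℝ] Phase n) {M θ l : ℝ} (hM : ‖C‖ ≤ M)
    (hθ0 : 0 ≤ θ) (hθ : ∀ α β : Phase n, |kap C (eL α) (eL β)| ≤ θ * (‖α‖ * ‖β‖)) (h0 : 0 ≤ l) (h1 : l ≤ 1)
    (u v : Phase (n + 1)) :
    |kap C (Dl l u) (Dl l v)| ≤ (θ + 2 * l * (2 * M + M ^ 2)) * (‖u‖ * ‖v‖) := by
  have hM0 : 0 ≤ M := (norm_nonneg _).trans hM
  have hN : 0 ≤ ‖u‖ * ‖v‖ := mul_nonneg (norm_nonneg _) (norm_nonneg _)
  have e : kap C (Dl l u) (Dl l v) = (1 - l) ^ 2 * kap C (eL (wL u)) (eL (wL v)) +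
      l * (1 - l) * kap C u (eL (wL v)) + l * (1 - l) * kap C (eL (wL u)) v +
      l ^ 2 * kap C u v := by
    simp only [Dl_apply, kap_add_left, kap_add_right, kap_smul_left, kap_smul_right]
    ring
  have b1 : |kap C (eL (wL u)) (eL (wL v))| ≤ |θ| * (‖u‖ * ‖v‖) := by
    refine (hθ _ _).trans ((mul_le_mul_of_nonneg_right (le_abs_self θ)
      (mul_nonneg (norm_nonneg _) (norm_nonneg _))).trans (mul_le_mul_of_nonneg_left
      (mul_le_mul (norm_wL_le u) (norm_wL_le v) (norm_nonneg _) (norm_nonneg _)) (abs_nonneg _)))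
  have hB : 0 ≤ 2 * M + M ^ 2 := by positivity
  have b2 : |kap C u (eL (wL v))| ≤ (2 * M + M ^ 2) * (‖u‖ * ‖v‖) := by
    refine (abs_kap_le C hM _ _).trans (mul_le_mul_of_nonneg_left ?_ hB)
    rw [norm_eL]
    exact mul_le_mul_of_nonneg_left (norm_wL_le v) (norm_nonneg _)
  have b3 : |kap C (eL (wL u)) v| ≤ (2 * M + M ^ 2) * (‖u‖ * ‖v‖) := by
    refine (abs_kap_le C hM _ _).trans (mul_le_mul_of_nonneg_left ?_ hB)
    rw [norm_eL]
    exact mul_le_mul_of_nonneg_right (norm_wL_le u) (norm_nonneg _)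
  have b4 := abs_kap_le C hM u v
  rw [abs_of_nonneg hθ0] at b1
  rw [e]
  have hl : 0 ≤ l * (1 - l) := mul_nonneg h0 (by linarith)
  have hl2 : (1 - l) ^ 2 ≤ 1 := pow_le_one₀ (by linarith) (by linarith)
  have c1 : |(1 - l) ^ 2 * kap C (eL (wL u)) (eL (wL v))| ≤ θ * (‖u‖ * ‖v‖) := by
    rw [abs_mul, abs_of_nonneg (sq_nonneg (1 - l))]
    calc (1 - l) ^ 2 * |kap C (eL (wL u)) (eL (wL v))|
        ≤ 1 * (θ * (‖u‖ * ‖v‖)) := mul_le_mul hl2 b1 (abs_nonneg _) zero_le_one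
      _ = _ := one_mul _
  have c2 : |l * (1 - l) * kap C u (eL (wL v))| ≤ l * (1 - l) * ((2 * M + M ^ 2) * (‖u‖ * ‖v‖)) := by
    rw [abs_mul, abs_of_nonneg hl]
    exact mul_le_mul_of_nonneg_left b2 hl
  have c3 : |l * (1 - l) * kap C (eL (wL u)) v| ≤ l * (1 - l) * ((2 * M + M ^ 2) * (‖u‖ * ‖v‖)) := by
    rw [abs_mul, abs_of_nonneg hl]
    exact mul_le_mul_of_nonneg_left b3 hl
  have c4 : |l ^ 2 * kap C u v| ≤ l ^ 2 * ((2 * M + M ^ 2) * (‖u‖ * ‖v‖)) := by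
    rw [abs_mul, abs_of_nonneg (sq_nonneg l)]
    exact mul_le_mul_of_nonneg_left b4 (sq_nonneg l)
  have hX : 0 ≤ (2 * M + M ^ 2) * (‖u‖ * ‖v‖) := mul_nonneg hB hN
  calc |(1 - l) ^ 2 * kap C (eL (wL u)) (eL (wL v)) + l * (1 - l) * kap C u (eL (wL v)) +
        l * (1 - l) * kap C (eL (wL u)) v + l ^ 2 * kap C u v|
      ≤ |(1 - l) ^ 2 * kap C (eL (wL u)) (eL (wL v))| + |l * (1 - l) * kap C u (eL (wL v))| +
        |l * (1 - l) * kap C (eL (wL u)) v| + |l ^ 2 * kap C u v| :=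
        (abs_add_le _ _).trans (add_le_add_left (abs_add_three _ _ _) _)
    _ ≤ θ * (‖u‖ * ‖v‖) + l * (1 - l) * ((2 * M + M ^ 2) * (‖u‖ * ‖v‖)) +
        l * (1 - l) * ((2 * M + M ^ 2) * (‖u‖ * ‖v‖)) +
        l ^ 2 * ((2 * M + M ^ 2) * (‖u‖ * ‖v‖)) := by linarith
    _ ≤ (θ + 2 * l * (2 * M + M ^ 2)) * (‖u‖ * ‖v‖) := by nlinarith [sq_nonneg l]

end Pool.Agent.Helper42
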