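import Mathlib
import Pool.Agent.Helper17.SympBase

open scoped ContDiff Distributions Topology
open Set Function TopologicalSpace

namespace Pool.Agent.Helper42

open Pool.Agent.Helper17

/-- The Poisson bracket `∑ (∂f/∂x_j ∂g/∂y_j - ∂f/∂y_j ∂g/∂x_j)` of two functions on `ℝ^{2N}`. -/
noncomputable def poisson {N : ℕ} (f g : Phase N → ℝ) (p : Phase N) : ℝ :=
  ∑ j : Fin N, (fderiv ℝ f p (EuclideanSpace.single (Sum.inl j) 1) *
      fderiv ℝ g p (EuclideanSpace.single (Sum.inr j) 1) -
    fderiv ℝ f p (EuclideanSpace.single (Sum.inr j) 1) *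
      fderiv ℝ g p (EuclideanSpace.single (Sum.inl j) 1))

/-- The standard pair of functions `(x_0, y_0)` on `ℝ^{2n+2}`. -/
def stdPair {n : ℕ} (p : Phase (n + 1)) : ℝ × ℝ := (p (Sum.inl 0), p (Sum.inr 0))

lemma contDiff_stdPair {n : ℕ} : ContDiff ℝ ∞ (stdPair : Phase (n + 1) → ℝ × ℝ) := by
  have h1 : ContDiff ℝ ∞ (fun p : Phase (n + 1) => p (Sum.inl 0)) :=
    ContinuousLinearMap.contDiff (𝕜 := ℝ)
      (EuclideanSpace.proj (Sum.inl (0 : Fin (n + 1))) : Phase (n + 1) →L[ℝ] ℝ)
  have h2 : ContDiff ℝ ∞ (fun p : Phase (n + 1) => p (Sum.inr 0)) :=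
    ContinuousLinearMap.contDiff (𝕜 := ℝ)
      (EuclideanSpace.proj (Sum.inr (0 : Fin (n + 1))) : Phase (n + 1) →L[ℝ] ℝ)
  exact h1.prodMk h2

/-- The space of pairs of smooth functions on `ℝ^{2n+2}`, equal to `(x_0, y_0)` outside a compact
set, with everywhere positive Poisson bracket. -/
def PairSp (n : ℕ) : Type :=
  {u : Phase (n + 1) → ℝ × ℝ // ContDiff ℝ ∞ u ∧
    (∃ K : Set (Phase (n + 1)), IsCompact K ∧ ∀ p ∉ K, u p = stdPair p) ∧
    ∀ p, 0 < poisson (fun q => (u q).1) (fun q => (u q).2) p}

/-- The pairs which are standard outside the compact set `K`. -/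
def PairSupp (n : ℕ) (K : Compacts (Phase (n + 1))) : Type :=
  {u : PairSp n // ∀ p ∉ K, u.1 p = stdPair p}

/-- The inclusion. -/
def PairSupp.incl {n : ℕ} (K : Compacts (Phase (n + 1))) : PairSupp n K → PairSp n := Subtype.val

/-- The difference to the standard pair, as an element of the Fréchet space of smooth maps
supported in `K`. -/
noncomputable def PairSupp.disp {n : ℕ} (K : Compacts (Phase (n + 1))) (u : PairSupp n K) :
    𝓓_{K}(Phase (n + 1), ℝ × ℝ) where
  toFun p := u.1.1 p - stdPair p
  contDiff' := u.1.2.1.sub contDiff_stdPair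
  zero_on_compl' := fun p hp => by
    have := u.2 p hp
    simp [this]

/-- The `C^∞` topology on the pairs which are standard outside `K`: uniform convergence of the
difference to the standard pair together with all its derivatives. -/
noncomputable instance (n : ℕ) (K : Compacts (Phase (n + 1))) : TopologicalSpace (PairSupp n K) :=
  TopologicalSpace.induced (PairSupp.disp K) inferInstance

/-- The direct limit topology on the space of pairs: the finest topology for which all the
inclusions of the spaces of pairs standard outside compact sets are continuous. -/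
noncomputable instance (n : ℕ) : TopologicalSpace (PairSp n) :=
  ⨆ K : Compacts (Phase (n + 1)), TopologicalSpace.coinduced (PairSupp.incl K) inferInstance

/-- The Poisson bracket of `x_0` and `y_0` is `1`. -/
lemma poisson_std {n : ℕ} (p : Phase (n + 1)) :
    poisson (fun q : Phase (n + 1) => (stdPair q).1) (fun q => (stdPair q).2) p = 1 := by
  have e1 : ∀ k, fderiv ℝ (fun q : Phase (n + 1) => q k) p = EuclideanSpace.proj k := fun k =>
    (ContinuousLinearMap.hasFDerivAt (EuclideanSpace.proj k : Phase (n + 1) →L[ℝ] ℝ)).fderiv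
  simp only [stdPair, poisson, e1]
  rw [Fin.sum_univ_succ]
  simp

/-- The standard pair, as a point of the space of pairs. -/
def PairSp.std {n : ℕ} : PairSp n :=
  ⟨stdPair, contDiff_stdPair, ⟨∅, isCompact_empty, fun _ _ => rfl⟩,
    fun p => by rw [poisson_std]; exact one_pos⟩

end Pool.Agent.Helper42
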