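import Mathlib
import Pool.Agent.Helper17.DirectLimit
import Pool.Agent.Helper17.SympFamily
import Pool.Agent.H50.Susp.PairToPos
import Pool.Agent.Helper42.Susp.Coord
import Pool.Agent.Helper42.Susp.PairDef

set_option maxSynthPendingDepth 3

open scoped ContDiff Distributions Topology
open Set Function TopologicalSpace Filter Topology

namespace Pool.Agent.Helper42

open Pool.Agent.Helper17
open Pool.Agent.H50.Susp (bracket)

variable {n : ℕ}

lemma poisson_eq_bracket {N : ℕ} (f g : Phase N → ℝ) (p : Phase N) :
    poisson f g p = bracket f g p := rfl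

lemma PairSupp.isInducing_disp (K : Compacts (Phase (n + 1))) :
    IsInducing (PairSupp.disp K : PairSupp n K → 𝓓_{K}(Phase (n + 1), ℝ × ℝ)) := ⟨rfl⟩

lemma PairSupp.continuous_incl (K : Compacts (Phase (n + 1))) :
    Continuous (PairSupp.incl K : PairSupp n K → PairSp n) :=
  continuous_iSup_rng (i := K) continuous_coinduced_rng

lemma PairSupp.incl_injective (K : Compacts (Phase (n + 1))) :
    Injective (PairSupp.incl K : PairSupp n K → PairSp n) := Subtype.val_injective

/-- The inclusion between the spaces attached to `K ≤ L`. -/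
def PairSupp.mono {K L : Compacts (Phase (n + 1))} (h : K ≤ L) (φ : PairSupp n K) : PairSupp n L :=
  ⟨φ.1, fun p hp => φ.2 p fun hK => hp (h hK)⟩

lemma PairSupp.topology_eq (K : Compacts (Phase (n + 1))) :
    (instTopologicalSpacePairSupp n K : TopologicalSpace (PairSupp n K)) =
      ⨅ i : ℕ, TopologicalSpace.induced
        (fun φ : PairSupp n K => ContDiffMapSupportedIn.structureMapLM ℝ ⊤ i (PairSupp.disp K φ))
        inferInstance := by
  change TopologicalSpace.induced (PairSupp.disp K) (⨅ i : ℕ, TopologicalSpace.induced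
    (ContDiffMapSupportedIn.structureMapLM ℝ ⊤ i) inferInstance) = _
  rw [induced_iInf]
  refine iInf_congr fun i => ?_
  rw [induced_compose]
  rfl

lemma PairSupp.isInducing_mono {K L : Compacts (Phase (n + 1))} (h : K ≤ L) :
    IsInducing (PairSupp.mono h : PairSupp n K → PairSupp n L) := by
  constructor
  rw [PairSupp.topology_eq K, PairSupp.topology_eq L, induced_iInf]
  refine iInf_congr fun i => ?_
  rw [induced_compose]
  congr 1

lemma PairSupp.continuous_eval (K : Compacts (Phase (n + 1))) (p : Phase (n + 1)) :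
    Continuous (fun φ : PairSupp n K => φ.1.1 p) := by
  have h1 : Continuous (fun φ : PairSupp n K => PairSupp.disp K φ p) :=
    (continuous_eval_const p).comp (PairSupp.isInducing_disp K).continuous
  have h2 : (fun φ : PairSupp n K => φ.1.1 p) =
      fun φ : PairSupp n K => PairSupp.disp K φ p + stdPair p := by
    ext1 φ
    change _ = (φ.1.1 p - stdPair p) + stdPair p
    abel
  rw [h2]
  exact h1.add continuous_const

instance (K : Compacts (Phase (n + 1))) : T2Space (PairSupp n K) := by
  rw [t2Space_iff]
  intro φ ψ hne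
  have : ∃ p, φ.1.1 p ≠ ψ.1.1 p := by
    by_contra h
    push Not at h
    exact hne (Subtype.ext (Subtype.ext (funext h)))
  obtain ⟨p, hp⟩ := this
  obtain ⟨U, V, hU, hV, h1, h2, h3⟩ := t2_separation hp
  exact ⟨_, _, hU.preimage (PairSupp.continuous_eval K p),
    hV.preimage (PairSupp.continuous_eval K p), h1, h2, h3.preimage _⟩

lemma PairSupp.isClosedEmbedding_mono {K L : Compacts (Phase (n + 1))} (h : K ≤ L) :
    IsClosedEmbedding (PairSupp.mono h : PairSupp n K → PairSupp n L) where
  toIsInducing := PairSupp.isInducing_mono h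
  injective := fun φ ψ hφψ => Subtype.ext (by
    have : (PairSupp.mono h φ).1 = (PairSupp.mono h ψ).1 := by rw [hφψ]
    exact this)
  isClosed_range := by
    have : range (PairSupp.mono h : PairSupp n K → PairSupp n L) =
        ⋂ p : {p : Phase (n + 1) // p ∉ K}, {φ : PairSupp n L | φ.1.1 p.1 = stdPair p.1} := by
      ext φ
      simp only [mem_range, mem_iInter, Subtype.forall]
      constructor
      · rintro ⟨ψ, rfl⟩ p hp
        exact ψ.2 p hp
      · intro hφ
        exact ⟨⟨φ.1, hφ⟩, rfl⟩
    rw [this]
    exact isClosed_iInter fun p => isClosed_eq (PairSupp.continuous_eval L p.1) continuous_const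

lemma isClosed_iff_forall_pair (s : Set (PairSp n)) :
    IsClosed s ↔ ∀ K : Compacts (Phase (n + 1)), IsClosed (PairSupp.incl K ⁻¹' s) := by
  rw [isClosed_iSup_iff]
  simp only [isClosed_coinduced]

lemma PairSupp.isClosedEmbedding_incl (K : Compacts (Phase (n + 1))) :
    IsClosedEmbedding (PairSupp.incl K : PairSupp n K → PairSp n) := by
  refine IsClosedEmbedding.of_continuous_injective_isClosedMap (PairSupp.continuous_incl K)
    (PairSupp.incl_injective K) ?_
  intro s hs
  rw [isClosed_iff_forall_pair]
  intro L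
  have h1 : PairSupp.incl L ⁻¹' (PairSupp.incl K '' s) =
      PairSupp.mono (le_sup_right : L ≤ K ⊔ L) ⁻¹' (PairSupp.mono (le_sup_left : K ≤ K ⊔ L) '' s) := by
    ext φ
    constructor
    · rintro ⟨ψ, hψ, h⟩
      exact ⟨ψ, hψ, Subtype.ext h⟩
    · rintro ⟨ψ, hψ, h⟩
      exact ⟨ψ, hψ, congrArg Subtype.val h⟩
  rw [h1]
  exact ((PairSupp.isClosedEmbedding_mono _).isClosedMap s hs).preimage
    (PairSupp.isInducing_mono _).continuous

lemma exists_supported_ballC_pair (φ : PairSp n) :
    ∃ N, ∀ M, N ≤ M → ∀ p ∉ ballC (n + 1) M, φ.1 p = stdPair p := by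
  obtain ⟨-, ⟨K, hK, hφK⟩, -⟩ := φ.2
  obtain ⟨N, hN⟩ := exists_ballC_ge (⟨K, hK⟩ : Compacts (Phase (n + 1)))
  exact ⟨N, fun M hM p hp => hφK p fun h => hp (ballC_mono hM (hN h))⟩

/-- A compact set of pairs consists of pairs which are standard outside a common ball. -/
lemma exists_ballC_of_isCompact_pair {C : Set (PairSp n)} (hC : IsCompact C) :
    ∃ N, ∀ φ ∈ C, ∀ p ∉ ballC (n + 1) N, φ.1 p = stdPair p := by
  by_contra hcon
  push Not at hcon
  choose φ hφC hφ using hcon
  obtain ⟨c, hcC, hc⟩ := hC.exists_mapClusterPt (f := atTop) (u := φ) (by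
    rw [le_principal_iff]
    exact Filter.mem_map.2 (Filter.Eventually.of_forall hφC))
  obtain ⟨M, hM⟩ := exists_supported_ballC_pair c
  set S : Set (PairSp n) := range φ \ {c} with hS
  have hclosed : IsClosed S := by
    rw [isClosed_iff_forall_pair]
    intro K
    obtain ⟨L, hL⟩ := exists_ballC_ge K
    have hfin : (PairSupp.incl K ⁻¹' S).Finite := by
      have : (PairSupp.incl K ⁻¹' S) ⊆ PairSupp.incl K ⁻¹' (φ '' {N | N < L}) := by
        rintro ψ ⟨⟨N, hN⟩, -⟩
        refine ⟨N, ?_, hN⟩
        by_contra hNL
        obtain ⟨p, hp, hne⟩ := hφ N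
        have h1 : L ≤ N := not_lt.1 hNL
        apply hne
        rw [hN]
        exact ψ.2 p fun h => hp (ballC_mono h1 (hL h))
      refine Finite.subset ?_ this
      exact ((finite_lt_nat L).image φ).preimage (PairSupp.incl_injective K).injOn
    exact hfin.isClosed
  have hnhds : Sᶜ ∈ 𝓝 c := hclosed.isOpen_compl.mem_nhds (by simp [hS])
  have hfreq := (mapClusterPt_iff_frequently.1 hc) Sᶜ hnhds
  obtain ⟨N, hN, hNS⟩ := (Filter.frequently_atTop.1 hfreq) M
  have hNc : φ N = c := by
    by_contra h
    exact hNS ⟨⟨N, rfl⟩, h⟩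
  obtain ⟨p, hp, hne⟩ := hφ N
  rw [hNc] at hne
  exact hne (hM N hN p hp)

/-- A continuous map from a compact space factors through a stage. -/
lemma exists_lift_of_compact_pair {T : Type*} [TopologicalSpace T] [CompactSpace T]
    (f : T → PairSp n) (hf : Continuous f) :
    ∃ N, ∃ g : T → PairSupp n (ballC (n + 1) N), Continuous g ∧ ∀ t, (g t).1 = f t := by
  obtain ⟨N, hN⟩ := exists_ballC_of_isCompact_pair (isCompact_range hf)
  have hN' : ∀ t, ∀ p ∉ ballC (n + 1) N, (f t).1 p = stdPair p :=
    fun t => hN (f t) (mem_range_self t)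
  refine ⟨N, fun t => ⟨f t, hN' t⟩, ?_, fun t => rfl⟩
  exact (PairSupp.isClosedEmbedding_incl (ballC (n + 1) N)).isInducing.continuous_iff.2 hf

/-- Smooth families which are standard outside a common compact set are continuous. -/
lemma continuous_pair_of_CF {T : Type} [TopologicalSpace T] {F : T → Phase (n + 1) → ℝ × ℝ}
    (hF : CF F) (K : Compacts (Phase (n + 1))) (hK : ∀ t, ∀ x ∉ K, F t x = stdPair x)
    {g : T → PairSp n} (hg : ∀ t x, (g t).1 x = F t x) : Continuous g := by
  set gK : T → PairSupp n K := fun t => ⟨g t, fun p hp => by rw [hg, hK t p hp]⟩ with hgK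
  have hcont : Continuous gK := by
    rw [continuous_induced_rng, ContDiffMapSupportedIn.continuous_iff_comp]
    intro i
    apply continuous_bcf_of_joint _ K.isCompact
    · intro t x hx
      simp only [comp_apply]
      rw [ContDiffMapSupportedIn.structureMapCLM_top_apply]
      exact ContDiffMapSupportedIn.iteratedFDeriv_zero_on_compl _ hx
    · have h1 : ∀ q : T × Phase (n + 1),
          ((ContDiffMapSupportedIn.structureMapCLM ℝ ⊤ i ∘ PairSupp.disp K ∘ gK) q.1) q.2 =
          iteratedFDeriv ℝ i (fun x => F q.1 x - stdPair x) q.2 := by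
        intro q
        simp only [comp_apply]
        rw [ContDiffMapSupportedIn.structureMapCLM_top_apply]
        have : (PairSupp.disp K (gK q.1) : Phase (n + 1) → ℝ × ℝ) =
            fun x => F q.1 x - stdPair x := by
          funext x
          change (g q.1).1 x - stdPair x = _
          rw [hg]
        rw [this]
      simp_rw [h1]
      exact (hF.sub (CF.const contDiff_stdPair)).continuous_iteratedFDeriv i
  exact (PairSupp.continuous_incl K).comp hcont

/-- A continuous map from a compact space is a smooth family, standard outside a common compact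
set. -/
lemma CF_of_continuous_pair {T : Type} [TopologicalSpace T] [CompactSpace T] {f : T → PairSp n}
    (hf : Continuous f) : CF (fun t x => (f t).1 x) ∧
      ∃ K : Compacts (Phase (n + 1)), ∀ t, ∀ x ∉ K, (f t).1 x = stdPair x := by
  obtain ⟨N, g, hg, hgf⟩ := exists_lift_of_compact_pair f hf
  refine ⟨?_, ballC (n + 1) N, fun t x hx => by rw [← hgf t]; exact (g t).2 x hx⟩
  have h1 : CF (fun t x => (f t).1 x - stdPair x) := by
    intro k
    apply CFk.of_iteratedFDeriv
    · intro t
      exact (f t).2.1.sub contDiff_stdPair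
    · intro i
      have h2 : Continuous (fun t => ContDiffMapSupportedIn.structureMapCLM ℝ ⊤ i
          (PairSupp.disp (ballC (n + 1) N) (g t))) :=
        (ContDiffMapSupportedIn.structureMapCLM ℝ ⊤ i).continuous.comp
          ((PairSupp.isInducing_disp (ballC (n + 1) N)).continuous.comp hg)
      have h3 : ∀ q : T × Phase (n + 1), iteratedFDeriv ℝ i
          (fun x => (f q.1).1 x - stdPair x) q.2 =
          (ContDiffMapSupportedIn.structureMapCLM ℝ ⊤ i
          (PairSupp.disp (ballC (n + 1) N) (g q.1))) q.2 := by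
        intro q
        rw [ContDiffMapSupportedIn.structureMapCLM_top_apply]
        have : (PairSupp.disp (ballC (n + 1) N) (g q.1) : Phase (n + 1) → ℝ × ℝ) =
            fun x => (f q.1).1 x - stdPair x := by
          funext x
          change ((g q.1).1).1 x - stdPair x = _
          rw [hgf]
        rw [this]
      simp_rw [h3]
      exact Continuous.eval (h2.comp continuous_fst) continuous_snd
  have h2 := h1.add (CF.const (T := T) (contDiff_stdPair (n := n)))
  convert h2 using 3 with t x
  simp

end Pool.Agent.Helper42
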