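import Mathlib
import Pool.Agent.Helper17.AdmPath

set_option maxSynthPendingDepth 3

open scoped ContDiff Topology unitInterval
open Set Function Filter TopologicalSpace

namespace Pool.Agent.Helper42

open Pool.Agent.Helper17

variable {n : ℕ} {T : Type} [TopologicalSpace T]

/-- Two families of maps of `ℝ^{2n}`, parametrised by `T`, joined by a deformation through smooth
maps with admissible derivatives which are the identity outside a common compact set; over `T₀`
the deformation is the identity. -/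
def AdmHom (T₀ : Set T) (Ψ₀ Ψ₁ : T → Phase n → Phase n) : Prop :=
  ∃ F : T × Icc (0 : ℝ) 1 → Phase n → Phase n, CF F ∧
    (∃ K : Set (Phase n), IsCompact K ∧ ∀ p, ∀ x ∉ K, F p x = x) ∧
    (∀ p x, Admissible (fderiv ℝ (F p) x)) ∧
    (∀ t x, F (t, ⟨0, left_mem_Icc.2 zero_le_one⟩) x = Ψ₀ t x) ∧
    (∀ t x, F (t, ⟨1, right_mem_Icc.2 zero_le_one⟩) x = Ψ₁ t x) ∧
    (∀ t ∈ T₀, ∀ s x, F (t, s) x = x)

variable {T₀ : Set T} {Ψ₀ Ψ₁ Ψ₂ : T → Phase n → Phase n}

lemma AdmHom.symm (h : AdmHom T₀ Ψ₀ Ψ₁) : AdmHom T₀ Ψ₁ Ψ₀ := by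
  obtain ⟨F, hF, ⟨K, hK, hFK⟩, hadm, h0, h1, hT⟩ := h
  refine ⟨fun p => F (p.1, unitInterval.symm p.2), hF.base (continuous_fst.prodMk
    (unitInterval.continuous_symm.comp continuous_snd)), ⟨K, hK, fun p => hFK _⟩, fun p => hadm _,
    ?_, ?_, fun t ht s x => hT t ht _ x⟩
  · intro t x
    rw [← h1 t x]
    change F (t, unitInterval.symm 0) x = _
    rw [unitInterval.symm_zero]
    rfl
  · intro t x
    rw [← h0 t x]
    change F (t, unitInterval.symm 1) x = _
    rw [unitInterval.symm_one]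
    rfl

lemma AdmHom.trans (h : AdmHom T₀ Ψ₀ Ψ₁) (h' : AdmHom T₀ Ψ₁ Ψ₂) : AdmHom T₀ Ψ₀ Ψ₂ := by
  obtain ⟨F, hF, ⟨K, hK, hFK⟩, hadm, h0, h1, hT⟩ := h
  obtain ⟨G, hG, ⟨L, hL, hGL⟩, hadm', h0', h1', hT'⟩ := h'
  set H : T × Icc (0 : ℝ) 1 → Phase n → Phase n := fun p =>
    if (p.2 : ℝ) ≤ 1 / 2 then F (p.1, half1 p.2) else G (p.1, half2 p.2) with hH
  have hmid : ∀ p : T × Icc (0 : ℝ) 1, (p.2 : ℝ) = 1 / 2 →
      F (p.1, half1 p.2) = G (p.1, half2 p.2) := by
    intro p hp
    have e1 : half1 p.2 = ⟨1, right_mem_Icc.2 zero_le_one⟩ := by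
      rw [half1, hp]
      norm_num
    have e2 : half2 p.2 = ⟨0, left_mem_Icc.2 zero_le_one⟩ := by
      rw [half2, hp]
      norm_num
    rw [e1, e2]
    ext1 x
    rw [h1, h0']
  have c1 : Continuous (fun p : T × Icc (0 : ℝ) 1 => (p.1, half1 p.2)) :=
    continuous_fst.prodMk (continuous_half1.comp continuous_snd)
  have c2 : Continuous (fun p : T × Icc (0 : ℝ) 1 => (p.1, half2 p.2)) :=
    continuous_fst.prodMk (continuous_half2.comp continuous_snd)
  refine ⟨H, ?_, ⟨K ∪ L, hK.union hL, ?_⟩, ?_, ?_, ?_, ?_⟩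
  · intro k
    apply CFk.of_iteratedFDeriv
    · intro t
      simp only [hH]
      split_ifs
      · exact hF.contDiff _
      · exact hG.contDiff _
    · intro i
      have e : (fun p : (T × Icc (0 : ℝ) 1) × Phase n => iteratedFDeriv ℝ i (H p.1) p.2) =
          fun p => if (p.1.2 : ℝ) ≤ 1 / 2 then iteratedFDeriv ℝ i (F (p.1.1, half1 p.1.2)) p.2 else
            iteratedFDeriv ℝ i (G (p.1.1, half2 p.1.2)) p.2 := by
        ext1 p
        simp only [hH]
        split_ifs <;> rfl
      rw [e]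
      apply Continuous.if_le
      · exact CF.continuous_iteratedFDeriv i (hF.base c1)
      · exact CF.continuous_iteratedFDeriv i (hG.base c2)
      · exact continuous_subtype_val.comp (continuous_snd.comp continuous_fst)
      · exact continuous_const
      · intro p hp
        rw [hmid p.1 hp]
  · intro p x hx
    simp only [hH]
    split_ifs
    · exact hFK _ x fun h => hx (Or.inl h)
    · exact hGL _ x fun h => hx (Or.inr h)
  · intro p x
    simp only [hH]
    split_ifs
    · exact hadm _ x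
    · exact hadm' _ x
  · intro t x
    simp only [hH]
    rw [if_pos (by norm_num), ← h0]
    congr 2
    rw [half1]
    norm_num
  · intro t x
    simp only [hH]
    rw [if_neg (by norm_num), ← h1']
    congr 2
    rw [half2]
    norm_num
  · intro t ht s x
    simp only [hH]
    split_ifs
    · exact hT t ht _ x
    · exact hT' t ht _ x

/-- A family of symplectomorphisms joined by a homotopy relative to `T₀`. -/
lemma admHom_of_homotopicRel [CompactSpace T] {f f' : C(T, SympCt n)} (h1 : ∀ t ∈ T₀, f t = 1)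
    (h : f.HomotopicRel f' T₀) :
    AdmHom T₀ (fun t x => (f t : Equiv.Perm (Phase n)) x)
      (fun t x => (f' t : Equiv.Perm (Phase n)) x) := by
  obtain ⟨H⟩ := h
  obtain ⟨hCF, K, hK⟩ := CF_of_continuous (f := fun q : unitInterval × T => H q) H.continuous
  refine ⟨fun p x => (H (p.2, p.1) : Equiv.Perm (Phase n)) x,
    hCF.base (h := fun p : T × Icc (0 : ℝ) 1 => ((p.2, p.1) : unitInterval × T))
      (continuous_snd.prodMk continuous_fst), ⟨K, K.isCompact, fun p x hx => hK _ x hx⟩,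
    fun p x => SympCt.admissible _ x, ?_, ?_, ?_⟩
  · intro t x
    change ((H ((0 : unitInterval), t) : SympCt n) : Equiv.Perm (Phase n)) x = _
    rw [H.apply_zero]
  · intro t x
    change ((H ((1 : unitInterval), t) : SympCt n) : Equiv.Perm (Phase n)) x = _
    rw [H.apply_one]
  · intro t ht s x
    have e1 : H ((s : unitInterval), t) = 1 := by
      rw [H.eq_fst s ht, h1 t ht]
    change ((H ((s : unitInterval), t) : SympCt n) : Equiv.Perm (Phase n)) x = _
    rw [e1]
    rfl

/-- Moser's method: symplectic families joined by an admissible deformation are homotopic. -/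
theorem homotopicRel_of_admHom [CompactSpace T] {f f' : C(T, SympCt n)}
    (h : AdmHom T₀ (fun t x => (f t : Equiv.Perm (Phase n)) x)
      (fun t x => (f' t : Equiv.Perm (Phase n)) x)) :
    f.HomotopicRel f' T₀ := by
  obtain ⟨Ψ, hΨ, ⟨K, hK, hΨK⟩, hadm, h0, h1, hT⟩ := h
  set z : Icc (0 : ℝ) 1 := ⟨0, left_mem_Icc.2 zero_le_one⟩ with hz
  set o : Icc (0 : ℝ) 1 := ⟨1, right_mem_Icc.2 zero_le_one⟩ with ho
  obtain ⟨ρ, hρ, hcons, hρK, hρ0, hρid⟩ := moser_family hΨ hK hΨK hadm
  have hHCF : CF (fun (q : (T × Icc (0 : ℝ) 1) × Icc (0 : ℝ) 1) x => Ψ q.1 (ρ q x)) :=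
    (hΨ.base continuous_fst).comp hρ
  have hHK : ∀ (q : (T × Icc (0 : ℝ) 1) × Icc (0 : ℝ) 1), ∀ x ∉ K, Ψ q.1 (ρ q x) = x := by
    intro q x hx
    rw [hρK x hx, hΨK q.1 x hx]
  have hs1 : ∀ (p : T × Icc (0 : ℝ) 1) (x u v : Phase n),
      omegaStd (fderiv ℝ (fun x => Ψ p (ρ (p, o) x)) x u)
        (fderiv ℝ (fun x => Ψ p (ρ (p, o) x)) x v) = omegaStd u v := by
    intro p x u v
    rw [fderiv_comp_family hΨ hρ p o x]
    have := hcons p o x u v
    simp only [ho, sub_self, zero_mul, one_mul, zero_add] at this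
    exact this
  -- the ends are symplectic along the whole Moser isotopy
  have hend : ∀ (e : Icc (0 : ℝ) 1) (g : C(T, SympCt n))
      (_ : ∀ t x, Ψ (t, e) x = (g t : Equiv.Perm (Phase n)) x) (t : T) (s : Icc (0 : ℝ) 1)
      (x u v : Phase n),
      omegaStd (fderiv ℝ (fun x => Ψ (t, e) (ρ ((t, e), s) x)) x u)
        (fderiv ℝ (fun x => Ψ (t, e) (ρ ((t, e), s) x)) x v) = omegaStd u v := by
    intro e g hg t s x u v
    have hfs : ∀ x u v : Phase n, omegaStd (fderiv ℝ (Ψ (t, e)) x u) (fderiv ℝ (Ψ (t, e)) x v) =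
        omegaStd u v := by
      intro x u v
      have e1 : Ψ (t, e) = (g t : Equiv.Perm (Phase n)) := funext fun y => hg t y
      rw [e1]
      exact (g t).2.2.2.1 x u v
    rw [fderiv_comp_family hΨ hρ (t, e) s x]
    have h2 := hcons (t, e) s x u v
    rw [hfs] at h2
    simp only [ContinuousLinearMap.comp_apply]
    rw [hfs]
    linear_combination h2
  have hrid : ∀ t ∈ T₀, ∀ (e s : Icc (0 : ℝ) 1) (x : Phase n), Ψ (t, e) (ρ ((t, e), s) x) = x := by
    intro t ht e s x
    rw [hρid (t, e) (fun y => hT t ht e y), hT t ht e x]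
  -- the middle family
  set G2 : unitInterval × T → SympCt n := fun q =>
    mkSymp (fun x => Ψ (q.2, q.1) (ρ ((q.2, q.1), o) x))
    (hHCF.contDiff ((q.2, q.1), o)) ⟨K, hK, hHK ((q.2, q.1), o)⟩ (hs1 (q.2, q.1)) with hG2
  have hbase2 : Continuous (fun q : unitInterval × T =>
      (((q.2, q.1), o) : (T × Icc (0 : ℝ) 1) × Icc (0 : ℝ) 1)) :=
    (continuous_snd.prodMk continuous_fst).prodMk continuous_const
  have hG2c : Continuous G2 := continuous_of_CF (hHCF.base hbase2) ⟨K, hK⟩
    (fun t x hx => hHK _ x hx) (fun t x => rfl)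
  -- from an end to the middle family
  have hEnd : ∀ (e : Icc (0 : ℝ) 1) (g : C(T, SympCt n))
      (_ : ∀ t x, Ψ (t, e) x = (g t : Equiv.Perm (Phase n)) x),
      g.HomotopicRel ⟨fun t => G2 (e, t), hG2c.comp (Continuous.prodMk_right _)⟩ T₀ := by
    intro e g hg
    set G1 : unitInterval × T → SympCt n := fun q =>
      mkSymp (fun x => Ψ (q.2, e) (ρ ((q.2, e), q.1) x))
      (hHCF.contDiff ((q.2, e), q.1)) ⟨K, hK, hHK ((q.2, e), q.1)⟩ (hend e g hg q.2 q.1) with hG1
    have hbase1 : Continuous (fun q : unitInterval × T =>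
        (((q.2, e), q.1) : (T × Icc (0 : ℝ) 1) × Icc (0 : ℝ) 1)) :=
      (continuous_snd.prodMk continuous_const).prodMk continuous_fst
    have hG1c : Continuous G1 := continuous_of_CF (hHCF.base hbase1) ⟨K, hK⟩
      (fun t x hx => hHK _ x hx) (fun t x => rfl)
    have hz0 : ∀ t, G1 (0, t) = g t := by
      intro t
      apply SympCt.ext'
      intro x
      change Ψ (t, e) (ρ ((t, e), (0 : unitInterval)) x) = _
      have : (0 : unitInterval) = z := rfl
      rw [this, hρ0, hg]
    refine ⟨{ toFun := G1, continuous_toFun := hG1c, map_zero_left := hz0,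
              map_one_left := fun t => ?_, prop' := ?_ }⟩
    · apply SympCt.ext'
      intro x
      rfl
    · intro s t ht
      apply SympCt.ext'
      intro x
      change Ψ (t, e) (ρ ((t, e), s) x) = _
      rw [hrid t ht e s x, ← hg, hT t ht]
  have h2 : (⟨fun t => G2 (z, t), hG2c.comp (Continuous.prodMk_right _)⟩ :
      C(T, SympCt n)).HomotopicRel
      ⟨fun t => G2 (o, t), hG2c.comp (Continuous.prodMk_right _)⟩ T₀ := by
    refine ⟨{ toFun := G2, continuous_toFun := hG2c, map_zero_left := fun t => rfl,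
              map_one_left := fun t => rfl, prop' := ?_ }⟩
    intro s t ht
    apply SympCt.ext'
    intro x
    change Ψ (t, s) (ρ ((t, s), o) x) = Ψ (t, z) (ρ ((t, z), o) x)
    rw [hrid t ht s o x, hrid t ht z o x]
  exact ((hEnd z f h0).trans h2).trans (hEnd o f' h1).symm

end Pool.Agent.Helper42
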