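import Mathlib
import Pool.Agent.Helper42.Susp.Coord
import Pool.Agent.Helper42.Susp.CFInverse
import Pool.Agent.Helper42.Susp.AdmHom

set_option maxSynthPendingDepth 3

open scoped ContDiff Topology
open Set Function Filter

namespace Pool.Agent.Helper42

open Pool.Agent.Helper17

variable {n : ℕ}

/-- The quotient of two families of maps, one of them invertible. -/
theorem exists_quotient {B : Type} [TopologicalSpace B] {Q N : B → Phase n → Phase n}
    (hQ : CF Q) (hN : CF N) {K : Set (Phase n)} (hK : IsCompact K)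
    (hQK : ∀ b, ∀ x ∉ K, Q b x = x) (hNK : ∀ b, ∀ x ∉ K, N b x = x)
    (hrel : ∀ b x, ∀ σ ∈ Icc (0 : ℝ) 1, ∀ V, (∀ W, (1 - σ) * omegaStd (fderiv ℝ (Q b) x V)
      (fderiv ℝ (Q b) x W) + σ * omegaStd (fderiv ℝ (N b) x V) (fderiv ℝ (N b) x W) = 0) →
      V = 0) :
    ∃ G : B → Phase n → Phase n, CF G ∧ (∀ b, ∀ x ∉ K, G b x = x) ∧
      (∀ b x, Admissible (fderiv ℝ (G b) x)) ∧ (∀ b x, G b (Q b x) = N b x) ∧
      (∀ b, Surjective (Q b)) := by
  have hinj : ∀ b x, Injective (fderiv ℝ (Q b) x) := by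
    intro b x
    rw [injective_iff_map_eq_zero]
    intro V hV
    apply hrel b x 0 ⟨le_rfl, zero_le_one⟩ V
    intro W
    rw [hV, omegaStd_zero_left]
    simp
  obtain ⟨R, hR, hQR, hRQ, hRK⟩ := exists_CF_inverse hQ hK hQK hinj
  refine ⟨fun b x => N b (R b x), hN.comp hR,
    fun b x hx => by beta_reduce; rw [hRK b x hx, hNK b x hx], ?_,
    fun b x => by beta_reduce; rw [hRQ], fun b x => ⟨R b x, hQR b x⟩⟩
  intro b x σ hσ v hv
  have e1 : fderiv ℝ (fun x => N b (R b x)) x = (fderiv ℝ (N b) (R b x)).comp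
      (fderiv ℝ (R b) x) := fderiv_comp x (hN.differentiable b _) (hR.differentiable b x)
  have e2 : ∀ v, fderiv ℝ (Q b) (R b x) (fderiv ℝ (R b) x v) = v := by
    intro v
    have h1 : (fderiv ℝ (Q b) (R b x)).comp (fderiv ℝ (R b) x) = ContinuousLinearMap.id ℝ _ := by
      rw [← fderiv_comp x (hQ.differentiable b _) (hR.differentiable b x)]
      have : (Q b ∘ R b) = id := funext fun y => hQR b y
      rw [this, fderiv_id]
    simpa using congrArg (fun L => L v) h1
  have e3 : ∀ W, fderiv ℝ (R b) x (fderiv ℝ (Q b) (R b x) W) = W := by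
    intro W
    apply hinj b (R b x)
    rw [e2]
  have h2 : fderiv ℝ (R b) x v = 0 := by
    apply hrel b (R b x) σ hσ
    intro W
    have h3 := hv (fderiv ℝ (Q b) (R b x) W)
    rw [e1] at h3
    simp only [ContinuousLinearMap.comp_apply, e3] at h3
    rw [e2]
    exact h3
  rw [← e2 v, h2, map_zero]

lemma eq_zero_of_form_close {Φ : Phase n → Phase n → ℝ} {ε : ℝ} (hε : ε < 1) {V : Phase n}
    (h : ∀ W, |Φ V W - omegaStd V W| ≤ ε * (‖V‖ * ‖W‖)) (hV : ∀ W, Φ V W = 0) : V = 0 := by
  by_contra hne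
  have h1 := h (Jl n V)
  rw [hV, omegaStd_Jl, norm_Jl, zero_sub, abs_neg, abs_of_nonneg (sq_nonneg _)] at h1
  have h2 : 0 < ‖V‖ := norm_pos_iff.2 hne
  have h3 : ε * (‖V‖ * ‖V‖) < 1 * (‖V‖ * ‖V‖) := mul_lt_mul_of_pos_right hε (mul_pos h2 h2)
  nlinarith

section bound

variable {T : Type} [TopologicalSpace T] {E : Type} [NormedAddCommGroup E] [NormedSpace ℝ E]
  {E' : Type} [NormedAddCommGroup E'] [NormedSpace ℝ E']

lemma fderiv_eq_zero_off {f : E → E'} {K : Set E} (hK : IsClosed K) (h0 : ∀ p ∉ K, f p = 0)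
    {p : E} (hp : p ∉ K) : fderiv ℝ f p = 0 := by
  have h1 : f =ᶠ[𝓝 p] fun _ => 0 := by
    filter_upwards [hK.isOpen_compl.mem_nhds hp] with q hq
    exact h0 q hq
  rw [h1.fderiv_eq]
  exact fderiv_const_apply 0

lemma exists_bound_fderiv [CompactSpace T] {F : T → E → E'} (hF : CF F) {K : Set E}
    (hK : IsCompact K) (h0 : ∀ t, ∀ p ∉ K, F t p = 0) :
    ∃ M : ℝ, 0 ≤ M ∧ ∀ t p, ‖fderiv ℝ (F t) p‖ ≤ M := by
  obtain ⟨C, hC⟩ := (isCompact_univ.prod hK).exists_bound_of_continuousOn
    (hF.fderiv.continuous).continuousOn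
  refine ⟨max C 0, le_max_right _ _, fun t p => ?_⟩
  by_cases hp : p ∈ K
  · exact (hC (t, p) ⟨mem_univ _, hp⟩).trans (le_max_left _ _)
  · rw [fderiv_eq_zero_off hK.isClosed (h0 t) hp, norm_zero]
    exact le_max_right _ _

end bound

/-- The data describing a family of symplectic maps in mixed coordinates. -/
structure Mixed {T : Type} [TopologicalSpace T] (K : Set (Phase (n + 1)))
    (a b : T → Phase (n + 1) → ℝ) (c : T → Phase (n + 1) → Phase n) : Prop where
  ha : CF a
  hb : CF b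
  hc : CF c
  ha0 : ∀ t, ∀ p ∉ K, a t p = 0
  hb0 : ∀ t, ∀ p ∉ K, b t p = 0
  hc0 : ∀ t, ∀ p ∉ K, c t p = 0
  pos : ∀ t p, 0 < 1 + fderiv ℝ (a t) p ex
  eqn : ∀ t p u v, xL u * fderiv ℝ (b t) p v - xL v * fderiv ℝ (b t) p u +
    kap (fderiv ℝ (c t) p) u v = fderiv ℝ (a t) p u * yL v - fderiv ℝ (a t) p v * yL u

/-- The mixed coordinates of a family of symplectic maps with positive `∂(x_0 ∘ φ)/∂x_0`. -/
theorem exists_mixed {T : Type} [TopologicalSpace T] {F : T → Phase (n + 1) → Phase (n + 1)}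
    (hF : CF F) {K : Set (Phase (n + 1))} (hK : IsCompact K) (hFK : ∀ t, ∀ x ∉ K, F t x = x)
    (hsymp : ∀ t x u v, omegaStd (fderiv ℝ (F t) x u) (fderiv ℝ (F t) x v) = omegaStd u v)
    (hpos : ∀ t x, 0 < xL (fderiv ℝ (F t) x ex)) :
    ∃ (a b : T → Phase (n + 1) → ℝ) (c : T → Phase (n + 1) → Phase n), Mixed K a b c ∧
      (∀ t p, F t (p + a t p • ex) = p + b t p • ey + eL (c t p)) ∧
      (∀ t p, F t p = p → a t p = 0 ∧ b t p = 0 ∧ c t p = 0) ∧
      (∀ t p, (p + (xL (F t p) - xL p) • ex) + a t (p + (xL (F t p) - xL p) • ex) • ex = p) := by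
  set m : T → Phase (n + 1) → Phase (n + 1) := fun t p => p + (xL (F t p) - xL p) • ex with hm
  have hidCF : CF (fun (_ : T) (p : Phase (n + 1)) => p) := CF.const contDiff_id
  have hmCF : CF m := by
    apply hidCF.add
    exact ((hF.clm xL).sub (hidCF.clm xL)).smul (CF.const contDiff_const)
  have hmK : ∀ t, ∀ x ∉ K, m t x = x := by
    intro t x hx
    simp only [hm, hFK t x hx, sub_self, zero_smul, add_zero]
  have hmd : ∀ t p v, fderiv ℝ (m t) p v = v + (xL (fderiv ℝ (F t) p v) - xL v) • ex := by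
    intro t p v
    have h1 : HasFDerivAt (fun p => xL (F t p) - xL p) (xL.comp (fderiv ℝ (F t) p) - xL) p :=
      (xL.hasFDerivAt.comp p (hF.differentiable t p).hasFDerivAt).sub xL.hasFDerivAt
    have h2 : HasFDerivAt (m t) (ContinuousLinearMap.id ℝ _ +
        (xL.comp (fderiv ℝ (F t) p) - xL).smulRight ex) p :=
      (hasFDerivAt_id p).add (h1.smul_const ex)
    rw [h2.fderiv]
    simp
  have hminj : ∀ t p, Injective (fderiv ℝ (m t) p) := by
    intro t p
    rw [injective_iff_map_eq_zero]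
    intro v hv
    rw [hmd] at hv
    set r : ℝ := -(xL (fderiv ℝ (F t) p v) - xL v) with hr
    have h1 : v = r • ex := by
      rw [hr, neg_smul]
      exact eq_neg_of_add_eq_zero_left hv
    have h2 : r * xL (fderiv ℝ (F t) p ex) = 0 := by
      have h3 : xL (fderiv ℝ (F t) p v) = r * xL (fderiv ℝ (F t) p ex) := by
        rw [h1, map_smul, map_smul, smul_eq_mul]
      have h4 : xL v = r := by
        conv_lhs => rw [h1]
        rw [map_smul, xL_ex, smul_eq_mul, mul_one]
      rw [← h3]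
      linarith
    have h5 : r = 0 := by
      rcases mul_eq_zero.1 h2 with h | h
      · exact h
      · exact absurd h (hpos t p).ne'
    rw [h1, h5, zero_smul]
  obtain ⟨q, hq, hmq, hqm, hqK⟩ := exists_CF_inverse hmCF hK hmK hminj
  set a : T → Phase (n + 1) → ℝ := fun t p => xL (q t p) - xL p with ha
  set b : T → Phase (n + 1) → ℝ := fun t p => yL (F t (q t p)) - yL p with hb
  set c : T → Phase (n + 1) → Phase n := fun t p => wL (F t (q t p)) - wL p with hc
  have hFq : CF (fun t p => F t (q t p)) := hF.comp hq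
  have haCF : CF a := (hq.clm xL).sub (hidCF.clm xL)
  have hbCF : CF b := (hFq.clm yL).sub (hidCF.clm yL)
  have hcCF : CF c := (hFq.clm wL).sub (hidCF.clm wL)
  have hmq' : ∀ t p, q t p + (xL (F t (q t p)) - xL (q t p)) • ex = p := hmq
  have hxF : ∀ t p, xL (F t (q t p)) = xL p := by
    intro t p
    have h1 := congrArg xL (hmq' t p)
    rw [map_add, map_smul, xL_ex, smul_eq_mul, mul_one] at h1
    linarith
  have hqa : ∀ t p, q t p = p + a t p • ex := by
    intro t p
    have h1 := hmq' t p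
    rw [hxF] at h1
    rw [← eq_sub_iff_add_eq] at h1
    rw [h1]
    simp only [ha]
    rw [sub_eq_add_neg, ← neg_smul, neg_sub]
  have hFN : ∀ t p, F t (q t p) = p + b t p • ey + eL (c t p) := by
    intro t p
    apply ext_split
    · rw [hxF]
      simp
    · simp [hb]
    · simp [hc]
  have hqd : ∀ t p u, fderiv ℝ (q t) p u = u + fderiv ℝ (a t) p u • ex := by
    intro t p u
    have e1 : q t = fun p => p + a t p • ex := funext fun p => hqa t p
    have h2 : HasFDerivAt (fun p => p + a t p • ex) (ContinuousLinearMap.id ℝ _ +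
        (fderiv ℝ (a t) p).smulRight ex) p :=
      (hasFDerivAt_id p).add ((haCF.differentiable t p).hasFDerivAt.smul_const ex)
    rw [e1, h2.fderiv]
    simp
  have hNd : ∀ t p u, fderiv ℝ (F t) (q t p) (fderiv ℝ (q t) p u) =
      u + fderiv ℝ (b t) p u • ey + eL (fderiv ℝ (c t) p u) := by
    intro t p u
    have h1 : fderiv ℝ (fun p => F t (q t p)) p = (fderiv ℝ (F t) (q t p)).comp
        (fderiv ℝ (q t) p) := fderiv_comp p (hF.differentiable t _) (hq.differentiable t p)
    have e1 : (fun p => F t (q t p)) = fun p => p + b t p • ey + eL (c t p) :=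
      funext fun p => hFN t p
    have h2 : HasFDerivAt (fun p => p + b t p • ey + eL (c t p)) (ContinuousLinearMap.id ℝ _ +
        (fderiv ℝ (b t) p).smulRight ey + eL.comp (fderiv ℝ (c t) p)) p :=
      ((hasFDerivAt_id p).add ((hbCF.differentiable t p).hasFDerivAt.smul_const ey)).add
        (eL.hasFDerivAt.comp p (hcCF.differentiable t p).hasFDerivAt)
    rw [← ContinuousLinearMap.comp_apply, ← h1, e1, h2.fderiv]
    simp
  refine ⟨a, b, c, ⟨haCF, hbCF, hcCF, ?_, ?_, ?_, ?_, ?_⟩, ?_, ?_, fun t p => by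
    rw [← hqa]; exact hqm t p⟩
  · intro t p hp
    simp only [ha, hqK t p hp, sub_self]
  · intro t p hp
    simp only [hb, hqK t p hp, hFK t p hp, sub_self]
  · intro t p hp
    simp only [hc, hqK t p hp, hFK t p hp, sub_self]
  · intro t p
    -- `m' (q' ex) = ex`
    have h1 : fderiv ℝ (m t) (q t p) (fderiv ℝ (q t) p ex) = ex := by
      have h2 : (fderiv ℝ (m t) (q t p)).comp (fderiv ℝ (q t) p) = ContinuousLinearMap.id ℝ _ := by
        rw [← fderiv_comp p (hmCF.differentiable t _) (hq.differentiable t p)]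
        have : (m t ∘ q t) = id := funext fun y => hmq t y
        rw [this, fderiv_id]
      simpa using congrArg (fun L => L ex) h2
    rw [hmd, hqd] at h1
    have h3 := congrArg xL h1
    have h4 : (ex : Phase (n + 1)) + fderiv ℝ (a t) p ex • ex = (1 + fderiv ℝ (a t) p ex) • ex := by
      rw [add_smul, one_smul]
    rw [h4] at h3
    simp only [map_add, map_smul, xL_ex, smul_eq_mul, mul_one] at h3
    have h5 : (1 + fderiv ℝ (a t) p ex) * xL (fderiv ℝ (F t) (q t p) ex) = 1 := by linarith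
    by_contra hneg
    have h6 : (1 + fderiv ℝ (a t) p ex) * xL (fderiv ℝ (F t) (q t p) ex) ≤ 0 :=
      mul_nonpos_of_nonpos_of_nonneg (not_lt.1 hneg) (hpos t _).le
    linarith
  · intro t p u v
    have h1 := hsymp t (q t p) (fderiv ℝ (q t) p u) (fderiv ℝ (q t) p v)
    rw [hNd, hNd, hqd, hqd, omega_split, omega_split (u + _)] at h1
    simp only [map_add, map_smul, xL_ex, xL_ey, yL_ex, yL_ey, xL_eL, yL_eL, wL_ex, wL_ey, wL_eL,
      smul_eq_mul, mul_one, mul_zero, add_zero, smul_zero] at h1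
    rw [kap]
    linear_combination h1
  · intro t p
    rw [← hqa, hFN]
  · intro t p ht
    have h3 : q t p = p := by
      have h1 : m t p = p := by simp only [hm, ht, sub_self, zero_smul, add_zero]
      conv_lhs => rw [← h1]
      exact hqm t p
    refine ⟨?_, ?_, ?_⟩
    · simp only [ha, h3, sub_self]
    · simp only [hb, h3, ht, sub_self]
    · simp only [hc, h3, ht, sub_self]

end Pool.Agent.Helper42
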