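import Mathlib
import Pool.Agent.Helper17.CFInt
import Pool.Agent.Helper42.Susp.Mixed

set_option maxSynthPendingDepth 3

open scoped ContDiff Topology Convolution
open Set Function Filter MeasureTheory ContinuousLinearMap

namespace Pool.Agent.Helper42

open Pool.Agent.Helper17

variable {n : ℕ}

/-- The pair of the first two coordinates. -/
noncomputable def zL : Phase (n + 1) →L[ℝ] ℝ × ℝ := xL.prod yL

@[simp] lemma zL_eL (w : Phase n) : zL (eL w) = 0 := by
  simp [zL]

lemma zL_apply (p : Phase (n + 1)) : zL p = (xL p, yL p) := rfl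

lemma norm_le_of_zL (p : Phase (n + 1)) : ‖p‖ ≤ 2 * ‖zL p‖ + ‖wL p‖ := by
  have h1 : |xL p| ≤ ‖zL p‖ := norm_fst_le (zL p)
  have h2 : |yL p| ≤ ‖zL p‖ := norm_snd_le (zL p)
  calc ‖p‖ = ‖xL p • ex + yL p • ey + eL (wL p)‖ := by rw [split_eq]
    _ ≤ ‖xL p • (ex : Phase (n + 1))‖ + ‖yL p • (ey : Phase (n + 1))‖ + ‖eL (wL p)‖ :=
        norm_add₃_le
    _ = |xL p| + |yL p| + ‖wL p‖ := by
        rw [norm_smul, norm_smul, norm_ex, norm_ey, norm_eL, mul_one, mul_one, Real.norm_eq_abs,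
          Real.norm_eq_abs]
    _ ≤ _ := by linarith

section

variable {B : Type} [TopologicalSpace B]

/-- Uniform continuity of the fibre derivatives in the base variables. -/
lemma exists_modulus [CompactSpace B] {η : B × (ℝ × ℝ) → Phase n → Phase n} (hη : CF η)
    {KW : Set (Phase n)} (hKW : IsCompact KW) (hηK : ∀ q, ∀ w ∉ KW, η q w = 0) {R : ℝ}
    (hηR : ∀ b z, R < ‖z‖ → ∀ w, η (b, z) w = 0) {ε : ℝ} (hε : 0 < ε) :
    ∃ δ : ℝ, 0 < δ ∧ δ ≤ 1 ∧ ∀ b z z' w, ‖z' - z‖ < δ →
      ‖fderiv ℝ (η (b, z')) w - fderiv ℝ (η (b, z)) w‖ ≤ ε := by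
  have hc := hη.fderiv.continuous
  have hz : ∀ b z, R < ‖z‖ → ∀ w, fderiv ℝ (η (b, z)) w = 0 := by
    intro b z hz w
    have : η (b, z) = fun _ => 0 := funext fun w => hηR b z hz w
    rw [this]
    exact fderiv_const_apply 0
  have key : ∀ᶠ h : ℝ × ℝ in 𝓝 0, ∀ q ∈ ((univ : Set B) ×ˢ
      (Metric.closedBall (0 : ℝ × ℝ) (R + 1) ×ˢ KW)),
      ‖fderiv ℝ (η (q.1, q.2.1 + h)) q.2.2 - fderiv ℝ (η (q.1, q.2.1)) q.2.2‖ < ε := by
    apply (isCompact_univ.prod ((isCompact_closedBall _ _).prod hKW)).eventually_forall_of_forall_eventually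
    intro q _
    have h1 : Continuous (fun p : (ℝ × ℝ) × (B × ((ℝ × ℝ) × Phase n)) =>
        ‖fderiv ℝ (η (p.2.1, p.2.2.1 + p.1)) p.2.2.2 - fderiv ℝ (η (p.2.1, p.2.2.1)) p.2.2.2‖) := by
      apply Continuous.norm
      apply Continuous.sub
      · exact hc.comp (((continuous_snd.fst).prodMk
          ((continuous_snd.snd.fst).add continuous_fst)).prodMk continuous_snd.snd.snd)
      · exact hc.comp (((continuous_snd.fst).prodMk (continuous_snd.snd.fst)).prodMk
          continuous_snd.snd.snd)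
    have h2 := (h1.continuousAt (x := ((0 : ℝ × ℝ), q))).eventually_lt
      (g := fun _ => ε) continuousAt_const (by simpa using hε)
    exact h2
  obtain ⟨δ, hδ, hball⟩ := Metric.eventually_nhds_iff.1 key
  refine ⟨min δ 1, lt_min hδ one_pos, min_le_right _ _, fun b z z' w hzz => ?_⟩
  by_cases hw : w ∈ KW
  · by_cases hzR : ‖z‖ ≤ R + 1
    · have h1 := hball (y := z' - z) (by
        rw [dist_zero_right]
        exact hzz.trans_le (min_le_left _ _)) (b, z, w)
        ⟨mem_univ _, by rw [mem_closedBall_zero_iff]; exact hzR, hw⟩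
      simp only [add_sub_cancel] at h1
      exact h1.le
    · have h1 : R < ‖z‖ := by linarith [not_le.1 hzR]
      have h2 : R < ‖z'‖ := by
        have h3 : ‖z' - z‖ < 1 := hzz.trans_le (min_le_right _ _)
        have h4 : ‖z‖ ≤ ‖z'‖ + ‖z' - z‖ := by
          calc ‖z‖ = ‖z' - (z' - z)‖ := by rw [sub_sub_cancel]
            _ ≤ _ := norm_sub_le _ _
        linarith [not_le.1 hzR]
      rw [hz b z h1, hz b z' h2, sub_zero, norm_zero]
      exact hε.le
  · rw [fderiv_eq_zero_off hKW.isClosed (hηK (b, z)) hw,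
      fderiv_eq_zero_off hKW.isClosed (hηK (b, z')) hw, sub_zero, norm_zero]
    exact hε.le

/-- Mollification of a family of fibre maps in the base variables. -/
theorem exists_mollify [CompactSpace B] {η : B × (ℝ × ℝ) → Phase n → Phase n} (hη : CF η)
    {KW : Set (Phase n)} (hKW : IsCompact KW) (hηK : ∀ q, ∀ w ∉ KW, η q w = 0) {R : ℝ}
    (hηR : ∀ b z, R < ‖z‖ → ∀ w, η (b, z) w = 0) {ε : ℝ} (hε : 0 < ε) :
    ∃ (c : B → Phase (n + 1) → Phase n) (K : Set (Phase (n + 1))), CF c ∧ IsCompact K ∧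
      (∀ b, ∀ p ∉ K, c b p = 0) ∧
      (∀ b p, ‖(fderiv ℝ (c b) p).comp eL - fderiv ℝ (η (b, zL p)) (wL p)‖ ≤ ε) ∧
      (∀ b, (∀ z w, η (b, z) w = 0) → ∀ p, c b p = 0) := by
  obtain ⟨δ, hδ0, hδ1, hδ⟩ := exists_modulus hη hKW hηK hηR hε
  set φ : ContDiffBump (0 : ℝ × ℝ) := ⟨δ / 2, δ, by positivity, by linarith⟩ with hφ
  set ρ : ℝ × ℝ → ℝ := φ.normed volume with hρ
  have hρs : ContDiff ℝ ∞ ρ := φ.contDiff_normed
  set S : Set (ℝ × ℝ) := Metric.closedBall 0 R with hS
  have hSc : IsCompact S := isCompact_closedBall _ _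
  set μ : Measure (ℝ × ℝ) := volume.restrict S with hμ
  have hμf : IsFiniteMeasure μ := ⟨by
    rw [hμ, Measure.restrict_apply_univ]
    exact hSc.measure_lt_top⟩
  have hρ0 : ∀ z : ℝ × ℝ, δ ≤ ‖z‖ → ρ z = 0 := by
    intro z hz
    have h1 : z ∉ Function.support ρ := by
      rw [hρ, φ.support_normed_eq]
      rw [mem_ball_zero_iff]
      exact not_lt.2 hz
    simpa using h1
  set c : B → Phase (n + 1) → Phase n := fun b p =>
    ∫ z in S, ρ (zL p - z) • η (b, z) (wL p) ∂μ with hc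
  have hcCF : CF c := by
    apply CF.setIntegral hSc μ (F := fun (q : B × (ℝ × ℝ)) p => ρ (zL p - q.2) • η q (wL p))
    have h1 : CF (fun (q : B × (ℝ × ℝ)) (p : Phase (n + 1)) => ρ (zL p - q.2)) :=
      CF.comp_smooth (g := ρ) (F := fun (q : B × (ℝ × ℝ)) (p : Phase (n + 1)) => zL p - q.2)
        (fun _ _ => hρs.contDiffAt) ((CF.const zL.contDiff).sub (CF.param continuous_snd))
    exact h1.smul (hη.comp (CF.const wL.contDiff))
  obtain ⟨RW, hRW⟩ := hKW.isBounded.subset_closedBall (0 : Phase n)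
  refine ⟨c, Metric.closedBall 0 (2 * (|R| + 1) + RW), hcCF, isCompact_closedBall _ _, ?_, ?_, ?_⟩
  · intro b p hp
    rw [mem_closedBall_zero_iff, not_le] at hp
    have h1 := norm_le_of_zL p
    by_cases hw : wL p ∈ KW
    · have h2 : ‖wL p‖ ≤ RW := by simpa using hRW hw
      have h3 : |R| + 1 < ‖zL p‖ := by linarith
      have h4 : ∀ z ∈ S, ρ (zL p - z) • η (b, z) (wL p) = 0 := by
        intro z hz
        have h5 : ‖z‖ ≤ R := by simpa [hS] using hz
        have h6 : ‖zL p‖ ≤ ‖zL p - z‖ + ‖z‖ := by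
          calc ‖zL p‖ = ‖(zL p - z) + z‖ := by rw [sub_add_cancel]
            _ ≤ _ := norm_add_le _ _
        rw [hρ0 _ (by linarith [le_abs_self R]), zero_smul]
      simp only [hc]
      rw [setIntegral_congr_fun hSc.measurableSet h4]
      simp
    · simp only [hc, hηK _ _ hw, smul_zero, integral_zero]
  · intro b p
    -- the derivative in the fibre direction
    set g : ℝ × ℝ → (Phase n →L[ℝ] Phase n) := fun z => fderiv ℝ (η (b, z)) (wL p) with hg
    have hgc : Continuous g := hη.fderiv.continuous.comp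
      ((continuous_const.prodMk continuous_id).prodMk continuous_const)
    have hg0 : ∀ z ∉ S, g z = 0 := by
      intro z hz
      have hz' : R < ‖z‖ := by simpa [hS] using hz
      have : η (b, z) = fun _ => 0 := funext fun w => hηR b z hz' w
      simp only [hg, this]
      exact fderiv_const_apply 0
    set F' : Unit × (ℝ × ℝ) → Phase n → Phase n := fun q α =>
      ρ (zL p - q.2) • η (b, q.2) (wL p + α) with hF'
    have hF'CF : CF F' := by
      have h1 : CF (fun (q : Unit × (ℝ × ℝ)) (_ : Phase n) => ρ (zL p - q.2)) :=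
        CF.param (hρs.continuous.comp (continuous_const.sub continuous_snd))
      have h2 : CF (fun (q : Unit × (ℝ × ℝ)) (α : Phase n) => η (b, q.2) α) :=
        hη.base (continuous_const.prodMk continuous_snd)
      exact h1.smul (h2.comp (CF.const (contDiff_const.add contDiff_id)))
    have h1 := hasFDerivAt_setIntegral hSc μ hF'CF.continuous hF'CF.differentiable
      hF'CF.fderiv.continuous () (0 : Phase n)
    have h2 : ∀ z, fderiv ℝ (F' ((), z)) 0 = ρ (zL p - z) • g z := by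
      intro z
      have h3 : HasFDerivAt (fun α : Phase n => η (b, z) (wL p + α))
          ((fderiv ℝ (η (b, z)) (wL p)).comp (ContinuousLinearMap.id ℝ _)) 0 := by
        apply HasFDerivAt.comp
        · rw [add_zero]
          exact (hη.differentiable _ _).hasFDerivAt
        · exact (hasFDerivAt_id _).const_add _
      rw [ContinuousLinearMap.comp_id] at h3
      exact (h3.const_smul (ρ (zL p - z))).fderiv
    have h3 : HasFDerivAt (fun α : Phase n => c b (p + eL α)) ((fderiv ℝ (c b) p).comp eL) 0 := by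
      refine HasFDerivAt.comp (g := c b) (f := fun α : Phase n => p + eL α) 0 ?_
        (eL.hasFDerivAt.const_add p)
      rw [map_zero, add_zero]
      exact (hcCF.differentiable b p).hasFDerivAt
    have h4 : (fun α : Phase n => c b (p + eL α)) = fun α => ∫ z in S, F' ((), z) α ∂μ := by
      ext1 α
      simp only [hc, hF', map_add, zL_eL, wL_eL, add_zero]
    rw [h4] at h3
    have h5 := h3.unique h1
    rw [h5]
    have h6 : (∫ z in S, fderiv ℝ (F' ((), z)) 0 ∂μ) = ∫ z, ρ (zL p - z) • g z := by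
      simp only [h2]
      rw [hμ, Measure.restrict_restrict hSc.measurableSet, inter_self]
      apply setIntegral_eq_integral_of_forall_compl_eq_zero
      intro z hz
      rw [hg0 z hz, smul_zero]
    rw [h6]
    have h7 : (∫ z, ρ (zL p - z) • g z) = (ρ ⋆[lsmul ℝ ℝ, volume] g) (zL p) := by
      rw [convolution_eq_swap]
      rfl
    rw [h7, ← dist_eq_norm]
    apply φ.dist_normed_convolution_le hgc.aestronglyMeasurable
    intro z hz
    rw [dist_eq_norm]
    apply hδ
    rw [Metric.mem_ball, dist_eq_norm] at hz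
    exact hz
  · intro b hb p
    simp only [hc, hb, smul_zero, integral_zero]

end

/-- A linear map whose fibre part is close to a symplectic one has small fibre defect. -/
lemma abs_kap_fibre_le {C : Phase (n + 1) →L[ℝ] Phase n} {A : Phase n →L[ℝ] Phase n} {M ε : ℝ}
    (hA : ∀ α β, omegaStd (α + A α) (β + A β) = omegaStd α β) (hM : ‖A‖ ≤ M)
    (hε : ‖C.comp eL - A‖ ≤ ε) (α β : Phase n) :
    |kap C (eL α) (eL β)| ≤ (2 * (1 + M) * ε + ε ^ 2) * (‖α‖ * ‖β‖) := by
  have hM0 : 0 ≤ M := (norm_nonneg _).trans hM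
  have hε0 : 0 ≤ ε := (norm_nonneg _).trans hε
  set D : Phase n →L[ℝ] Phase n := C.comp eL - A with hD
  have hC : ∀ α, C (eL α) = A α + D α := by
    intro α
    rw [hD]
    simp
  have hDn : ∀ α, ‖D α‖ ≤ ε * ‖α‖ := fun α =>
    (D.le_opNorm α).trans (mul_le_mul_of_nonneg_right hε (norm_nonneg _))
  have hAn : ∀ α, ‖α + A α‖ ≤ (1 + M) * ‖α‖ := by
    intro α
    calc ‖α + A α‖ ≤ ‖α‖ + ‖A α‖ := norm_add_le _ _
      _ ≤ ‖α‖ + M * ‖α‖ := by
          gcongr
          exact (A.le_opNorm α).trans (mul_le_mul_of_nonneg_right hM (norm_nonneg _))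
      _ = _ := by ring
  have e : kap C (eL α) (eL β) = omegaStd (α + A α) (D β) + omegaStd (D α) (β + A β) +
      omegaStd (D α) (D β) := by
    rw [kap, wL_eL, wL_eL, hC, hC]
    have h1 := hA α β
    simp only [omegaStd_add_left, omegaStd_add_right] at h1 ⊢
    linear_combination h1
  rw [e]
  have e1 : |omegaStd (α + A α) (D β)| ≤ ((1 + M) * ‖α‖) * (ε * ‖β‖) :=
    (abs_omegaStd_le _ _).trans (mul_le_mul (hAn α) (hDn β) (norm_nonneg _) (by positivity))
  have e2 : |omegaStd (D α) (β + A β)| ≤ (ε * ‖α‖) * ((1 + M) * ‖β‖) :=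
    (abs_omegaStd_le _ _).trans (mul_le_mul (hDn α) (hAn β) (norm_nonneg _) (by positivity))
  have e3 : |omegaStd (D α) (D β)| ≤ (ε * ‖α‖) * (ε * ‖β‖) :=
    (abs_omegaStd_le _ _).trans (mul_le_mul (hDn α) (hDn β) (norm_nonneg _) (by positivity))
  calc |omegaStd (α + A α) (D β) + omegaStd (D α) (β + A β) + omegaStd (D α) (D β)|
      ≤ |omegaStd (α + A α) (D β)| + |omegaStd (D α) (β + A β)| + |omegaStd (D α) (D β)| :=
        abs_add_three _ _ _
    _ ≤ ((1 + M) * ‖α‖) * (ε * ‖β‖) + (ε * ‖α‖) * ((1 + M) * ‖β‖) + (ε * ‖α‖) * (ε * ‖β‖) := by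
        linarith
    _ = _ := by ring

end Pool.Agent.Helper42
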