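import Mathlib
import Pool.Agent.Helper42.Susp.Mixed

set_option maxSynthPendingDepth 3

open scoped ContDiff Topology
open Set Function Filter

namespace Pool.Agent.Helper42

open Pool.Agent.Helper17

variable {n : ℕ}

/-- The deformed change of coordinates. -/
noncomputable def Qf (θ l : ℝ) (a : Phase (n + 1) → ℝ) (p : Phase (n + 1)) : Phase (n + 1) :=
  p + (θ * (l * a (Dl l p))) • ex

/-- The deformed mixed map. -/
noncomputable def Nf (θ l : ℝ) (b : Phase (n + 1) → ℝ) (c : Phase (n + 1) → Phase n)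
    (p : Phase (n + 1)) : Phase (n + 1) :=
  p + (θ * (l * b (Dl l p))) • ey + eL (c (Dl l p))

lemma hasFDerivAt_scaled {E' : Type} [NormedAddCommGroup E'] [NormedSpace ℝ E']
    {f : Phase (n + 1) → E'} (hf : Differentiable ℝ f) (l : ℝ) (p : Phase (n + 1)) :
    HasFDerivAt (fun p => f (Dl l p)) ((fderiv ℝ f (Dl l p)).comp (Dl l)) p :=
  (hf _).hasFDerivAt.comp p (Dl l).hasFDerivAt

lemma fderiv_Qf {θ l : ℝ} {a : Phase (n + 1) → ℝ} (ha : Differentiable ℝ a)
    (p u : Phase (n + 1)) :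
    fderiv ℝ (Qf θ l a) p u = u + (θ * (l * fderiv ℝ a (Dl l p) (Dl l u))) • ex := by
  have h1 : HasFDerivAt (Qf θ l a) (ContinuousLinearMap.id ℝ _ +
      (θ • (l • ((fderiv ℝ a (Dl l p)).comp (Dl l)))).smulRight ex) p :=
    (hasFDerivAt_id p).add ((((hasFDerivAt_scaled ha l p).const_mul l).const_mul θ).smul_const ex)
  rw [h1.fderiv]
  simp

lemma fderiv_Nf {θ l : ℝ} {b : Phase (n + 1) → ℝ} {c : Phase (n + 1) → Phase n}
    (hb : Differentiable ℝ b) (hc : Differentiable ℝ c) (p u : Phase (n + 1)) :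
    fderiv ℝ (Nf θ l b c) p u = u + (θ * (l * fderiv ℝ b (Dl l p) (Dl l u))) • ey +
      eL (fderiv ℝ c (Dl l p) (Dl l u)) := by
  have h1 : HasFDerivAt (Nf θ l b c) (ContinuousLinearMap.id ℝ _ +
      (θ • (l • ((fderiv ℝ b (Dl l p)).comp (Dl l)))).smulRight ey +
      eL.comp ((fderiv ℝ c (Dl l p)).comp (Dl l))) p :=
    ((hasFDerivAt_id p).add ((((hasFDerivAt_scaled hb l p).const_mul l).const_mul θ).smul_const
      ey)).add (eL.hasFDerivAt.comp p (hasFDerivAt_scaled hc l p))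
  rw [h1.fderiv]
  simp

section CF

variable {T B : Type} [TopologicalSpace T] [TopologicalSpace B] {β : B → T} {θ l : B → ℝ}

lemma CF_Dl (hl : Continuous l) : CF (fun b (p : Phase (n + 1)) => Dl (l b) p) := by
  have h1 : CF (fun (_ : B) (p : Phase (n + 1)) => p) := CF.const contDiff_id
  have h2 : CF (fun (_ : B) (p : Phase (n + 1)) => eL (wL p)) :=
    CF.const (eL.contDiff.comp wL.contDiff)
  have h3 : CF (fun b (_ : Phase (n + 1)) => 1 - l b) := CF.param (continuous_const.sub hl)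
  exact ((CF.param hl).smul h1).add (h3.smul h2)

lemma CF_scaled {E' : Type} [NormedAddCommGroup E'] [NormedSpace ℝ E']
    {f : T → Phase (n + 1) → E'} (hf : CF f) (hβ : Continuous β) (hl : Continuous l) :
    CF (fun b (p : Phase (n + 1)) => f (β b) (Dl (l b) p)) :=
  (hf.base hβ).comp (CF_Dl hl)

lemma CF_Qf {a : T → Phase (n + 1) → ℝ} (ha : CF a) (hβ : Continuous β) (hθ : Continuous θ)
    (hl : Continuous l) : CF (fun b => Qf (θ b) (l b) (a (β b))) := by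
  have h1 : CF (fun (_ : B) (p : Phase (n + 1)) => p) := CF.const contDiff_id
  have h2 : CF (fun b (p : Phase (n + 1)) => θ b * (l b * a (β b) (Dl (l b) p))) :=
    (CF.param hθ).smul ((CF.param hl).smul (CF_scaled ha hβ hl))
  exact h1.add (h2.smul (CF.const contDiff_const))

lemma CF_Nf {b : T → Phase (n + 1) → ℝ} {c : T → Phase (n + 1) → Phase n} (hb : CF b) (hc : CF c)
    (hβ : Continuous β) (hθ : Continuous θ) (hl : Continuous l) :
    CF (fun s => Nf (θ s) (l s) (b (β s)) (c (β s))) := by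
  have h1 : CF (fun (_ : B) (p : Phase (n + 1)) => p) := CF.const contDiff_id
  have h2 : CF (fun s (p : Phase (n + 1)) => θ s * (l s * b (β s) (Dl (l s) p))) :=
    (CF.param hθ).smul ((CF.param hl).smul (CF_scaled hb hβ hl))
  exact (h1.add (h2.smul (CF.const contDiff_const))).add ((CF_scaled hc hβ hl).clm eL)

end CF

/-- Outside a large ball the stretched maps vanish. -/
lemma Dl_not_mem {K : Set (Phase (n + 1))} {R l₀ l : ℝ} (hR : K ⊆ Metric.closedBall 0 R)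
    (h0 : 0 < l₀) (hl : l₀ ≤ l) (hl1 : l ≤ 1) {p : Phase (n + 1)}
    (hp : p ∉ Metric.closedBall (0 : Phase (n + 1)) (R / l₀)) : Dl l p ∉ K := by
  intro h
  apply hp
  have h1 := hR h
  rw [mem_closedBall_zero_iff] at h1 ⊢
  rw [le_div_iff₀ h0]
  have h2 := le_norm_Dl (h0.le.trans hl) hl1 p
  have h3 : l₀ * ‖p‖ ≤ l * ‖p‖ := mul_le_mul_of_nonneg_right hl (norm_nonneg _)
  linarith

/-- The difference of the two forms. -/
lemma form_diff {T : Type} [TopologicalSpace T] {K : Set (Phase (n + 1))}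
    {a b : T → Phase (n + 1) → ℝ} {c : T → Phase (n + 1) → Phase n} (h : Mixed K a b c)
    (t : T) (θ l : ℝ) (p u v : Phase (n + 1)) :
    omegaStd (fderiv ℝ (Nf θ l (b t) (c t)) p u) (fderiv ℝ (Nf θ l (b t) (c t)) p v) =
      omegaStd (fderiv ℝ (Qf θ l (a t)) p u) (fderiv ℝ (Qf θ l (a t)) p v) +
      (1 - θ) * kap (fderiv ℝ (c t) (Dl l p)) (Dl l u) (Dl l v) := by
  rw [fderiv_Nf (h.hb.differentiable t) (h.hc.differentiable t),
    fderiv_Nf (h.hb.differentiable t) (h.hc.differentiable t),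
    fderiv_Qf (h.ha.differentiable t), fderiv_Qf (h.ha.differentiable t), omega_split,
    omega_split (u + _)]
  have h1 := h.eqn t (Dl l p) (Dl l u) (Dl l v)
  have h2 : kap (fderiv ℝ (c t) (Dl l p)) (Dl l u) (Dl l v) =
      omegaStd (wL u + fderiv ℝ (c t) (Dl l p) (Dl l u))
        (wL v + fderiv ℝ (c t) (Dl l p) (Dl l v)) - omegaStd (wL u) (wL v) := by
    rw [kap, wL_Dl, wL_Dl]
  simp only [map_add, map_smul, xL_ex, xL_ey, yL_ex, yL_ey, xL_eL, yL_eL, wL_ex, wL_ey, wL_eL,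
      smul_eq_mul, mul_one, mul_zero, add_zero, smul_zero, xL_Dl, yL_Dl] at h1 ⊢
  linear_combination θ * h1 - h2

lemma form_Q {θ l : ℝ} {a : Phase (n + 1) → ℝ} (ha : Differentiable ℝ a)
    (p u v : Phase (n + 1)) :
    omegaStd (fderiv ℝ (Qf θ l a) p u) (fderiv ℝ (Qf θ l a) p v) = omegaStd u v +
      θ * l * (fderiv ℝ a (Dl l p) (Dl l u) * yL v - fderiv ℝ a (Dl l p) (Dl l v) * yL u) := by
  rw [fderiv_Qf ha, fderiv_Qf ha, omega_split, omega_split u v]
  simp only [map_add, map_smul, xL_ex, yL_ex, wL_ex, smul_eq_mul, mul_one, mul_zero, add_zero,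
    smul_zero]
  ring

/-- Relative admissibility along the stretching. -/
lemma rel_of_theta_one {T : Type} [TopologicalSpace T] {K : Set (Phase (n + 1))}
    {a b : T → Phase (n + 1) → ℝ} {c : T → Phase (n + 1) → Phase n} (h : Mixed K a b c)
    (t : T) {l : ℝ} (h0 : 0 ≤ l) (h1 : l ≤ 1) (p : Phase (n + 1)) (σ : ℝ)
    (V : Phase (n + 1)) (hV : ∀ W, (1 - σ) * omegaStd (fderiv ℝ (Qf 1 l (a t)) p V)
      (fderiv ℝ (Qf 1 l (a t)) p W) + σ * omegaStd (fderiv ℝ (Nf 1 l (b t) (c t)) p V)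
      (fderiv ℝ (Nf 1 l (b t) (c t)) p W) = 0) : V = 0 := by
  have hinj : Injective (fderiv ℝ (Qf 1 l (a t)) p) := by
    rw [injective_iff_map_eq_zero]
    intro v hv
    rw [fderiv_Qf (h.ha.differentiable t)] at hv
    set r : ℝ := -(1 * (l * fderiv ℝ (a t) (Dl l p) (Dl l v))) with hr
    have e1 : v = r • ex := by
      rw [hr, neg_smul]
      exact eq_neg_of_add_eq_zero_left hv
    have e2 : fderiv ℝ (a t) (Dl l p) (Dl l v) = r * (l * fderiv ℝ (a t) (Dl l p) ex) := by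
      rw [e1, map_smul, map_smul, Dl_ex, map_smul, smul_eq_mul, smul_eq_mul]
    have e3 : r * ((1 - l ^ 2) + l ^ 2 * (1 + fderiv ℝ (a t) (Dl l p) ex)) = 0 := by
      rw [e2] at hr
      linear_combination hr
    have e4 : 0 < (1 - l ^ 2) + l ^ 2 * (1 + fderiv ℝ (a t) (Dl l p) ex) := by
      have h2 := h.pos t (Dl l p)
      have h3 : l ^ 2 ≤ 1 := pow_le_one₀ h0 h1
      rcases eq_or_lt_of_le h0 with h4 | h4
      · rw [← h4]
        norm_num
      · have := mul_pos (pow_pos h4 2) h2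
        linarith
    have e5 : r = 0 := by
      rcases mul_eq_zero.1 e3 with h | h
      · exact h
      · exact absurd h e4.ne'
    rw [e1, e5, zero_smul]
  have hsurj : Surjective (fderiv ℝ (Qf 1 l (a t)) p) :=
    LinearMap.surjective_of_injective
      (f := (fderiv ℝ (Qf 1 l (a t)) p : Phase (n + 1) →ₗ[ℝ] Phase (n + 1))) hinj
  apply hinj
  rw [map_zero]
  apply eq_zero_of_omegaStd
  intro z
  obtain ⟨W, rfl⟩ := hsurj z
  have h2 := hV W
  rw [form_diff h t] at h2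
  linear_combination h2

/-- Relative admissibility for small stretching factors. -/
lemma rel_of_small {T : Type} [TopologicalSpace T] {K : Set (Phase (n + 1))}
    {a b : T → Phase (n + 1) → ℝ} {c : T → Phase (n + 1) → Phase n} (h : Mixed K a b c)
    (t : T) {l θ M Ma : ℝ} (h0 : 0 ≤ l) (h1 : l ≤ 1) (hθ : θ ∈ Icc (0 : ℝ) 1)
    (hM : ∀ p, ‖fderiv ℝ (c t) p‖ ≤ M) (hMa : ∀ p, ‖fderiv ℝ (a t) p‖ ≤ Ma)
    (hsmall : 2 * l * Ma + 2 * l * (2 * M + M ^ 2) < 1)
    (p : Phase (n + 1)) (σ : ℝ) (hσ : σ ∈ Icc (0 : ℝ) 1)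
    (V : Phase (n + 1)) (hV : ∀ W, (1 - σ) * omegaStd (fderiv ℝ (Qf θ l (a t)) p V)
      (fderiv ℝ (Qf θ l (a t)) p W) + σ * omegaStd (fderiv ℝ (Nf θ l (b t) (c t)) p V)
      (fderiv ℝ (Nf θ l (b t) (c t)) p W) = 0) : V = 0 := by
  refine eq_zero_of_form_close (Φ := fun V W => (1 - σ) * omegaStd (fderiv ℝ (Qf θ l (a t)) p V)
      (fderiv ℝ (Qf θ l (a t)) p W) + σ * omegaStd (fderiv ℝ (Nf θ l (b t) (c t)) p V)
      (fderiv ℝ (Nf θ l (b t) (c t)) p W)) hsmall (fun W => ?_) hV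
  beta_reduce
  rw [form_diff h t, form_Q (h.ha.differentiable t)]
  have hMa0 : 0 ≤ Ma := (norm_nonneg _).trans (hMa p)
  have hfib : ∀ α β : Phase n, |kap (fderiv ℝ (c t) (Dl l p)) (eL α) (eL β)| ≤
      0 * (‖α‖ * ‖β‖) := by
    intro α β
    have h2 := h.eqn t (Dl l p) (eL α) (eL β)
    simp only [xL_eL, yL_eL, zero_mul, mul_zero, sub_self, zero_add] at h2
    rw [h2, abs_zero, zero_mul]
  have h3 := abs_kap_Dl_le (fderiv ℝ (c t) (Dl l p)) (hM _) le_rfl hfib h0 h1 V W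
  have h4 : ∀ u v : Phase (n + 1), |fderiv ℝ (a t) (Dl l p) (Dl l u) * yL v| ≤
      Ma * (‖u‖ * ‖v‖) := by
    intro u v
    rw [abs_mul, ← mul_assoc]
    refine mul_le_mul ?_ (abs_yL_le v) (abs_nonneg _) (mul_nonneg hMa0 (norm_nonneg _))
    exact ((fderiv ℝ (a t) (Dl l p)).le_opNorm _).trans (mul_le_mul (hMa _) (norm_Dl_le h0 h1 u)
      (norm_nonneg _) hMa0)
  have h5 := h4 V W
  have h6 := h4 W V
  rw [mul_comm ‖W‖ ‖V‖] at h6
  set N := ‖V‖ * ‖W‖ with hN
  set A := fderiv ℝ (a t) (Dl l p) (Dl l V) * yL W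
  set A' := fderiv ℝ (a t) (Dl l p) (Dl l W) * yL V
  set κ := kap (fderiv ℝ (c t) (Dl l p)) (Dl l V) (Dl l W)
  have hN0 : 0 ≤ N := mul_nonneg (norm_nonneg _) (norm_nonneg _)
  have e : (1 - σ) * (omegaStd V W + θ * l * (A - A')) + σ * (omegaStd V W + θ * l * (A - A') +
      (1 - θ) * κ) - omegaStd V W = (θ * l) * (A - A') + (σ * (1 - θ)) * κ := by ring
  rw [e]
  have hθl : |θ * l| ≤ l := by
    rw [abs_of_nonneg (mul_nonneg hθ.1 h0)]
    nlinarith [hθ.2]
  have hσθ : |σ * (1 - θ)| ≤ 1 := by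
    rw [abs_of_nonneg (mul_nonneg hσ.1 (by linarith [hθ.2]))]
    exact mul_le_one₀ hσ.2 (by linarith [hθ.2]) (by linarith [hθ.1])
  have hAA : |A - A'| ≤ 2 * Ma * N := by
    calc |A - A'| ≤ |A| + |A'| := abs_sub _ _
      _ ≤ 2 * Ma * N := by linarith
  calc |(θ * l) * (A - A') + (σ * (1 - θ)) * κ|
      ≤ |(θ * l) * (A - A')| + |(σ * (1 - θ)) * κ| := abs_add_le _ _
    _ = |θ * l| * |A - A'| + |σ * (1 - θ)| * |κ| := by rw [abs_mul, abs_mul (σ * (1 - θ))]
    _ ≤ l * (2 * Ma * N) + 1 * ((0 + 2 * l * (2 * M + M ^ 2)) * N) :=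
        add_le_add (mul_le_mul hθl hAA (abs_nonneg _) h0)
          (mul_le_mul hσθ h3 (abs_nonneg _) zero_le_one)
    _ = (2 * l * Ma + 2 * l * (2 * M + M ^ 2)) * N := by ring

/-- The stretched fibre map. -/
noncomputable def Sl (l : ℝ) (c : Phase (n + 1) → Phase n) (p : Phase (n + 1)) : Phase (n + 1) :=
  p + eL (c (Dl l p))

/-- A family with positive `∂(x_0 ∘ φ)/∂x_0` is deformed to its stretched fibre maps. -/
theorem admHom_stretch {T : Type} [TopologicalSpace T] [CompactSpace T] {T₀ : Set T}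
    {F : T → Phase (n + 1) → Phase (n + 1)} {K : Set (Phase (n + 1))} (hK : IsCompact K)
    {a b : T → Phase (n + 1) → ℝ} {c : T → Phase (n + 1) → Phase n} (h : Mixed K a b c)
    (hF : ∀ t p, F t (p + a t p • ex) = p + b t p • ey + eL (c t p))
    (hT : ∀ t ∈ T₀, ∀ p, a t p = 0 ∧ b t p = 0 ∧ c t p = 0) :
    ∃ l₀ : ℝ, 0 < l₀ ∧ l₀ ≤ 1 ∧ ∀ l, 0 < l → l ≤ l₀ → AdmHom T₀ F (fun t p => Sl l (c t) p) := by
  obtain ⟨M, hM0, hM⟩ := exists_bound_fderiv h.hc hK h.hc0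
  obtain ⟨Ma, hMa0, hMa⟩ := exists_bound_fderiv h.ha hK h.ha0
  obtain ⟨R, hR⟩ := hK.isBounded.subset_closedBall (0 : Phase (n + 1))
  set D : ℝ := 2 * Ma + 2 * (2 * M + M ^ 2) + 1 with hD
  have hD1 : 1 ≤ D := by
    have : 0 ≤ 2 * Ma + 2 * (2 * M + M ^ 2) := by positivity
    linarith
  refine ⟨1 / D, by positivity, by rw [div_le_one (by linarith)]; exact hD1, fun l hl0 hl => ?_⟩
  have hl1 : l ≤ 1 := hl.trans (by rw [div_le_one (by linarith)]; exact hD1)
  have hsmall : 2 * l * Ma + 2 * l * (2 * M + M ^ 2) < 1 := by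
    rw [le_div_iff₀ (by linarith)] at hl
    have : l * D = 2 * l * Ma + 2 * l * (2 * M + M ^ 2) + l := by rw [hD]; ring
    linarith
  set K' : Set (Phase (n + 1)) := Metric.closedBall 0 (R / l) with hK'
  have hK'c : IsCompact K' := isCompact_closedBall _ _
  -- the general quotient
  have key : ∀ θ lam : T × Icc (0 : ℝ) 1 → ℝ, Continuous θ → Continuous lam →
      (∀ q, l ≤ lam q ∧ lam q ≤ 1) →
      (∀ q, θ q ∈ Icc (0 : ℝ) 1 ∧ (θ q = 1 ∨ lam q = l)) →
      ∃ G : T × Icc (0 : ℝ) 1 → Phase (n + 1) → Phase (n + 1), CF G ∧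
        (∀ q, ∀ x ∉ K', G q x = x) ∧ (∀ q x, Admissible (fderiv ℝ (G q) x)) ∧
        (∀ q x, G q (Qf (θ q) (lam q) (a q.1) x) = Nf (θ q) (lam q) (b q.1) (c q.1) x) ∧
        (∀ q, Surjective (Qf (θ q) (lam q) (a q.1))) := by
    intro θ lam hθc hlamc hlam hθ
    apply exists_quotient (Q := fun q => Qf (θ q) (lam q) (a q.1))
      (N := fun q => Nf (θ q) (lam q) (b q.1) (c q.1)) (CF_Qf h.ha continuous_fst hθc hlamc)
      (CF_Nf h.hb h.hc continuous_fst hθc hlamc) hK'c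
    · intro q x hx
      have h1 := Dl_not_mem hR hl0 (hlam q).1 (hlam q).2 hx
      simp only [Qf, h.ha0 q.1 _ h1, mul_zero, zero_smul, add_zero]
    · intro q x hx
      have h1 := Dl_not_mem hR hl0 (hlam q).1 (hlam q).2 hx
      simp only [Nf, h.hb0 q.1 _ h1, h.hc0 q.1 _ h1, mul_zero, zero_smul, add_zero, map_zero]
    · intro q x σ hσ V hV
      rcases (hθ q).2 with h1 | h1
      · rw [h1] at hV
        exact rel_of_theta_one h q.1 (hl0.le.trans (hlam q).1) (hlam q).2 x σ V hV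
      · rw [h1] at hV
        exact rel_of_small h q.1 hl0.le hl1 (hθ q).1 (hM q.1) (hMa q.1) hsmall x σ hσ V hV
  have hid : ∀ (θ lam : ℝ) t, t ∈ T₀ → ∀ x, Qf θ lam (a t) x = x ∧ Nf θ lam (b t) (c t) x = x := by
    intro θ lam t ht x
    obtain ⟨h1, h2, h3⟩ := hT t ht (Dl lam x)
    constructor
    · simp only [Qf, h1, mul_zero, zero_smul, add_zero]
    · simp only [Nf, h2, h3, mul_zero, zero_smul, add_zero, map_zero]
  obtain ⟨GA, hGA, hGAK, hGAadm, hGAeq, hGAs⟩ := key (fun _ => 1)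
    (fun q => 1 - (q.2 : ℝ) * (1 - l)) continuous_const
    (continuous_const.sub ((continuous_subtype_val.comp continuous_snd).mul continuous_const))
    (fun q => ⟨by nlinarith [q.2.2.1, q.2.2.2], by nlinarith [q.2.2.1, q.2.2.2]⟩)
    (fun q => ⟨⟨zero_le_one, le_rfl⟩, Or.inl rfl⟩)
  obtain ⟨GB, hGB, hGBK, hGBadm, hGBeq, hGBs⟩ := key (fun q => 1 - (q.2 : ℝ))
    (fun _ => l) (continuous_const.sub (continuous_subtype_val.comp continuous_snd))
    continuous_const (fun q => ⟨le_rfl, hl1⟩)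
    (fun q => ⟨⟨by linarith [q.2.2.2], by linarith [q.2.2.1]⟩, Or.inr rfl⟩)
  have hA : AdmHom T₀ F (fun t x => GA (t, ⟨1, right_mem_Icc.2 zero_le_one⟩) x) := by
    refine ⟨GA, hGA, ⟨K', hK'c, hGAK⟩, hGAadm, ?_, fun t x => rfl, ?_⟩
    · intro t x
      obtain ⟨z, rfl⟩ := hGAs (t, ⟨0, left_mem_Icc.2 zero_le_one⟩) x
      rw [hGAeq]
      simp only [Qf, Nf, zero_mul, sub_zero, one_mul, Dl_one, hF]
    · intro t ht s x
      have h1 := hGAeq (t, s) x
      rw [(hid _ _ t ht x).1, (hid _ _ t ht x).2] at h1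
      exact h1
  have hB : AdmHom T₀ (fun t x => GA (t, ⟨1, right_mem_Icc.2 zero_le_one⟩) x)
      (fun t p => Sl l (c t) p) := by
    refine ⟨GB, hGB, ⟨K', hK'c, hGBK⟩, hGBadm, ?_, ?_, ?_⟩
    · intro t x
      obtain ⟨z, rfl⟩ := hGBs (t, ⟨0, left_mem_Icc.2 zero_le_one⟩) x
      rw [hGBeq]
      have h2 := hGAeq (t, ⟨1, right_mem_Icc.2 zero_le_one⟩) z
      simp only [sub_zero, one_mul, sub_sub_cancel] at h2 ⊢
      exact h2.symm
    · intro t x
      have h2 := hGBeq (t, ⟨1, right_mem_Icc.2 zero_le_one⟩) x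
      simp only [Qf, Nf, sub_self, zero_mul, zero_smul, add_zero] at h2
      exact h2
    · intro t ht s x
      have h1 := hGBeq (t, s) x
      rw [(hid _ _ t ht x).1, (hid _ _ t ht x).2] at h1
      exact h1
  exact hA.trans hB

/-- Homotopies of almost symplectic fibre maps give admissible deformations of the stretched
maps. -/
theorem admHom_fibre {T : Type} [TopologicalSpace T] [CompactSpace T] {T₀ : Set T}
    {K : Set (Phase (n + 1))} (hK : IsCompact K)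
    {c : T × Icc (0 : ℝ) 1 → Phase (n + 1) → Phase n} (hc : CF c)
    (hc0 : ∀ q, ∀ p ∉ K, c q p = 0) {θ : ℝ} (hθ0 : 0 ≤ θ) (hθ : θ < 1)
    (hfib : ∀ q p (α β : Phase n),
      |kap (fderiv ℝ (c q) p) (eL α) (eL β)| ≤ θ * (‖α‖ * ‖β‖))
    (hT : ∀ t ∈ T₀, ∀ s p, c (t, s) p = 0) :
    ∃ l₀ : ℝ, 0 < l₀ ∧ ∀ l, 0 < l → l ≤ l₀ →
      AdmHom T₀ (fun t p => Sl l (c (t, ⟨0, left_mem_Icc.2 zero_le_one⟩)) p)
        (fun t p => Sl l (c (t, ⟨1, right_mem_Icc.2 zero_le_one⟩)) p) := by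
  obtain ⟨M, hM0, hM⟩ := exists_bound_fderiv hc hK hc0
  obtain ⟨R, hR⟩ := hK.isBounded.subset_closedBall (0 : Phase (n + 1))
  set D : ℝ := 2 * (2 * M + M ^ 2) + 1 with hD
  have hD1 : 1 ≤ D := by
    have : 0 ≤ 2 * (2 * M + M ^ 2) := by positivity
    linarith
  refine ⟨(1 - θ) / (2 * D), by apply div_pos <;> linarith, fun l hl0 hl => ?_⟩
  have h2D : l * (2 * D) ≤ 1 - θ := (le_div_iff₀ (by linarith)).1 hl
  have hl1 : l ≤ 1 := by nlinarith
  have hsmall : θ + 2 * l * (2 * M + M ^ 2) < 1 := by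
    have : l * (2 * D) = 2 * (2 * l * (2 * M + M ^ 2)) + 2 * l := by rw [hD]; ring
    have h3 : 0 ≤ 2 * l * (2 * M + M ^ 2) := by positivity
    nlinarith
  have hCF : CF (fun (q : T × Icc (0 : ℝ) 1) p => Sl l (c q) p) := by
    have h1 : CF (fun (_ : T × Icc (0 : ℝ) 1) (p : Phase (n + 1)) => p) := CF.const contDiff_id
    exact h1.add ((CF_scaled hc continuous_id (l := fun _ => l) continuous_const).clm eL)
  refine ⟨fun q p => Sl l (c q) p, hCF, ⟨Metric.closedBall 0 (R / l), isCompact_closedBall _ _,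
    ?_⟩, ?_, fun t x => rfl, fun t x => rfl, ?_⟩
  · intro q p hp
    have h1 := Dl_not_mem hR hl0 le_rfl hl1 hp
    simp only [Sl, hc0 q _ h1, map_zero, add_zero]
  · intro q p σ hσ V hV
    have hd : ∀ u, fderiv ℝ (fun p => Sl l (c q) p) p u = u +
        eL (fderiv ℝ (c q) (Dl l p) (Dl l u)) := by
      intro u
      have h1 : HasFDerivAt (fun p => Sl l (c q) p) (ContinuousLinearMap.id ℝ _ +
          eL.comp ((fderiv ℝ (c q) (Dl l p)).comp (Dl l))) p :=
        (hasFDerivAt_id p).add (eL.hasFDerivAt.comp p (hasFDerivAt_scaled (hc.differentiable q) l p))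
      rw [h1.fderiv]
      simp
    refine eq_zero_of_form_close (Φ := fun V W => (1 - σ) * omegaStd V W + σ *
      omegaStd (fderiv ℝ (fun p => Sl l (c q) p) p V) (fderiv ℝ (fun p => Sl l (c q) p) p W))
      hsmall (fun W => ?_) hV
    beta_reduce
    have e : (1 - σ) * omegaStd V W + σ *
        omegaStd (fderiv ℝ (fun p => Sl l (c q) p) p V) (fderiv ℝ (fun p => Sl l (c q) p) p W) -
        omegaStd V W = σ * kap (fderiv ℝ (c q) (Dl l p)) (Dl l V) (Dl l W) := by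
      rw [hd, hd, omega_split, omega_split (V + _)]
      rw [kap, wL_Dl, wL_Dl]
      simp only [map_add, xL_eL, yL_eL, wL_eL, add_zero]
      ring
    rw [e, abs_mul, abs_of_nonneg hσ.1]
    have h3 := abs_kap_Dl_le (fderiv ℝ (c q) (Dl l p)) (hM _ _) hθ0 (hfib q _) hl0.le hl1 V W
    calc σ * |kap (fderiv ℝ (c q) (Dl l p)) (Dl l V) (Dl l W)|
        ≤ 1 * |kap (fderiv ℝ (c q) (Dl l p)) (Dl l V) (Dl l W)| :=
          mul_le_mul_of_nonneg_right hσ.2 (abs_nonneg _)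
      _ ≤ _ := by rw [one_mul]; exact h3
  · intro t ht s p
    simp only [Sl, hT t ht, map_zero, add_zero]

end Pool.Agent.Helper42
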