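import Mathlib
import Pool.Agent.Helper42.Susp.Stretch
import Pool.Agent.Helper42.Susp.Mollify

set_option maxSynthPendingDepth 3

open scoped ContDiff Topology unitInterval
open Set Function Filter

namespace Pool.Agent.Helper42

open Pool.Agent.Helper17

variable {n : ℕ}

/-- The boundary of the unit square. -/
def sqBd : Set (unitInterval × unitInterval) := {z | z.1 = 0 ∨ z.1 = 1 ∨ z.2 = 0 ∨ z.2 = 1}

/-- `h` is the reduction of the family `f` with respect to the square `[-R,R]^2`. -/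
structure IsRed {T : Type} (R : ℝ) (f : T → SympCt (n + 1))
    (h : T × (unitInterval × unitInterval) → SympCt n) : Prop where
  pos : 0 < R
  supp : ∀ t p, (R ≤ |xL p| ∨ R ≤ |yL p|) → (f t : Equiv.Perm (Phase (n + 1))) p = p
  red : ∀ t (z : unitInterval × unitInterval) p,
    xL ((f t : Equiv.Perm (Phase (n + 1))) p) = R * (2 * (z.1 : ℝ) - 1) →
    yL p = R * (2 * (z.2 : ℝ) - 1) →
    wL ((f t : Equiv.Perm (Phase (n + 1))) p) = (h (t, z) : Equiv.Perm (Phase n)) (wL p)

/-- The retraction of the plane onto the unit square. -/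
noncomputable def sq (R : ℝ) (z : ℝ × ℝ) : unitInterval × unitInterval :=
  (projIcc 0 1 zero_le_one ((z.1 / R + 1) / 2), projIcc 0 1 zero_le_one ((z.2 / R + 1) / 2))

lemma continuous_sq (R : ℝ) : Continuous (sq R) := by
  apply Continuous.prodMk
  · exact continuous_projIcc.comp (((continuous_fst.div_const R).add_const 1).div_const 2)
  · exact continuous_projIcc.comp (((continuous_snd.div_const R).add_const 1).div_const 2)

lemma sq_aux {R s : ℝ} (hR : 0 < R) (hs : |s| ≤ R) :
    R * (2 * ((projIcc 0 1 zero_le_one ((s / R + 1) / 2) : Icc (0 : ℝ) 1) : ℝ) - 1) = s := by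
  obtain ⟨h1, h2⟩ := abs_le.1 hs
  have h3 : (s / R + 1) / 2 ∈ Icc (0 : ℝ) 1 := by
    constructor
    · have : -1 ≤ s / R := by rw [le_div_iff₀ hR]; linarith
      linarith
    · have : s / R ≤ 1 := by rw [div_le_one hR]; exact h2
      linarith
  rw [projIcc_of_mem _ h3]
  field_simp
  ring

lemma sq_mem {R : ℝ} (hR : 0 < R) {z : ℝ × ℝ} (hz : R < ‖z‖) : sq R z ∈ sqBd := by
  have key : ∀ s : ℝ, R < |s| → (projIcc 0 1 zero_le_one ((s / R + 1) / 2) : Icc (0 : ℝ) 1) =
      ⟨0, left_mem_Icc.2 zero_le_one⟩ ∨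
      (projIcc 0 1 zero_le_one ((s / R + 1) / 2) : Icc (0 : ℝ) 1) =
      ⟨1, right_mem_Icc.2 zero_le_one⟩ := by
    intro s hs
    rcases lt_abs.1 hs with h | h
    · right
      apply projIcc_of_right_le
      have : 1 ≤ s / R := by rw [le_div_iff₀ hR]; linarith
      linarith
    · left
      apply projIcc_of_le_left
      have : s / R ≤ -1 := by rw [div_le_iff₀ hR]; linarith
      linarith
  have h1 : R < max |z.1| |z.2| := hz
  rcases lt_max_iff.1 h1 with h | h
  · rcases key z.1 h with h2 | h2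
    · exact Or.inl h2
    · exact Or.inr (Or.inl h2)
  · rcases key z.2 h with h2 | h2
    · exact Or.inr (Or.inr (Or.inl h2))
    · exact Or.inr (Or.inr (Or.inr h2))

section

variable {T : Type} {R : ℝ} {f : T → SympCt (n + 1)}
  {h : T × (unitInterval × unitInterval) → SympCt n}

lemma IsRed.eq_one_of_bd (hr : IsRed R f h) (t : T) {z : unitInterval × unitInterval}
    (hz : z ∈ sqBd) : h (t, z) = 1 := by
  apply SympCt.ext'
  intro w
  set p : Phase (n + 1) := pt (R * (2 * (z.1 : ℝ) - 1)) (R * (2 * (z.2 : ℝ) - 1)) w with hp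
  have hR := hr.pos
  have h1 : (f t : Equiv.Perm (Phase (n + 1))) p = p := by
    apply hr.supp
    rw [hp, xL_pt, yL_pt, abs_mul, abs_mul, abs_of_pos hR]
    rcases hz with h | h | h | h
    · left; rw [h]; simp
    · left; rw [h]; norm_num
    · right; rw [h]; simp
    · right; rw [h]; norm_num
  have h2 := hr.red t z p (by rw [h1, hp, xL_pt]) (by rw [hp, yL_pt])
  rw [h1, hp, wL_pt] at h2
  exact h2.symm

lemma IsRed.eq_one_of_eq_one (hr : IsRed R f h) {t : T} (ht : f t = 1)
    (z : unitInterval × unitInterval) : h (t, z) = 1 := by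
  apply SympCt.ext'
  intro w
  set p : Phase (n + 1) := pt (R * (2 * (z.1 : ℝ) - 1)) (R * (2 * (z.2 : ℝ) - 1)) w with hp
  have h1 : (f t : Equiv.Perm (Phase (n + 1))) p = p := by rw [ht]; rfl
  have h2 := hr.red t z p (by rw [h1, hp, xL_pt]) (by rw [hp, yL_pt])
  rw [h1, hp, wL_pt] at h2
  exact h2.symm

end

/-- The fibre part of the mixed coordinates is the reduction. -/
lemma mixed_eq_red {T : Type} [TopologicalSpace T] {R : ℝ} {f : T → SympCt (n + 1)}
    {h : T × (unitInterval × unitInterval) → SympCt n} (hr : IsRed R f h)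
    {a b : T → Phase (n + 1) → ℝ} {c : T → Phase (n + 1) → Phase n}
    (hF : ∀ t p, (f t : Equiv.Perm (Phase (n + 1))) (p + a t p • ex) =
      p + b t p • ey + eL (c t p))
    (hz : ∀ t p, (f t : Equiv.Perm (Phase (n + 1))) p = p → a t p = 0 ∧ b t p = 0 ∧ c t p = 0)
    (t : T) (p : Phase (n + 1)) :
    c t p = (h (t, sq R (zL p)) : Equiv.Perm (Phase n)) (wL p) - wL p := by
  by_cases hp : |xL p| ≤ R ∧ |yL p| ≤ R
  · have h1 := hr.red t (sq R (zL p)) (p + a t p • ex) (by
      rw [hF]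
      simp only [map_add, map_smul, xL_ey, xL_eL, smul_zero, add_zero]
      exact (sq_aux hr.pos hp.1).symm) (by
      simp only [map_add, map_smul, yL_ex, smul_zero, add_zero]
      exact (sq_aux hr.pos hp.2).symm)
    rw [hF] at h1
    simp only [map_add, map_smul, wL_ey, wL_ex, wL_eL, smul_zero, add_zero] at h1
    rw [← h1, add_sub_cancel_left]
  · have h1 : R < ‖zL p‖ := by
      rw [not_and_or, not_le, not_le] at hp
      exact lt_max_iff.2 hp
    have h2 : (f t : Equiv.Perm (Phase (n + 1))) p = p := by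
      apply hr.supp
      rw [not_and_or, not_le, not_le] at hp
      exact hp.imp le_of_lt le_of_lt
    rw [(hz t p h2).2.2, hr.eq_one_of_bd t (sq_mem hr.pos h1)]
    change 0 = wL p - wL p
    rw [sub_self]

/-- The derivative in the fibre direction of a map given fibrewise. -/
lemma fderiv_fibre {c : Phase (n + 1) → Phase n} (hc : Differentiable ℝ c)
    {η : ℝ × ℝ → Phase n → Phase n} (hη : ∀ z, Differentiable ℝ (η z))
    (h : ∀ p, c p = η (zL p) (wL p)) (p : Phase (n + 1)) :
    (fderiv ℝ c p).comp eL = fderiv ℝ (η (zL p)) (wL p) := by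
  have h3 : HasFDerivAt (fun α : Phase n => c (p + eL α)) ((fderiv ℝ c p).comp eL) 0 := by
    refine HasFDerivAt.comp (g := c) (f := fun α : Phase n => p + eL α) 0 ?_
      (eL.hasFDerivAt.const_add p)
    rw [map_zero, add_zero]
    exact (hc p).hasFDerivAt
  have h4 : (fun α : Phase n => c (p + eL α)) = fun α => η (zL p) (wL p + α) := by
    ext1 α
    rw [h, map_add, zL_eL, add_zero, map_add, wL_eL]
  have h5 : HasFDerivAt (fun α : Phase n => η (zL p) (wL p + α))
      ((fderiv ℝ (η (zL p)) (wL p)).comp (ContinuousLinearMap.id ℝ _)) 0 := by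
    refine HasFDerivAt.comp (g := η (zL p)) (f := fun α : Phase n => wL p + α) 0 ?_
      ((hasFDerivAt_id _).const_add _)
    rw [add_zero]
    exact (hη _ _).hasFDerivAt
  rw [h4] at h3
  rw [h3.unique h5, ContinuousLinearMap.comp_id]

/-- **The suspension is well defined**: two compact families of symplectomorphisms with positive
`∂(x_0 ∘ φ)/∂x_0` whose reductions are homotopic are homotopic. -/
theorem homotopicRel_of_reduction {T : Type} [TopologicalSpace T] [CompactSpace T] {T₀ : Set T}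
    {f f' : C(T, SympCt (n + 1))} (hf1 : ∀ t ∈ T₀, f t = 1) (hf1' : ∀ t ∈ T₀, f' t = 1)
    (hpos : ∀ t p, 0 < xL (fderiv ℝ (f t : Equiv.Perm (Phase (n + 1))) p ex))
    (hpos' : ∀ t p, 0 < xL (fderiv ℝ (f' t : Equiv.Perm (Phase (n + 1))) p ex)) {R : ℝ}
    {h h' : C(T × (unitInterval × unitInterval), SympCt n)} (hr : IsRed R f h)
    (hr' : IsRed R f' h') (hh : h.HomotopicRel h' {q | q.1 ∈ T₀ ∨ q.2 ∈ sqBd}) :
    f.HomotopicRel f' T₀ := by
  obtain ⟨hF, K, hK⟩ := CF_of_continuous f.continuous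
  obtain ⟨hF', K', hK'⟩ := CF_of_continuous f'.continuous
  obtain ⟨a, b, c, hmix, hFe, hFz, -⟩ := exists_mixed hF K.isCompact (fun t x hx => hK t x hx)
    (fun t x u v => (f t).2.2.2.1 x u v) hpos
  obtain ⟨a', b', c', hmix', hFe', hFz', -⟩ := exists_mixed hF' K'.isCompact
    (fun t x hx => hK' t x hx) (fun t x u v => (f' t).2.2.2.1 x u v) hpos'
  have hT : ∀ t ∈ T₀, ∀ p, a t p = 0 ∧ b t p = 0 ∧ c t p = 0 := by
    intro t ht p
    apply hFz
    rw [hf1 t ht]
    rfl
  have hT' : ∀ t ∈ T₀, ∀ p, a' t p = 0 ∧ b' t p = 0 ∧ c' t p = 0 := by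
    intro t ht p
    apply hFz'
    rw [hf1' t ht]
    rfl
  have hcr := mixed_eq_red hr hFe hFz
  have hcr' := mixed_eq_red hr' hFe' hFz'
  obtain ⟨H⟩ := hh
  obtain ⟨hH, KW, hKW⟩ := CF_of_continuous
    (f := fun q : unitInterval × (T × (unitInterval × unitInterval)) => H q) H.continuous
  obtain ⟨M, hM0, hM⟩ := exists_bound_fderiv
    (F := fun (q : unitInterval × (T × (unitInterval × unitInterval))) w =>
      (H q : Equiv.Perm (Phase n)) w - w) (hH.sub (CF.const contDiff_id)) KW.isCompact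
    (fun q w hw => by beta_reduce; rw [hKW q w hw, sub_self])
  set η : (T × Icc (0 : ℝ) 1) × (ℝ × ℝ) → Phase n → Phase n := fun q w =>
    (H (q.1.2, (q.1.1, sq R q.2)) : Equiv.Perm (Phase n)) w - w with hη
  have hcont : Continuous (fun q : (T × Icc (0 : ℝ) 1) × (ℝ × ℝ) =>
      ((q.1.2, (q.1.1, sq R q.2)) : unitInterval × (T × (unitInterval × unitInterval)))) :=
    (continuous_fst.snd).prodMk ((continuous_fst.fst).prodMk
      ((continuous_sq R).comp continuous_snd))
  have hηCF : CF η := (hH.base hcont).sub (CF.const contDiff_id)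
  have hηK : ∀ q, ∀ w ∉ (KW : Set (Phase n)), η q w = 0 := by
    intro q w hw
    simp only [hη, hKW _ w hw, sub_self]
  have hH0 : ∀ q, H ((⟨0, left_mem_Icc.2 zero_le_one⟩ : Icc (0 : ℝ) 1), q) = h q :=
    fun q => H.apply_zero q
  have hH1 : ∀ q, H ((⟨1, right_mem_Icc.2 zero_le_one⟩ : Icc (0 : ℝ) 1), q) = h' q :=
    fun q => H.apply_one q
  have hηR : ∀ (b : T × Icc (0 : ℝ) 1) (z : ℝ × ℝ), R < ‖z‖ → ∀ w, η (b, z) w = 0 := by
    intro b z hz w
    have h1 : H ((b.2 : unitInterval), (b.1, sq R z)) = 1 := by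
      rw [H.eq_fst b.2 (Or.inr (sq_mem hr.pos hz)), hr.eq_one_of_bd b.1 (sq_mem hr.pos hz)]
    simp only [hη, h1]
    exact sub_self w
  have hηT : ∀ t ∈ T₀, ∀ (s : Icc (0 : ℝ) 1) z w, η ((t, s), z) w = 0 := by
    intro t ht s z w
    have h1 : H ((s : unitInterval), (t, sq R z)) = 1 := by
      rw [H.eq_fst s (Or.inl ht), hr.eq_one_of_eq_one (hf1 t ht)]
    simp only [hη, h1]
    exact sub_self w
  have hηd : ∀ q w α, fderiv ℝ (η q) w α =
      fderiv ℝ (H (q.1.2, (q.1.1, sq R q.2)) : Equiv.Perm (Phase n)) w α - α := by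
    intro q w α
    have h1 : HasFDerivAt (η q)
        (fderiv ℝ (H (q.1.2, (q.1.1, sq R q.2)) : Equiv.Perm (Phase n)) w -
          ContinuousLinearMap.id ℝ _) w :=
      (SympCt.differentiable _ w).hasFDerivAt.sub (hasFDerivAt_id w)
    rw [h1.fderiv]
    rfl
  have hηs : ∀ q w α β, omegaStd (α + fderiv ℝ (η q) w α) (β + fderiv ℝ (η q) w β) =
      omegaStd α β := by
    intro q w α β
    rw [hηd, hηd, add_sub_cancel, add_sub_cancel]
    exact (H (q.1.2, (q.1.1, sq R q.2))).2.2.2.1 w α β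
  have hηM : ∀ q w, ‖fderiv ℝ (η q) w‖ ≤ M := fun q w => hM _ w
  set ε : ℝ := 1 / (8 * (1 + M)) with hε
  have hεpos : 0 < ε := by positivity
  have hε1 : 2 * (1 + M) * ε = 1 / 4 := by rw [hε]; field_simp; norm_num
  have hε2 : ε ^ 2 ≤ 1 / 4 := by
    have h1 : ε ≤ 1 / 2 := by
      rw [hε]
      apply one_div_le_one_div_of_le <;> linarith
    nlinarith
  obtain ⟨cd, Kd, hcd, hKd, hcd0, hcdε, hcdT⟩ := exists_mollify hηCF KW.isCompact hηK hηR hεpos
  have hcdT' : ∀ t ∈ T₀, ∀ s p, cd (t, s) p = 0 := fun t ht s p =>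
    hcdT (t, s) (fun z w => hηT t ht s z w) p
  have hfibre : ∀ (C : Phase (n + 1) →L[ℝ] Phase n) (q : (T × Icc (0 : ℝ) 1) × (ℝ × ℝ))
      (w : Phase n), ‖C.comp eL - fderiv ℝ (η q) w‖ ≤ ε → ∀ α β,
      |kap C (eL α) (eL β)| ≤ (1 / 2) * (‖α‖ * ‖β‖) := by
    intro C q w hC α β
    refine (abs_kap_fibre_le (hηs q w) (hηM q w) hC α β).trans ?_
    apply mul_le_mul_of_nonneg_right _ (mul_nonneg (norm_nonneg _) (norm_nonneg _))
    linarith
  -- interpolation between the given fibre maps and the mollified ones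
  have interp : ∀ (e : Icc (0 : ℝ) 1) (c : T → Phase (n + 1) → Phase n) (K : Set (Phase (n + 1))),
      CF c → IsCompact K → (∀ t, ∀ p ∉ K, c t p = 0) →
      (∀ t p, c t p = η ((t, e), zL p) (wL p)) → (∀ t ∈ T₀, ∀ p, c t p = 0) →
      ∃ l₀ : ℝ, 0 < l₀ ∧ ∀ l, 0 < l → l ≤ l₀ →
        AdmHom T₀ (fun t p => Sl l (c t) p) (fun t p => Sl l (cd (t, e)) p) := by
    intro e c K hc hK hc0 hce hcT
    set C : T × Icc (0 : ℝ) 1 → Phase (n + 1) → Phase n := fun q p =>
      (1 - (q.2 : ℝ)) • c q.1 p + (q.2 : ℝ) • cd (q.1, e) p with hC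
    have c1 : Continuous (fun q : T × Icc (0 : ℝ) 1 => (1 - (q.2 : ℝ))) :=
      continuous_const.sub (continuous_subtype_val.comp continuous_snd)
    have c2 : Continuous (fun q : T × Icc (0 : ℝ) 1 => (q.2 : ℝ)) :=
      continuous_subtype_val.comp continuous_snd
    have hCCF : CF C := ((CF.param c1).smul (hc.base continuous_fst)).add
      ((CF.param c2).smul (hcd.base (h := fun q : T × Icc (0 : ℝ) 1 => (q.1, e))
        (continuous_fst.prodMk continuous_const)))
    have h1 := admHom_fibre (T₀ := T₀) (hK.union hKd) hCCF (fun q p hp => by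
        simp only [hC]
        rw [hc0 _ p (fun h => hp (Or.inl h)), hcd0 _ p (fun h => hp (Or.inr h))]
        simp) (θ := 1 / 2) (by norm_num) (by norm_num) (fun q p α β => by
        apply hfibre _ ((q.1, e), zL p) (wL p)
        have h2 : fderiv ℝ (C q) p = (1 - (q.2 : ℝ)) • fderiv ℝ (c q.1) p +
            (q.2 : ℝ) • fderiv ℝ (cd (q.1, e)) p := by
          have h3 : HasFDerivAt (C q) ((1 - (q.2 : ℝ)) • fderiv ℝ (c q.1) p +
            (q.2 : ℝ) • fderiv ℝ (cd (q.1, e)) p) p :=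
            ((hc.differentiable q.1 p).hasFDerivAt.const_smul (1 - (q.2 : ℝ))).add
              ((hcd.differentiable (q.1, e) p).hasFDerivAt.const_smul (q.2 : ℝ))
          exact h3.fderiv
        have h4 : (fderiv ℝ (c q.1) p).comp eL = fderiv ℝ (η ((q.1, e), zL p)) (wL p) :=
          fderiv_fibre (hc.differentiable q.1) (η := fun z => η ((q.1, e), z))
            (fun z => hηCF.differentiable _) (hce q.1) p
        have h5 : (fderiv ℝ (C q) p).comp eL - fderiv ℝ (η ((q.1, e), zL p)) (wL p) =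
            (q.2 : ℝ) • ((fderiv ℝ (cd (q.1, e)) p).comp eL -
              fderiv ℝ (η ((q.1, e), zL p)) (wL p)) := by
          rw [h2, ContinuousLinearMap.add_comp, ContinuousLinearMap.smul_comp,
            ContinuousLinearMap.smul_comp, h4, smul_sub, sub_smul, one_smul]
          abel
        rw [h5, norm_smul, Real.norm_eq_abs, abs_of_nonneg q.2.2.1]
        calc (q.2 : ℝ) * ‖(fderiv ℝ (cd (q.1, e)) p).comp eL -
              fderiv ℝ (η ((q.1, e), zL p)) (wL p)‖ ≤ 1 * ε :=
              mul_le_mul q.2.2.2 (hcdε (q.1, e) p) (norm_nonneg _) zero_le_one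
          _ = ε := one_mul _)
      (fun t ht s p => by
        simp only [hC]
        rw [hcT t ht, hcdT' t ht]
        simp)
    obtain ⟨l₀, hl₀, h2⟩ := h1
    refine ⟨l₀, hl₀, fun l hl hl' => ?_⟩
    have h3 := h2 l hl hl'
    have e1 : (fun t p => Sl l (C (t, ⟨0, left_mem_Icc.2 zero_le_one⟩)) p) =
        fun t p => Sl l (c t) p := by
      ext1 t
      ext1 p
      simp only [Sl, hC, sub_zero, one_smul, zero_smul, add_zero]
    have e2 : (fun t p => Sl l (C (t, ⟨1, right_mem_Icc.2 zero_le_one⟩)) p) =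
        fun t p => Sl l (cd (t, e)) p := by
      ext1 t
      ext1 p
      simp only [Sl, hC, sub_self, one_smul, zero_smul, zero_add]
    rw [e1, e2] at h3
    exact h3
  obtain ⟨l₁, hl₁, -, A1⟩ := admHom_stretch (T₀ := T₀) K.isCompact hmix hFe hT
  obtain ⟨l₂, hl₂, -, A2⟩ := admHom_stretch (T₀ := T₀) K'.isCompact hmix' hFe' hT'
  obtain ⟨l₃, hl₃, A3⟩ := interp ⟨0, left_mem_Icc.2 zero_le_one⟩ c K hmix.hc K.isCompact hmix.hc0
    (fun t p => by
      rw [hcr t p]
      simp only [hη]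
      rw [hH0]) (fun t ht p => (hT t ht p).2.2)
  obtain ⟨l₄, hl₄, A4⟩ := interp ⟨1, right_mem_Icc.2 zero_le_one⟩ c' K' hmix'.hc K'.isCompact
    hmix'.hc0 (fun t p => by
      rw [hcr' t p]
      simp only [hη]
      rw [hH1]) (fun t ht p => (hT' t ht p).2.2)
  obtain ⟨l₅, hl₅, A5⟩ := admHom_fibre (T₀ := T₀) hKd hcd hcd0 (θ := 1 / 2) (by norm_num)
    (by norm_num) (fun q p α β => hfibre _ (q, zL p) (wL p) (hcdε q p) α β)
    (fun t ht s p => hcdT' t ht s p)
  set l : ℝ := min l₁ (min l₂ (min l₃ (min l₄ l₅))) with hl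
  have hl0 : 0 < l := lt_min hl₁ (lt_min hl₂ (lt_min hl₃ (lt_min hl₄ hl₅)))
  have B1 := A1 l hl0 (min_le_left _ _)
  have B2 := A2 l hl0 ((min_le_right _ _).trans (min_le_left _ _))
  have B3 := A3 l hl0 ((min_le_right _ _).trans ((min_le_right _ _).trans (min_le_left _ _)))
  have B4 := A4 l hl0 ((min_le_right _ _).trans ((min_le_right _ _).trans
    ((min_le_right _ _).trans (min_le_left _ _))))
  have B5 := A5 l hl0 ((min_le_right _ _).trans ((min_le_right _ _).trans
    ((min_le_right _ _).trans (min_le_right _ _))))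
  exact homotopicRel_of_admHom ((B1.trans B3).trans (B5.trans (B2.trans B4).symm))

end Pool.Agent.Helper42
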