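import Mathlib
import Pool.Agent.Helper42.Susp.Red

set_option maxSynthPendingDepth 3

open scoped ContDiff Topology unitInterval
open Set Function Filter

namespace Pool.Agent.Helper42

open Pool.Agent.Helper17

variable {n : ℕ}

/-- Fibre maps of mixed data are symplectic. -/
lemma Mixed.fibre_symp {T : Type} [TopologicalSpace T] {K : Set (Phase (n + 1))}
    {a b : T → Phase (n + 1) → ℝ} {c : T → Phase (n + 1) → Phase n} (h : Mixed K a b c)
    (t : T) (p : Phase (n + 1)) (α β : Phase n) :
    omegaStd (α + fderiv ℝ (c t) p (eL α)) (β + fderiv ℝ (c t) p (eL β)) = omegaStd α β := by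
  have h2 := h.eqn t p (eL α) (eL β)
  simp only [xL_eL, yL_eL, zero_mul, mul_zero, sub_self, zero_add, kap, wL_eL] at h2
  linarith

lemma hasFDerivAt_pt (s y : ℝ) (w : Phase n) :
    HasFDerivAt (fun w : Phase n => pt s y w) (eL : Phase n →L[ℝ] Phase (n + 1)) w :=
  eL.hasFDerivAt.const_add _

/-- Every compact family with positive `∂(x_0 ∘ φ)/∂x_0` has a reduction. -/
theorem exists_isRed {T : Type} [TopologicalSpace T] [CompactSpace T] (f : C(T, SympCt (n + 1)))
    (hpos : ∀ t p, 0 < xL (fderiv ℝ (f t : Equiv.Perm (Phase (n + 1))) p ex)) :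
    ∃ R₀ : ℝ, 0 < R₀ ∧ ∀ R, R₀ ≤ R →
      ∃ h : C(T × (unitInterval × unitInterval), SympCt n), IsRed R f h := by
  obtain ⟨hF, K, hK⟩ := CF_of_continuous f.continuous
  obtain ⟨a, b, c, hmix, hFe, hFz, hqm⟩ := exists_mixed hF K.isCompact (fun t x hx => hK t x hx)
    (fun t x u v => (f t).2.2.2.1 x u v) hpos
  obtain ⟨RK, hRK⟩ := K.isCompact.isBounded.subset_closedBall (0 : Phase (n + 1))
  refine ⟨|RK| + 1, by positivity, fun R hR => ?_⟩
  set P : T × (unitInterval × unitInterval) → Phase n → Phase (n + 1) := fun q w =>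
    pt (R * (2 * (q.2.1 : ℝ) - 1)) (R * (2 * (q.2.2 : ℝ) - 1)) w with hP
  have hPCF : CF P := by
    have c1 : Continuous (fun q : T × (unitInterval × unitInterval) =>
        (R * (2 * (q.2.1 : ℝ) - 1)) • (ex : Phase (n + 1)) +
          (R * (2 * (q.2.2 : ℝ) - 1)) • (ey : Phase (n + 1))) := by
      apply Continuous.add
      · exact (continuous_const.mul ((continuous_const.mul
          (continuous_subtype_val.comp continuous_snd.fst)).sub continuous_const)).smul
          continuous_const
      · exact (continuous_const.mul ((continuous_const.mul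
          (continuous_subtype_val.comp continuous_snd.snd)).sub continuous_const)).smul
          continuous_const
    exact (CF.param c1).add (CF.const eL.contDiff)
  set ψ : T × (unitInterval × unitInterval) → Phase n → Phase n := fun q w => w + c q.1 (P q w)
    with hψ
  have hψCF : CF ψ := CF.add (CF.const contDiff_id) ((hmix.hc.base continuous_fst).comp hPCF)
  have hψK : ∀ q, ∀ w ∉ Metric.closedBall (0 : Phase n) RK, ψ q w = w := by
    intro q w hw
    have h1 : P q w ∉ (K : Set (Phase (n + 1))) := by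
      intro h
      apply hw
      have h2 := hRK h
      rw [mem_closedBall_zero_iff] at h2 ⊢
      have h3 := norm_wL_le (P q w)
      rw [hP] at h3
      simp only [wL_pt] at h3
      exact h3.trans h2
    simp only [hψ, hmix.hc0 q.1 _ h1, add_zero]
  have hψs : ∀ q w α β, omegaStd (fderiv ℝ (ψ q) w α) (fderiv ℝ (ψ q) w β) = omegaStd α β := by
    intro q w α β
    have h1 : HasFDerivAt (ψ q) (ContinuousLinearMap.id ℝ _ +
        (fderiv ℝ (c q.1) (P q w)).comp eL) w :=
      (hasFDerivAt_id w).add ((hmix.hc.differentiable q.1 _).hasFDerivAt.comp w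
        (hasFDerivAt_pt _ _ w))
    rw [h1.fderiv]
    simp only [add_apply, ContinuousLinearMap.id_apply,
      ContinuousLinearMap.comp_apply]
    exact hmix.fibre_symp q.1 (P q w) α β
  set h : T × (unitInterval × unitInterval) → SympCt n := fun q =>
    mkSymp (ψ q) (hψCF.contDiff q) ⟨_, isCompact_closedBall _ _, hψK q⟩ (hψs q) with hh
  have hhc : Continuous h := continuous_of_CF hψCF ⟨_, isCompact_closedBall _ _⟩ hψK
    (fun q w => rfl)
  have hR0 : RK < R := by linarith [le_abs_self RK]
  refine ⟨⟨h, hhc⟩, ⟨by linarith [abs_nonneg RK], ?_, ?_⟩⟩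
  · intro t p hp
    apply hK
    intro h
    have h2 := hRK h
    rw [mem_closedBall_zero_iff] at h2
    rcases hp with hp | hp
    · linarith [abs_xL_le p]
    · linarith [abs_yL_le p]
  · intro t z p hx hy
    set p' : Phase (n + 1) := p + (xL ((f t : Equiv.Perm (Phase (n + 1))) p) - xL p) • ex with hp'
    have e1 : p' + a t p' • ex = p := hqm t p
    have e2 : P (t, z) (wL p) = p' := by
      apply ext_split
      · simp only [hP, xL_pt, hp', map_add, map_smul, xL_ex, smul_eq_mul, mul_one]
        rw [← hx]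
        ring
      · simp only [hP, yL_pt, hp', map_add, map_smul, yL_ex, smul_eq_mul, mul_zero, add_zero]
        exact hy.symm
      · simp [hP, hp']
    have e3 := hFe t p'
    rw [e1] at e3
    change _ = wL p + c t (P (t, z) (wL p))
    rw [e2, e3]
    simp [hp']

/-- If all families of symplectomorphisms of `ℝ^{2n}` over `T × [0,1]²` which are trivial on the
boundary are null-homotopic, then the families in dimension `2n+2` over `T` with positive
`∂(x_0 ∘ φ)/∂x_0` are null-homotopic. -/
theorem nullhomotopic_of_pos {T : Type} [TopologicalSpace T] [CompactSpace T] {T₀ : Set T}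
    (hG : ∀ h : C(T × (unitInterval × unitInterval), SympCt n),
      (∀ q, (q.1 ∈ T₀ ∨ q.2 ∈ sqBd) → h q = 1) →
      h.HomotopicRel (ContinuousMap.const _ 1) {q | q.1 ∈ T₀ ∨ q.2 ∈ sqBd})
    {f : C(T, SympCt (n + 1))} (hf1 : ∀ t ∈ T₀, f t = 1)
    (hpos : ∀ t p, 0 < xL (fderiv ℝ (f t : Equiv.Perm (Phase (n + 1))) p ex)) :
    f.HomotopicRel (ContinuousMap.const _ 1) T₀ := by
  obtain ⟨R, hR, h1⟩ := exists_isRed f hpos
  obtain ⟨h, hh⟩ := h1 R le_rfl
  have h2 : h.HomotopicRel (ContinuousMap.const _ 1) {q | q.1 ∈ T₀ ∨ q.2 ∈ sqBd} := by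
    apply hG
    rintro ⟨t, z⟩ (ht | hz)
    · exact hh.eq_one_of_eq_one (hf1 t ht) z
    · exact hh.eq_one_of_bd t hz
  refine homotopicRel_of_reduction hf1 (fun t _ => rfl) hpos (fun t p => ?_) hh
    (f' := ContinuousMap.const _ 1) (h' := ContinuousMap.const _ 1) ⟨hR, fun t p _ => rfl, fun t z p _ _ => rfl⟩ h2
  change 0 < xL (fderiv ℝ ((1 : SympCt (n + 1)) : Equiv.Perm (Phase (n + 1))) p ex)
  rw [SympCt.fderiv_one]
  simp

end Pool.Agent.Helper42
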