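import Mathlib
import Pool.Agent.Helper42.Susp.PairTop
import Pool.Agent.Helper42.Susp.RedExists

set_option maxSynthPendingDepth 3

open scoped ContDiff Distributions Topology unitInterval
open Set Function TopologicalSpace Filter Topology

namespace Pool.Agent.Helper42

open Pool.Agent.Helper17
open Pool.Agent.H50.Susp (bracket hamV omegaStd_hamV fderiv_hamV_eq_bracket PosPair eX eY)

variable {n : ℕ}

/-- The Poisson bracket is invariant under symplectic maps. -/
lemma bracket_comp {N : ℕ} {f g : Phase N → ℝ} (hf : Differentiable ℝ f) (hg : Differentiable ℝ g)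
    (φ : SympCt N) (p : Phase N) :
    bracket (fun q => f ((φ : Equiv.Perm (Phase N)) q)) (fun q => g ((φ : Equiv.Perm (Phase N)) q)) p =
      bracket f g ((φ : Equiv.Perm (Phase N)) p) := by
  rw [← fderiv_hamV_eq_bracket, ← fderiv_hamV_eq_bracket]
  set D := fderiv ℝ (φ : Equiv.Perm (Phase N)) p with hD
  have hφ := SympCt.differentiable φ p
  have h1 : fderiv ℝ (fun q => g ((φ : Equiv.Perm (Phase N)) q)) p =
      (fderiv ℝ g ((φ : Equiv.Perm (Phase N)) p)).comp D := fderiv_comp p (hg _) hφ
  have h2 : fderiv ℝ (fun q => f ((φ : Equiv.Perm (Phase N)) q)) p =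
      (fderiv ℝ f ((φ : Equiv.Perm (Phase N)) p)).comp D := fderiv_comp p (hf _) hφ
  have hsurj : ∀ u, ∃ v, D v = u := by
    intro u
    refine ⟨fderiv ℝ ((φ⁻¹ : SympCt N) : Equiv.Perm (Phase N)) ((φ : Equiv.Perm (Phase N)) p) u, ?_⟩
    have h3 := SympCt.fderiv_fderiv_inv φ ((φ : Equiv.Perm (Phase N)) p) u
    rw [SympCt.inv_apply_self] at h3
    exact h3
  have h3 : D (hamV (fun q => f ((φ : Equiv.Perm (Phase N)) q)) p) =
      hamV f ((φ : Equiv.Perm (Phase N)) p) := by
    rw [← sub_eq_zero]
    apply eq_zero_of_omegaStd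
    intro u
    obtain ⟨v, rfl⟩ := hsurj u
    rw [omegaStd_sub_left, φ.2.2.2.1 p, omegaStd_hamV, omegaStd_hamV, h2]
    simp
  rw [h1, ContinuousLinearMap.comp_apply, h3]

/-- Composition of a pair with a symplectomorphism. -/
def PairSp.act (u : PairSp n) (φ : SympCt (n + 1)) : PairSp n :=
  ⟨fun p => u.1 ((φ : Equiv.Perm (Phase (n + 1))) p), u.2.1.comp (SympCt.contDiff φ), by
    obtain ⟨K, hK, h⟩ := u.2.2.1
    obtain ⟨-, -, -, L, hL, h'⟩ := φ.2
    refine ⟨K ∪ L, hK.union hL, fun p hp => ?_⟩
    beta_reduce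
    rw [h' p fun h => hp (Or.inr h), h p fun h => hp (Or.inl h)], fun p => by
    have h1 := bracket_comp (f := fun q => (u.1 q).1) (g := fun q => (u.1 q).2)
      ((contDiff_fst.comp u.2.1).differentiable (by simp))
      ((contDiff_snd.comp u.2.1).differentiable (by simp)) φ p
    have h2 := u.2.2.2 ((φ : Equiv.Perm (Phase (n + 1))) p)
    rw [poisson_eq_bracket, ← h1] at h2
    exact h2⟩

lemma PairSp.act_apply (u : PairSp n) (φ : SympCt (n + 1)) (p : Phase (n + 1)) :
    (u.act φ).1 p = u.1 ((φ : Equiv.Perm (Phase (n + 1))) p) := rfl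

/-- The map `φ ↦ (x_0 ∘ φ, y_0 ∘ φ)`. -/
def pairMap (φ : SympCt (n + 1)) : PairSp n := PairSp.std.act φ

lemma pairMap_apply (φ : SympCt (n + 1)) (p : Phase (n + 1)) :
    (pairMap φ).1 p = stdPair ((φ : Equiv.Perm (Phase (n + 1))) p) := rfl

lemma pairMap_one : pairMap (1 : SympCt (n + 1)) = PairSp.std := rfl

/-- The tautological family over the stages of the direct limit. -/
lemma CF_supp {N : ℕ} (K : Compacts (Phase N)) :
    CF (fun (t : SympSupp N K) x => (t.1 : Equiv.Perm (Phase N)) x) := by
  have h1 : CF (fun (t : SympSupp N K) x => (t.1 : Equiv.Perm (Phase N)) x - x) := by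
    intro k
    apply CFk.of_iteratedFDeriv
    · intro t
      exact (SympCt.contDiff t.1).sub contDiff_id
    · intro i
      have h2 : Continuous (fun t : SympSupp N K => ContDiffMapSupportedIn.structureMapCLM ℝ ⊤ i
          (SympSupp.disp K t)) :=
        (ContDiffMapSupportedIn.structureMapCLM ℝ ⊤ i).continuous.comp
          (SympSupp.isInducing_disp K).continuous
      have h3 : ∀ q : SympSupp N K × Phase N, iteratedFDeriv ℝ i
          (fun x => (q.1.1 : Equiv.Perm (Phase N)) x - x) q.2 =
          (ContDiffMapSupportedIn.structureMapCLM ℝ ⊤ i (SympSupp.disp K q.1)) q.2 := by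
        intro q
        rw [ContDiffMapSupportedIn.structureMapCLM_top_apply]
        rfl
      simp_rw [h3]
      exact Continuous.eval (h2.comp continuous_fst) continuous_snd
  have h2 := h1.add (CF.const (T := SympSupp N K) (contDiff_id (E := Phase N)))
  convert h2 using 3 with t x
  simp

/-- The map `φ ↦ (x_0 ∘ φ, y_0 ∘ φ)` is continuous. -/
lemma continuous_pairMap : Continuous (pairMap : SympCt (n + 1) → PairSp n) := by
  rw [continuous_iSup_dom]
  intro K
  rw [continuous_coinduced_dom]
  apply continuous_pair_of_CF (F := fun (t : SympSupp (n + 1) K) x =>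
    stdPair ((t.1 : Equiv.Perm (Phase (n + 1))) x)) ?_ K ?_ (fun t x => rfl)
  · exact CF.comp_smooth (g := stdPair) (fun _ _ => contDiff_stdPair.contDiffAt) (CF_supp K)
  · intro t x hx
    rw [t.2 x hx]

/-- A family of symplectomorphisms whose pairs of functions are null-homotopic in the space of
pairs is null-homotopic, if the families in dimension `2n` over `T × [0,1]²` are. -/
theorem homotopicRel_one_of_pair {T : Type} [TopologicalSpace T] [CompactSpace T] {T₀ : Set T}
    (hG : ∀ h : C(T × (unitInterval × unitInterval), SympCt n),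
      (∀ q, (q.1 ∈ T₀ ∨ q.2 ∈ sqBd) → h q = 1) →
      h.HomotopicRel (ContinuousMap.const _ 1) {q | q.1 ∈ T₀ ∨ q.2 ∈ sqBd})
    {f : C(T, SympCt (n + 1))}
    (hU : ((⟨pairMap, continuous_pairMap⟩ : C(SympCt (n + 1), PairSp n)).comp f).HomotopicRel
      (ContinuousMap.const _ PairSp.std) T₀) :
    f.HomotopicRel (ContinuousMap.const _ 1) T₀ := by
  obtain ⟨U⟩ := hU.symm
  set V : T × unitInterval → PairSp n := fun q => U (q.2, q.1) with hV
  have hVc : Continuous V := U.continuous.comp (continuous_snd.prodMk continuous_fst)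
  obtain ⟨hCF, K, hK⟩ := CF_of_continuous_pair hVc
  obtain ⟨R, hR⟩ := K.isCompact.isBounded.subset_closedBall (0 : Phase (n + 1))
  have hKR : ∀ t, ∀ p : Phase (n + 1), |R| < ‖p‖ → (V t).1 p = stdPair p := by
    intro t p hp
    apply hK
    intro h
    have h1 := hR h
    rw [mem_closedBall_zero_iff] at h1
    linarith [le_abs_self R]
  have hPP : PosPair (0 : Fin (n + 1)) |R| (fun t p => ((V t).1 p).1)
      (fun t p => ((V t).1 p).2) := by
    refine ⟨hCF.clm (ContinuousLinearMap.fst ℝ ℝ ℝ), hCF.clm (ContinuousLinearMap.snd ℝ ℝ ℝ),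
      fun t p hp => ?_, fun t p hp => ?_, fun t p => ?_⟩
    · beta_reduce
      rw [hKR t p hp]
      rfl
    · beta_reduce
      rw [hKR t p hp]
      rfl
    · rw [fderiv_hamV_eq_bracket]
      exact (V t).2.2.2 p
  obtain ⟨g, hgpos, hg1, hfg⟩ := Pool.Agent.H50.Susp.exists_homotopicRel_pos (0 : Fin (n + 1)) T₀ f
    (fun t p => ((V t).1 p).1) (fun t p => ((V t).1 p).2) (abs_nonneg R) hPP
    (fun t p => by
      have h1 : V (t, 0) = PairSp.std := by
        simp only [hV]
        rw [U.apply_zero]
        rfl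
      rw [h1]
      rfl)
    (fun t p => by
      have h1 : V (t, 1) = pairMap (f t) := by
        simp only [hV]
        rw [U.apply_one]
        rfl
      rw [h1]
      rfl)
    (fun t ht s p => by
      have h1 : V (t, s) = PairSp.std := by
        simp only [hV]
        rw [U.eq_fst s ht]
        rfl
      rw [h1]
      rfl)
  refine hfg.trans (nullhomotopic_of_pos hG hg1 fun t p => ?_)
  have h1 := hgpos t p
  have h2 : fderiv ℝ (fun q => ((g t : Equiv.Perm (Phase (n + 1))) q) (Sum.inl 0)) p =
      xL.comp (fderiv ℝ (g t : Equiv.Perm (Phase (n + 1))) p) :=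
    (xL.hasFDerivAt.comp p (SympCt.differentiable (g t) p).hasFDerivAt).fderiv
  rw [h2] at h1
  exact h1

end Pool.Agent.Helper42
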