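import Mathlib
import Pool.Agent.Helper42.Susp.PairMap

set_option maxSynthPendingDepth 3

open scoped ContDiff Distributions Topology unitInterval
open Set Function TopologicalSpace Filter Topology

namespace Pool.Agent.Helper42

open Pool.Agent.Helper17

variable {n : ℕ}

/-- Products of compact families of symplectomorphisms are continuous. -/
lemma continuous_mul_family {T : Type} [TopologicalSpace T] [CompactSpace T]
    {f g : T → SympCt n} (hf : Continuous f) (hg : Continuous g) :
    Continuous (fun t => f t * g t) := by
  obtain ⟨hF, K, hK⟩ := CF_of_continuous hf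
  obtain ⟨hG, L, hL⟩ := CF_of_continuous hg
  apply continuous_of_CF (hF.comp hG) (K ⊔ L) ?_ (fun t x => rfl)
  intro t x hx
  have h1 : x ∉ K := fun h => hx (Or.inl h)
  have h2 : x ∉ L := fun h => hx (Or.inr h)
  rw [hL t x h2, hK t x h1]

/-- Inverses of compact families of symplectomorphisms are continuous. -/
lemma continuous_inv_family {T : Type} [TopologicalSpace T] [CompactSpace T]
    {f : T → SympCt n} (hf : Continuous f) : Continuous (fun t => (f t)⁻¹) := by
  obtain ⟨hF, K, hK⟩ := CF_of_continuous hf
  have h1 : CF (fun t x => (((f t)⁻¹ : SympCt n) : Equiv.Perm (Phase n)) x) := by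
    apply CF_inverse hF K.isCompact (fun t x hx => hK t x hx)
    · intro t x
      rw [injective_iff_map_eq_zero]
      intro v hv
      have h2 := SympCt.fderiv_inv_fderiv (f t) x v
      rw [hv, map_zero] at h2
      exact h2.symm
    · intro t x
      exact SympCt.apply_inv_self (f t) x
    · intro t x
      exact SympCt.inv_apply_self (f t) x
  apply continuous_of_CF h1 K ?_ (fun t x => rfl)
  intro t x hx
  have h2 := SympCt.inv_apply_self (f t) x
  rwa [hK t x hx] at h2

/-- The action on compact families of pairs is continuous. -/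
lemma continuous_act_family {T : Type} [TopologicalSpace T] [CompactSpace T]
    {u : T → PairSp n} {f : T → SympCt (n + 1)} (hu : Continuous u) (hf : Continuous f) :
    Continuous (fun t => (u t).act (f t)) := by
  obtain ⟨hF, K, hK⟩ := CF_of_continuous_pair hu
  obtain ⟨hG, L, hL⟩ := CF_of_continuous hf
  apply continuous_pair_of_CF (hF.comp hG) (K ⊔ L) ?_ (fun t x => rfl)
  intro t x hx
  have h1 : x ∉ K := fun h => hx (Or.inl h)
  have h2 : x ∉ L := fun h => hx (Or.inr h)
  rw [hL t x h2, hK t x h1]

lemma PairSp.act_mul (u : PairSp n) (φ ψ : SympCt (n + 1)) : u.act (φ * ψ) = (u.act φ).act ψ := rfl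

lemma PairSp.act_one (u : PairSp n) : u.act 1 = u := rfl

/-- The pair map is injective on homotopy classes of families, if it has trivial kernel on
null-homotopy classes. -/
theorem homotopicRel_of_pair {T : Type} [TopologicalSpace T] [CompactSpace T] {T₀ : Set T}
    (hG : ∀ h : C(T × (unitInterval × unitInterval), SympCt n),
      (∀ q, (q.1 ∈ T₀ ∨ q.2 ∈ sqBd) → h q = 1) →
      h.HomotopicRel (ContinuousMap.const _ 1) {q | q.1 ∈ T₀ ∨ q.2 ∈ sqBd})
    {f f' : C(T, SympCt (n + 1))}
    (hU : ((⟨pairMap, continuous_pairMap⟩ : C(SympCt (n + 1), PairSp n)).comp f).HomotopicRel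
      ((⟨pairMap, continuous_pairMap⟩ : C(SympCt (n + 1), PairSp n)).comp f') T₀) :
    f.HomotopicRel f' T₀ := by
  obtain ⟨U⟩ := hU
  set g : C(T, SympCt (n + 1)) := ⟨fun t => f t * (f' t)⁻¹,
    continuous_mul_family f.continuous (continuous_inv_family f'.continuous)⟩ with hg
  have hf'c : Continuous (fun q : unitInterval × T => (f' q.2)⁻¹) :=
    (continuous_inv_family f'.continuous).comp continuous_snd
  have h1 : g.HomotopicRel (ContinuousMap.const _ 1) T₀ := by
    apply homotopicRel_one_of_pair hG
    refine ⟨{ toFun := fun q => (U q).act (f' q.2)⁻¹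
              continuous_toFun := continuous_act_family U.continuous hf'c
              map_zero_left := fun t => ?_
              map_one_left := fun t => ?_
              prop' := fun s t ht => ?_ }⟩
    · rw [U.apply_zero]
      rfl
    · rw [U.apply_one]
      change (PairSp.std.act (f' t)).act (f' t)⁻¹ = PairSp.std
      rw [← PairSp.act_mul, mul_inv_cancel, PairSp.act_one]
    · change (U (s, t)).act (f' t)⁻¹ = PairSp.std.act (f t * (f' t)⁻¹)
      rw [U.eq_fst s ht]
      rfl
  obtain ⟨H⟩ := h1
  refine ⟨{ toFun := fun q => H q * f' q.2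
            continuous_toFun := continuous_mul_family H.continuous
              (f'.continuous.comp continuous_snd)
            map_zero_left := fun t => ?_
            map_one_left := fun t => ?_
            prop' := fun s t ht => ?_ }⟩
  · rw [H.apply_zero]
    change f t * (f' t)⁻¹ * f' t = f t
    rw [inv_mul_cancel_right]
  · rw [H.apply_one]
    exact one_mul _
  · change H (s, t) * f' t = f t
    rw [H.eq_fst s ht]
    change f t * (f' t)⁻¹ * f' t = f t
    rw [inv_mul_cancel_right]

end Pool.Agent.Helper42
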