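import Mathlib
import Pool.Agent.Helper42.Susp.GroupOps

set_option maxSynthPendingDepth 3

open scoped ContDiff Distributions Topology unitInterval
open Set Function TopologicalSpace Filter Topology

namespace Pool.Agent.Helper42

open Pool.Agent.Helper17

variable {n k : ℕ}

/-- Adding two coordinates to a point of the cube. -/
def toCube2 (q : (Fin k → unitInterval) × (unitInterval × unitInterval)) :
    Fin (k + 2) → unitInterval :=
  Fin.snoc (α := fun _ => unitInterval) (Fin.snoc (α := fun _ => unitInterval) q.1 q.2.1) q.2.2

/-- Splitting off the last two coordinates. -/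
def fromCube2 (y : Fin (k + 2) → unitInterval) :
    (Fin k → unitInterval) × (unitInterval × unitInterval) :=
  (fun i => y i.castSucc.castSucc, (y (Fin.last k).castSucc, y (Fin.last (k + 1))))

lemma continuous_toCube2 : Continuous (toCube2 : (Fin k → unitInterval) × _ → _) := by
  apply continuous_pi
  intro i
  refine Fin.lastCases ?_ (fun i => ?_) i
  · simp only [toCube2, Fin.snoc_last]
    exact continuous_snd.snd
  · simp only [toCube2, Fin.snoc_castSucc]
    refine Fin.lastCases ?_ (fun i => ?_) i
    · simp only [Fin.snoc_last]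
      exact continuous_snd.fst
    · simp only [Fin.snoc_castSucc]
      exact (continuous_apply i).comp continuous_fst

lemma continuous_fromCube2 : Continuous (fromCube2 : (Fin (k + 2) → unitInterval) → _) := by
  apply Continuous.prodMk
  · exact continuous_pi fun i => continuous_apply _
  · exact (continuous_apply _).prodMk (continuous_apply _)

lemma fromCube2_toCube2 (q : (Fin k → unitInterval) × (unitInterval × unitInterval)) :
    fromCube2 (toCube2 q) = q := by
  apply Prod.ext
  · ext1 i
    simp [fromCube2, toCube2]
  · simp [fromCube2, toCube2]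

lemma fromCube2_bd {y : Fin (k + 2) → unitInterval} (hy : y ∈ Cube.boundary (Fin (k + 2))) :
    (fromCube2 y).1 ∈ Cube.boundary (Fin k) ∨ (fromCube2 y).2 ∈ sqBd := by
  obtain ⟨i, hi⟩ := hy
  revert hi
  refine Fin.lastCases ?_ (fun i => ?_) i
  · rintro (h | h)
    · exact Or.inr (Or.inr (Or.inr (Or.inl h)))
    · exact Or.inr (Or.inr (Or.inr (Or.inr h)))
  · refine Fin.lastCases ?_ (fun i => ?_) i
    · rintro (h | h)
      · exact Or.inr (Or.inl h)
      · exact Or.inr (Or.inr (Or.inl h))
    · intro h
      exact Or.inl ⟨i, h⟩

lemma toCube2_bd {q : (Fin k → unitInterval) × (unitInterval × unitInterval)}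
    (hq : q.1 ∈ Cube.boundary (Fin k) ∨ q.2 ∈ sqBd) : toCube2 q ∈ Cube.boundary (Fin (k + 2)) := by
  rcases hq with ⟨i, hi⟩ | h | h | h | h
  · refine ⟨i.castSucc.castSucc, ?_⟩
    simpa [toCube2] using hi
  · exact ⟨(Fin.last k).castSucc, Or.inl (by simpa [toCube2] using h)⟩
  · exact ⟨(Fin.last k).castSucc, Or.inr (by simpa [toCube2] using h)⟩
  · exact ⟨Fin.last (k + 1), Or.inl (by simpa [toCube2] using h)⟩
  · exact ⟨Fin.last (k + 1), Or.inr (by simpa [toCube2] using h)⟩

/-- Vanishing of a homotopy group in terms of families over a cube times a square. -/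
lemma homotopicRel_of_subsingleton2 {X : Type} [TopologicalSpace X] {x : X}
    (hX : Subsingleton (HomotopyGroup (Fin (k + 2)) X x))
    (h : C((Fin k → unitInterval) × (unitInterval × unitInterval), X))
    (hh : ∀ q, (q.1 ∈ Cube.boundary (Fin k) ∨ q.2 ∈ sqBd) → h q = x) :
    h.HomotopicRel (ContinuousMap.const _ x) {q | q.1 ∈ Cube.boundary (Fin k) ∨ q.2 ∈ sqBd} := by
  set γ : GenLoop (Fin (k + 2)) X x := ⟨h.comp ⟨fromCube2, continuous_fromCube2⟩, fun y hy =>
    hh _ (fromCube2_bd hy)⟩ with hγ
  have h1 : (Quotient.mk _ γ : HomotopyGroup (Fin (k + 2)) X x) = Quotient.mk _ GenLoop.const :=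
    hX.elim _ _
  have h2 : GenLoop.Homotopic γ GenLoop.const := Quotient.exact h1
  obtain ⟨H⟩ := h2
  refine ⟨{ toFun := fun q => H (q.1, toCube2 q.2)
            continuous_toFun := H.continuous.comp (continuous_fst.prodMk
              (continuous_toCube2.comp continuous_snd))
            map_zero_left := fun q => ?_
            map_one_left := fun q => ?_
            prop' := fun s q hq => ?_ }⟩
  · rw [H.apply_zero]
    change h (fromCube2 (toCube2 q)) = h q
    rw [fromCube2_toCube2]
  · rw [H.apply_one]
    rfl
  · change H (s, toCube2 q) = h q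
    rw [H.eq_fst s (toCube2_bd hq)]
    change h (fromCube2 (toCube2 q)) = h q
    rw [fromCube2_toCube2]

/-- The map induced by `φ ↦ (x_0 ∘ φ, y_0 ∘ φ)` on homotopy groups. -/
noncomputable def piPair (k n : ℕ) : HomotopyGroup (Fin k) (SympCt (n + 1)) 1 →
    HomotopyGroup (Fin k) (PairSp n) PairSp.std :=
  Quotient.map (fun γ => ⟨(⟨pairMap, continuous_pairMap⟩ : C(SympCt (n + 1), PairSp n)).comp γ.1,
    fun y hy => by
      change pairMap (γ.1 y) = PairSp.std
      rw [γ.2 y hy, pairMap_one]⟩)
    (fun γ γ' h => by
      obtain ⟨H⟩ := h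
      exact ⟨{ toFun := fun q => pairMap (H q)
               continuous_toFun := continuous_pairMap.comp H.continuous
               map_zero_left := fun q => by rw [H.apply_zero]; rfl
               map_one_left := fun q => by rw [H.apply_one]; rfl
               prop' := fun s q hq => by
                change pairMap (H (s, q)) = pairMap (γ.1 q)
                rw [H.eq_fst s hq] }⟩)

/-- If `π_{k+2}` of the group in dimension `2n` vanishes, then the pair map is injective on
`π_k`. -/
theorem piPair_injective {k n : ℕ} (h : Subsingleton (HomotopyGroup (Fin (k + 2)) (SympCt n) 1)) :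
    Injective (piPair k n) := by
  intro a b
  refine Quotient.inductionOn₂ a b fun γ γ' hab => ?_
  have h1 := Quotient.exact hab
  apply Quotient.sound
  exact homotopicRel_of_pair (fun h' hh' => homotopicRel_of_subsingleton2 h h' hh') h1

/-- The group in dimension zero is trivial. -/
instance : Subsingleton (SympCt 0) := by
  constructor
  intro a b
  apply SympCt.ext'
  intro x
  ext i
  rcases i with i | i <;> exact i.elim0

lemma subsingleton_homotopyGroup {X : Type} [TopologicalSpace X] [Subsingleton X] {x : X} (k : ℕ) :
    Subsingleton (HomotopyGroup (Fin k) X x) := by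
  constructor
  intro a b
  refine Quotient.inductionOn₂ a b fun γ γ' => ?_
  congr 1
  ext y
  exact Subsingleton.elim _ _

end Pool.Agent.Helper42
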