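import Mathlib
import Pool.Agent.Helper42.Susp.Cubes
import Pool.Agent.H50.Susp.SurjMain

set_option maxSynthPendingDepth 3

open scoped ContDiff Distributions Topology unitInterval
open Set Function TopologicalSpace Filter Topology

namespace Pool.Agent.Helper42

open Pool.Agent.Helper17
open Pool.Agent.H50.Susp (bracket hamV omegaStd_hamV fderiv_hamV_eq_bracket PosPair eX eY
  PairHomotopic)

variable {n k : ℕ}

/-- A continuous family of pairs is a smooth family of positive pairs. -/
lemma posPair_of_continuous {T : Type} [TopologicalSpace T] [CompactSpace T] {V : T → PairSp n}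
    (hV : Continuous V) : ∃ R : ℝ, 0 ≤ R ∧
      PosPair (0 : Fin (n + 1)) R (fun t p => ((V t).1 p).1) (fun t p => ((V t).1 p).2) := by
  obtain ⟨hCF, K, hK⟩ := CF_of_continuous_pair hV
  obtain ⟨R, hR⟩ := K.isCompact.isBounded.subset_closedBall (0 : Phase (n + 1))
  have hKR : ∀ t, ∀ p : Phase (n + 1), |R| < ‖p‖ → (V t).1 p = stdPair p := by
    intro t p hp
    apply hK
    intro h
    have h1 := hR h
    rw [mem_closedBall_zero_iff] at h1
    linarith [le_abs_self R]
  refine ⟨|R|, abs_nonneg R, hCF.clm (ContinuousLinearMap.fst ℝ ℝ ℝ),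
    hCF.clm (ContinuousLinearMap.snd ℝ ℝ ℝ), fun t p hp => ?_, fun t p hp => ?_, fun t p => ?_⟩
  · beta_reduce
    rw [hKR t p hp]
    rfl
  · beta_reduce
    rw [hKR t p hp]
    rfl
  · rw [fderiv_hamV_eq_bracket]
    exact (V t).2.2.2 p

/-- A smooth family of positive pairs, as a family of points of the space of pairs. -/
def pairOf {T : Type} [TopologicalSpace T] {R : ℝ} {F G : T → Phase (n + 1) → ℝ}
    (h : PosPair (0 : Fin (n + 1)) R F G) (t : T) : PairSp n :=
  ⟨fun p => (F t p, G t p), (h.cf.contDiff t).prodMk (h.cg.contDiff t),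
    ⟨Metric.closedBall 0 R, isCompact_closedBall _ _, fun p hp => by
      rw [mem_closedBall_zero_iff, not_le] at hp
      change (F t p, G t p) = _
      rw [h.fstd t p hp, h.gstd t p hp]
      rfl⟩, fun p => by
      change 0 < bracket (fun q => F t q) (fun q => G t q) p
      rw [← fderiv_hamV_eq_bracket]
      exact h.pos t p⟩

lemma continuous_pairOf {T : Type} [TopologicalSpace T] {R : ℝ} {F G : T → Phase (n + 1) → ℝ}
    (h : PosPair (0 : Fin (n + 1)) R F G) : Continuous (pairOf h) := by
  apply continuous_pair_of_CF (h.cf.prodMk h.cg)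
    (⟨Metric.closedBall 0 R, isCompact_closedBall _ _⟩ : Compacts (Phase (n + 1))) ?_
    (fun t x => rfl)
  intro t x hx
  have hx' : R < ‖x‖ := by
    by_contra hneg
    apply hx
    exact mem_closedBall_zero_iff.2 (not_lt.1 hneg)
  rw [h.fstd t x hx', h.gstd t x hx']
  rfl

/-- Smooth homotopies of pairs are homotopies in the space of pairs. -/
lemma homotopicRel_of_pairHomotopic {T : Type} [TopologicalSpace T] {T₀ : Set T}
    {u v : C(T, PairSp n)}
    (h : PairHomotopic (0 : Fin (n + 1)) T₀ (fun t p => ((u t).1 p).1) (fun t p => ((u t).1 p).2)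
      (fun t p => ((v t).1 p).1) (fun t p => ((v t).1 p).2)) : u.HomotopicRel v T₀ := by
  obtain ⟨R, F, G, hR, hFG, h0, h1, hT⟩ := h
  refine ⟨{ toFun := fun q => pairOf hFG (q.2, q.1)
            continuous_toFun := (continuous_pairOf hFG).comp
              (continuous_snd.prodMk continuous_fst)
            map_zero_left := fun t => ?_
            map_one_left := fun t => ?_
            prop' := fun s t ht => ?_ }⟩
  · apply Subtype.ext
    funext p
    exact Prod.ext (h0 t p).1 (h0 t p).2
  · apply Subtype.ext
    funext p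
    exact Prod.ext (h1 t p).1 (h1 t p).2
  · apply Subtype.ext
    funext p
    exact Prod.ext (hT t ht s p).1 (hT t ht s p).2

/-- Adding a coordinate to a point of the cube. -/
def toCube1 (q : (Fin k → unitInterval) × unitInterval) : Fin (k + 1) → unitInterval :=
  Fin.snoc (α := fun _ => unitInterval) q.1 q.2

/-- Splitting off the last coordinate. -/
def fromCube1 (y : Fin (k + 1) → unitInterval) : (Fin k → unitInterval) × unitInterval :=
  (fun i => y i.castSucc, y (Fin.last k))

lemma continuous_toCube1 : Continuous (toCube1 : (Fin k → unitInterval) × _ → _) := by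
  apply continuous_pi
  intro i
  refine Fin.lastCases ?_ (fun i => ?_) i
  · simp only [toCube1, Fin.snoc_last]
    exact continuous_snd
  · simp only [toCube1, Fin.snoc_castSucc]
    exact (continuous_apply i).comp continuous_fst

lemma continuous_fromCube1 : Continuous (fromCube1 : (Fin (k + 1) → unitInterval) → _) := by
  apply Continuous.prodMk
  · exact continuous_pi fun i => continuous_apply _
  · exact continuous_apply _

lemma fromCube1_toCube1 (q : (Fin k → unitInterval) × unitInterval) :
    fromCube1 (toCube1 q) = q := by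
  apply Prod.ext
  · ext1 i
    simp [fromCube1, toCube1]
  · simp [fromCube1, toCube1]

lemma fromCube1_bd {y : Fin (k + 1) → unitInterval} (hy : y ∈ Cube.boundary (Fin (k + 1))) :
    (fromCube1 y).1 ∈ Cube.boundary (Fin k) ∨ (fromCube1 y).2 = 0 ∨ (fromCube1 y).2 = 1 := by
  obtain ⟨i, hi⟩ := hy
  revert hi
  refine Fin.lastCases ?_ (fun i => ?_) i
  · rintro (h | h)
    · exact Or.inr (Or.inl h)
    · exact Or.inr (Or.inr h)
  · intro h
    exact Or.inl ⟨i, h⟩

lemma toCube1_bd {q : (Fin k → unitInterval) × unitInterval}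
    (hq : q.1 ∈ Cube.boundary (Fin k) ∨ q.2 = 0 ∨ q.2 = 1) :
    toCube1 q ∈ Cube.boundary (Fin (k + 1)) := by
  rcases hq with ⟨i, hi⟩ | h | h
  · refine ⟨i.castSucc, ?_⟩
    simpa [toCube1] using hi
  · exact ⟨Fin.last k, Or.inl (by simpa [toCube1] using h)⟩
  · exact ⟨Fin.last k, Or.inr (by simpa [toCube1] using h)⟩

/-- Vanishing of a homotopy group in terms of families over a cube times an interval. -/
lemma homotopicRel_of_subsingleton1 {X : Type} [TopologicalSpace X] {x : X}
    (hX : Subsingleton (HomotopyGroup (Fin (k + 1)) X x))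
    (h : C((Fin k → unitInterval) × unitInterval, X))
    (hh : ∀ q, (q.1 ∈ Cube.boundary (Fin k) ∨ q.2 = 0 ∨ q.2 = 1) → h q = x) :
    h.HomotopicRel (ContinuousMap.const _ x)
      {q | q.1 ∈ Cube.boundary (Fin k) ∨ q.2 = 0 ∨ q.2 = 1} := by
  set γ : GenLoop (Fin (k + 1)) X x := ⟨h.comp ⟨fromCube1, continuous_fromCube1⟩, fun y hy =>
    hh _ (fromCube1_bd hy)⟩ with hγ
  have h1 : (Quotient.mk _ γ : HomotopyGroup (Fin (k + 1)) X x) = Quotient.mk _ GenLoop.const :=
    hX.elim _ _
  have h2 : GenLoop.Homotopic γ GenLoop.const := Quotient.exact h1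
  obtain ⟨H⟩ := h2
  refine ⟨{ toFun := fun q => H (q.1, toCube1 q.2)
            continuous_toFun := H.continuous.comp (continuous_fst.prodMk
              (continuous_toCube1.comp continuous_snd))
            map_zero_left := fun q => ?_
            map_one_left := fun q => ?_
            prop' := fun s q hq => ?_ }⟩
  · rw [H.apply_zero]
    change h (fromCube1 (toCube1 q)) = h q
    rw [fromCube1_toCube1]
  · rw [H.apply_one]
    rfl
  · change H (s, toCube1 q) = h q
    rw [H.eq_fst s (toCube1_bd hq)]
    change h (fromCube1 (toCube1 q)) = h q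
    rw [fromCube1_toCube1]

/-- If `π_{k+1}` of the group in dimension `2n` vanishes, then the pair map is surjective on
`π_k`. -/
theorem piPair_surjective {k n : ℕ} (h : Subsingleton (HomotopyGroup (Fin (k + 1)) (SympCt n) 1)) :
    Surjective (piPair k n) := by
  intro b
  refine Quotient.inductionOn b fun γ => ?_
  obtain ⟨R, hR, hP⟩ := posPair_of_continuous γ.1.continuous
  obtain ⟨φ, hφ1, hφ⟩ := Pool.Agent.H50.Susp.exists_pairHomotopic_symp
    (T0 := Cube.boundary (Fin k)) hR hP (fun t ht p => by
      have h1 : γ.1 t = PairSp.std := γ.2 t ht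
      rw [h1]
      exact ⟨rfl, rfl⟩) (fun e he1 he2 => by
      apply homotopicRel_of_subsingleton1 h e
      rintro ⟨t, s⟩ (ht | hs | hs)
      · exact he1 t ht s
      · simp only at hs
        rw [hs]
        exact (he2 t).1
      · simp only at hs
        rw [hs]
        exact (he2 t).2)
  refine ⟨Quotient.mk _ ⟨φ, hφ1⟩, ?_⟩
  apply Quotient.sound
  have h2 : γ.1.HomotopicRel ((⟨pairMap, continuous_pairMap⟩ :
      C(SympCt (n + 1), PairSp n)).comp φ) (Cube.boundary (Fin k)) :=
    homotopicRel_of_pairHomotopic hφ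
  exact h2.symm

/-- The group is weakly contractible. -/
theorem weak_equivalence {n : ℕ}
    (h : ∀ k, Subsingleton (HomotopyGroup (Fin k) (SympCt n) 1)) (k : ℕ) :
    Bijective (piPair k n) :=
  ⟨piPair_injective (h _), piPair_surjective (h _)⟩

/-- The groups `Symp_ct(ℝ^{2n})`, `n ≤ N`, are weakly contractible if and only if the spaces of
pairs are. -/
theorem weakly_contractible_iff (N : ℕ) :
    (∀ n ≤ N, ∀ k, Subsingleton (HomotopyGroup (Fin k) (SympCt n) 1)) ↔
    (∀ n < N, ∀ k, Subsingleton (HomotopyGroup (Fin k) (PairSp n) PairSp.std)) := by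
  constructor
  · intro h n hn k
    have h1 := h (n + 1) hn k
    exact (piPair_surjective (h n hn.le (k + 1))).subsingleton
  · intro h n
    induction n with
    | zero => exact fun _ k => subsingleton_homotopyGroup k
    | succ n ih =>
      intro hn k
      have h1 := h n hn k
      exact (piPair_injective (ih (by omega) (k + 2))).subsingleton

end Pool.Agent.Helper42
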