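import Mathlib
import Pool.Agent.Helper42.Susp.Final

set_option maxSynthPendingDepth 3

open scoped Topology unitInterval
open Set Function TopologicalSpace Filter

namespace Pool.Agent.Helper42

open Pool.Agent.Helper17

section Halves

variable {N : Type} [DecidableEq N]

/-- The first half of the interval. -/
noncomputable def ihalf1 (s : unitInterval) : unitInterval := ⟨(s : ℝ) / 2, by
  have h1 := s.2.1
  have h2 := s.2.2
  constructor <;> linarith⟩

/-- The second half of the interval. -/
noncomputable def ihalf2 (s : unitInterval) : unitInterval := ⟨(1 + (s : ℝ)) / 2, by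
  have h1 := s.2.1
  have h2 := s.2.2
  constructor <;> linarith⟩

lemma continuous_ihalf1 : Continuous ihalf1 :=
  Continuous.subtype_mk (continuous_subtype_val.div_const 2) _

lemma continuous_ihalf2 : Continuous ihalf2 :=
  Continuous.subtype_mk ((continuous_const.add continuous_subtype_val).div_const 2) _

/-- The embedding of the cube onto its first half in the direction `i`. -/
noncomputable def hlf1 (i : N) (t : N → unitInterval) : N → unitInterval :=
  Function.update t i (ihalf1 (t i))

/-- The embedding of the cube onto its second half in the direction `i`. -/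
noncomputable def hlf2 (i : N) (t : N → unitInterval) : N → unitInterval :=
  Function.update t i (ihalf2 (t i))

lemma continuous_hlf1 (i : N) : Continuous (hlf1 i) :=
  continuous_id.update i (continuous_ihalf1.comp (continuous_apply i))

lemma continuous_hlf2 (i : N) : Continuous (hlf2 i) :=
  continuous_id.update i (continuous_ihalf2.comp (continuous_apply i))

variable {X : Type} [TopologicalSpace X] {x : X}

lemma transAt_apply (i : N) (f g : GenLoop N X x) (t : N → unitInterval) :
    GenLoop.transAt i f g t = if (t i : ℝ) ≤ 1 / 2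
      then f (Function.update t i <| Set.projIcc 0 1 zero_le_one (2 * t i))
      else g (Function.update t i <| Set.projIcc 0 1 zero_le_one (2 * t i - 1)) := rfl

lemma transAt_hlf1 (i : N) (f g : GenLoop N X x) (t : N → unitInterval) :
    GenLoop.transAt i f g (hlf1 i t) = f t := by
  have h2 := (t i).2.2
  have h1 : ((hlf1 i t i : unitInterval) : ℝ) = (t i : ℝ) / 2 := by simp [hlf1, ihalf1]
  rw [transAt_apply, if_pos (by rw [h1]; linarith)]
  congr 1
  rw [h1, hlf1, Function.update_idem]
  have h3 : 2 * ((t i : ℝ) / 2) = t i := by ring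
  rw [h3, projIcc_val, Function.update_eq_self]

lemma transAt_hlf2 (i : N) (f g : GenLoop N X x) (t : N → unitInterval) :
    GenLoop.transAt i f g (hlf2 i t) = g t := by
  have h2 := (t i).2.1
  have h1 : ((hlf2 i t i : unitInterval) : ℝ) = (1 + (t i : ℝ)) / 2 := by simp [hlf2, ihalf2]
  rw [transAt_apply]
  split_ifs with h
  · rw [h1] at h
    have h3 : (t i : ℝ) = 0 := by linarith
    have h4 : t i = 0 := Subtype.ext h3
    have hg : g t = x := g.2 t ⟨i, Or.inl h4⟩
    rw [hg]
    apply f.2
    refine ⟨i, Or.inr ?_⟩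
    rw [Function.update_self, h1, h3]
    apply projIcc_of_right_le
    norm_num
  · congr 1
    rw [h1, hlf2, Function.update_idem]
    have h3 : 2 * ((1 + (t i : ℝ)) / 2) - 1 = t i := by ring
    rw [h3, projIcc_val, Function.update_eq_self]

lemma eq_transAt (i : N) (f f₁ f₂ : GenLoop N X x) (h1 : ∀ t, f₁ t = f (hlf1 i t))
    (h2 : ∀ t, f₂ t = f (hlf2 i t)) : f = GenLoop.transAt i f₁ f₂ := by
  apply Subtype.ext
  apply ContinuousMap.ext
  intro t
  change f t = GenLoop.transAt i f₁ f₂ t
  rw [transAt_apply]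
  split_ifs with h
  · rw [h1]
    congr 1
    rw [hlf1, Function.update_idem]
    conv_lhs => rw [← Function.update_eq_self i t]
    congr 1
    rw [Function.update_self]
    apply Subtype.ext
    have h3 : (2 * (t i : ℝ)) ∈ Icc (0 : ℝ) 1 := ⟨by linarith [(t i).2.1], by linarith⟩
    rw [projIcc_of_mem _ h3]
    change (t i : ℝ) = (2 * (t i : ℝ)) / 2
    ring
  · rw [h2]
    congr 1
    rw [hlf2, Function.update_idem]
    conv_lhs => rw [← Function.update_eq_self i t]
    congr 1
    rw [Function.update_self]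
    apply Subtype.ext
    have h3 : (2 * (t i : ℝ) - 1) ∈ Icc (0 : ℝ) 1 :=
      ⟨by linarith [not_le.1 h], by linarith [(t i).2.2]⟩
    rw [projIcc_of_mem _ h3]
    change (t i : ℝ) = (1 + (2 * (t i : ℝ) - 1)) / 2
    ring

/-- The class of a loop. -/
def hmk (f : GenLoop N X x) : HomotopyGroup N X x := Quotient.mk _ f

/-- Concatenation in a homotopy group. -/
lemma hmk_mul_hmk [Nonempty N] (i : N) (f f₁ f₂ : GenLoop N X x)
    (h1 : ∀ t, f₁ t = f (hlf1 i t)) (h2 : ∀ t, f₂ t = f (hlf2 i t)) :
    hmk f = hmk f₂ * hmk f₁ := by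
  rw [eq_transAt i f f₁ f₂ h1 h2]
  exact (HomotopyGroup.mul_spec (i := i) (p := f₂) (q := f₁)).symm

lemma hmk_mul (N : Type) [DecidableEq N] [Nonempty N] (i : N) (f g : GenLoop N X x) :
    hmk f * hmk g = hmk (GenLoop.transAt i g f) :=
  HomotopyGroup.mul_spec (i := i) (p := f) (q := g)

omit [DecidableEq N] in
lemma hmk_eq_iff (f g : GenLoop N X x) : hmk f = hmk g ↔ GenLoop.Homotopic f g :=
  ⟨Quotient.exact, fun h => Quotient.sound h⟩

end Halves

section Loops

variable {X : Type} [TopologicalSpace X] {x : X} {k : ℕ}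

/-- The set over which families on `I^k × I` are trivial. -/
def bd1 (k : ℕ) : Set ((Fin k → unitInterval) × unitInterval) :=
  {q | q.1 ∈ Cube.boundary (Fin k) ∨ q.2 = 0 ∨ q.2 = 1}

/-- The set over which families on `I^k × I^2` are trivial. -/
def bd2 (k : ℕ) : Set ((Fin k → unitInterval) × (unitInterval × unitInterval)) :=
  {q | q.1 ∈ Cube.boundary (Fin k) ∨ q.2 ∈ sqBd}

/-- A family on `I^k × I`, as a loop of dimension `k + 1`; the new coordinate is the last. -/
def loop1 (e : C((Fin k → unitInterval) × unitInterval, X)) (he : ∀ q ∈ bd1 k, e q = x) :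
    GenLoop (Fin (k + 1)) X x :=
  ⟨e.comp ⟨fromCube1, continuous_fromCube1⟩, fun y hy => he _ (fromCube1_bd hy)⟩

lemma loop1_apply (e : C((Fin k → unitInterval) × unitInterval, X)) (he : ∀ q ∈ bd1 k, e q = x)
    (y : Fin (k + 1) → unitInterval) :
    loop1 e he y = e (fun i => y i.castSucc, y (Fin.last k)) := rfl

/-- A loop of dimension `k + 1` as a family on `I^k × I`. -/
def unloop1 (γ : GenLoop (Fin (k + 1)) X x) : C((Fin k → unitInterval) × unitInterval, X) :=
  γ.1.comp ⟨toCube1, continuous_toCube1⟩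

lemma unloop1_bd (γ : GenLoop (Fin (k + 1)) X x) : ∀ q ∈ bd1 k, unloop1 γ q = x :=
  fun _ hq => γ.2 _ (toCube1_bd hq)

lemma toCube1_fromCube1 (y : Fin (k + 1) → unitInterval) : toCube1 (fromCube1 y) = y := by
  ext1 i
  refine Fin.lastCases ?_ (fun i => ?_) i
  · simp [toCube1, fromCube1]
  · simp [toCube1, fromCube1]

lemma loop1_unloop1 (γ : GenLoop (Fin (k + 1)) X x) : loop1 (unloop1 γ) (unloop1_bd γ) = γ := by
  apply Subtype.ext
  apply ContinuousMap.ext
  intro y
  change γ.1 (toCube1 (fromCube1 y)) = γ.1 y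
  rw [toCube1_fromCube1]

lemma unloop1_loop1 (e : C((Fin k → unitInterval) × unitInterval, X))
    (he : ∀ q ∈ bd1 k, e q = x) : unloop1 (loop1 e he) = e := by
  apply ContinuousMap.ext
  intro q
  change e (fromCube1 (toCube1 q)) = e q
  rw [fromCube1_toCube1]

lemma loop1_homotopic {e e' : C((Fin k → unitInterval) × unitInterval, X)}
    (he : ∀ q ∈ bd1 k, e q = x) (he' : ∀ q ∈ bd1 k, e' q = x) (h : e.HomotopicRel e' (bd1 k)) :
    GenLoop.Homotopic (loop1 e he) (loop1 e' he') := by
  obtain ⟨H⟩ := h
  exact ⟨{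
    toFun := fun q => H (q.1, fromCube1 q.2)
    continuous_toFun := H.continuous.comp (continuous_fst.prodMk
      (continuous_fromCube1.comp continuous_snd))
    map_zero_left := fun y => by rw [H.apply_zero]; rfl
    map_one_left := fun y => by rw [H.apply_one]; rfl
    prop' := fun s y hy => H.eq_fst s (fromCube1_bd hy) }⟩

lemma unloop1_homotopic {γ γ' : GenLoop (Fin (k + 1)) X x} (h : GenLoop.Homotopic γ γ') :
    (unloop1 γ).HomotopicRel (unloop1 γ') (bd1 k) := by
  obtain ⟨H⟩ := h
  exact ⟨{
    toFun := fun q => H (q.1, toCube1 q.2)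
    continuous_toFun := H.continuous.comp (continuous_fst.prodMk
      (continuous_toCube1.comp continuous_snd))
    map_zero_left := fun y => by rw [H.apply_zero]; rfl
    map_one_left := fun y => by rw [H.apply_one]; rfl
    prop' := fun s q hq => by
      change H (s, toCube1 q) = γ.1 (toCube1 q)
      exact H.eq_fst s (toCube1_bd hq) }⟩

lemma homotopicRel_of_mk_eq1 {e e' : C((Fin k → unitInterval) × unitInterval, X)}
    (he : ∀ q ∈ bd1 k, e q = x) (he' : ∀ q ∈ bd1 k, e' q = x)
    (h : hmk (loop1 e he) = hmk (loop1 e' he')) : e.HomotopicRel e' (bd1 k) := by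
  have h1 := unloop1_homotopic (Quotient.exact h)
  rwa [unloop1_loop1, unloop1_loop1] at h1

lemma hmk_loop1_eq_iff {e e' : C((Fin k → unitInterval) × unitInterval, X)}
    (he : ∀ q ∈ bd1 k, e q = x) (he' : ∀ q ∈ bd1 k, e' q = x) :
    hmk (loop1 e he) = hmk (loop1 e' he') ↔ e.HomotopicRel e' (bd1 k) :=
  ⟨homotopicRel_of_mk_eq1 he he', fun h => Quotient.sound (loop1_homotopic he he' h)⟩

/-- Splitting off the last two coordinates, in the order used for reductions. -/
def fromCube2s (y : Fin (k + 2) → unitInterval) :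
    (Fin k → unitInterval) × (unitInterval × unitInterval) :=
  (fun i => y i.castSucc.castSucc, (y (Fin.last (k + 1)), y (Fin.last k).castSucc))

/-- Adding two coordinates, in the order used for reductions. -/
def toCube2s (q : (Fin k → unitInterval) × (unitInterval × unitInterval)) :
    Fin (k + 2) → unitInterval := toCube1 (toCube1 (q.1, q.2.2), q.2.1)

lemma continuous_fromCube2s : Continuous (fromCube2s : (Fin (k + 2) → unitInterval) → _) :=
  (continuous_pi fun i => continuous_apply _).prodMk
    ((continuous_apply _).prodMk (continuous_apply _))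

lemma continuous_toCube2s : Continuous (toCube2s : (Fin k → unitInterval) × _ → _) :=
  continuous_toCube1.comp ((continuous_toCube1.comp (continuous_fst.prodMk
    continuous_snd.snd)).prodMk continuous_snd.fst)

lemma fromCube2s_toCube2s (q : (Fin k → unitInterval) × (unitInterval × unitInterval)) :
    fromCube2s (toCube2s q) = q := by
  apply Prod.ext
  · ext1 i
    simp [fromCube2s, toCube2s, toCube1]
  · simp [fromCube2s, toCube2s, toCube1]

lemma toCube2s_fromCube2s (y : Fin (k + 2) → unitInterval) : toCube2s (fromCube2s y) = y := by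
  have h : toCube2s (fromCube2s y) = toCube1 (toCube1 (fromCube1 (fromCube1 y).1),
    (fromCube1 y).2) := rfl
  rw [h, toCube1_fromCube1]
  exact toCube1_fromCube1 y

lemma fromCube2s_bd {y : Fin (k + 2) → unitInterval} (hy : y ∈ Cube.boundary (Fin (k + 2))) :
    fromCube2s y ∈ bd2 k := by
  obtain ⟨i, hi⟩ := hy
  revert hi
  refine Fin.lastCases ?_ (fun i => ?_) i
  · rintro (h | h)
    · exact Or.inr (Or.inl h)
    · exact Or.inr (Or.inr (Or.inl h))
  · refine Fin.lastCases ?_ (fun i => ?_) i
    · rintro (h | h)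
      · exact Or.inr (Or.inr (Or.inr (Or.inl h)))
      · exact Or.inr (Or.inr (Or.inr (Or.inr h)))
    · intro h
      exact Or.inl ⟨i, h⟩

lemma toCube2s_bd {q : (Fin k → unitInterval) × (unitInterval × unitInterval)}
    (hq : q ∈ bd2 k) : toCube2s q ∈ Cube.boundary (Fin (k + 2)) := by
  rcases hq with ⟨i, hi⟩ | h | h | h | h
  · refine ⟨i.castSucc.castSucc, ?_⟩
    simpa [toCube2s, toCube1] using hi
  · exact ⟨Fin.last (k + 1), Or.inl (by simpa [toCube2s, toCube1] using h)⟩
  · exact ⟨Fin.last (k + 1), Or.inr (by simpa [toCube2s, toCube1] using h)⟩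
  · exact ⟨(Fin.last k).castSucc, Or.inl (by simpa [toCube2s, toCube1] using h)⟩
  · exact ⟨(Fin.last k).castSucc, Or.inr (by simpa [toCube2s, toCube1] using h)⟩

/-- A family on `I^k × I^2`, as a loop of dimension `k + 2`. -/
def loop2 (h : C((Fin k → unitInterval) × (unitInterval × unitInterval), X))
    (hh : ∀ q ∈ bd2 k, h q = x) : GenLoop (Fin (k + 2)) X x :=
  ⟨h.comp ⟨fromCube2s, continuous_fromCube2s⟩, fun y hy => hh _ (fromCube2s_bd hy)⟩

/-- A loop of dimension `k + 2` as a family on `I^k × I^2`. -/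
def unloop2 (γ : GenLoop (Fin (k + 2)) X x) :
    C((Fin k → unitInterval) × (unitInterval × unitInterval), X) :=
  γ.1.comp ⟨toCube2s, continuous_toCube2s⟩

lemma unloop2_bd (γ : GenLoop (Fin (k + 2)) X x) : ∀ q ∈ bd2 k, unloop2 γ q = x :=
  fun _ hq => γ.2 _ (toCube2s_bd hq)

lemma loop2_unloop2 (γ : GenLoop (Fin (k + 2)) X x) : loop2 (unloop2 γ) (unloop2_bd γ) = γ := by
  apply Subtype.ext
  apply ContinuousMap.ext
  intro y
  change γ.1 (toCube2s (fromCube2s y)) = γ.1 y
  rw [toCube2s_fromCube2s]

lemma unloop2_loop2 (h : C((Fin k → unitInterval) × (unitInterval × unitInterval), X))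
    (hh : ∀ q ∈ bd2 k, h q = x) : unloop2 (loop2 h hh) = h := by
  apply ContinuousMap.ext
  intro q
  change h (fromCube2s (toCube2s q)) = h q
  rw [fromCube2s_toCube2s]

lemma loop2_homotopic {h h' : C((Fin k → unitInterval) × (unitInterval × unitInterval), X)}
    (hh : ∀ q ∈ bd2 k, h q = x) (hh' : ∀ q ∈ bd2 k, h' q = x) (H : h.HomotopicRel h' (bd2 k)) :
    GenLoop.Homotopic (loop2 h hh) (loop2 h' hh') := by
  obtain ⟨H⟩ := H
  exact ⟨{
    toFun := fun q => H (q.1, fromCube2s q.2)
    continuous_toFun := H.continuous.comp (continuous_fst.prodMk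
      (continuous_fromCube2s.comp continuous_snd))
    map_zero_left := fun y => by rw [H.apply_zero]; rfl
    map_one_left := fun y => by rw [H.apply_one]; rfl
    prop' := fun s y hy => by
      change H (s, fromCube2s y) = h (fromCube2s y)
      exact H.eq_fst s (fromCube2s_bd hy) }⟩

lemma unloop2_homotopic {γ γ' : GenLoop (Fin (k + 2)) X x} (h : GenLoop.Homotopic γ γ') :
    (unloop2 γ).HomotopicRel (unloop2 γ') (bd2 k) := by
  obtain ⟨H⟩ := h
  exact ⟨{
    toFun := fun q => H (q.1, toCube2s q.2)
    continuous_toFun := H.continuous.comp (continuous_fst.prodMk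
      (continuous_toCube2s.comp continuous_snd))
    map_zero_left := fun y => by rw [H.apply_zero]; rfl
    map_one_left := fun y => by rw [H.apply_one]; rfl
    prop' := fun s q hq => by
      change H (s, toCube2s q) = γ.1 (toCube2s q)
      exact H.eq_fst s (toCube2s_bd hq) }⟩

lemma hmk_loop2_eq_iff {h h' : C((Fin k → unitInterval) × (unitInterval × unitInterval), X)}
    (hh : ∀ q ∈ bd2 k, h q = x) (hh' : ∀ q ∈ bd2 k, h' q = x) :
    hmk (loop2 h hh) = hmk (loop2 h' hh') ↔ h.HomotopicRel h' (bd2 k) := by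
  refine ⟨fun H => ?_, fun H => Quotient.sound (loop2_homotopic hh hh' H)⟩
  have h1 := unloop2_homotopic (Quotient.exact H)
  rwa [unloop2_loop2, unloop2_loop2] at h1

/-- A two-parameter family of the last two coordinates, in the order of the scatterings. -/
lemma loop1_eq_loop2 (e : C((Fin (k + 1) → unitInterval) × unitInterval, X))
    (he : ∀ q ∈ bd1 (k + 1), e q = x) (q : (Fin k → unitInterval) × (unitInterval × unitInterval)) :
    unloop2 (loop1 e he) q = e (toCube1 (q.1, q.2.2), q.2.1) := by
  change e (fromCube1 (toCube1 (toCube1 (q.1, q.2.2), q.2.1))) = _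
  rw [fromCube1_toCube1]

/-- Halves of families in a direction of `I^k`. -/
lemma loop1_hlf1 (i : Fin k) (e e₁ : C((Fin k → unitInterval) × unitInterval, X))
    (he : ∀ q ∈ bd1 k, e q = x) (he₁ : ∀ q ∈ bd1 k, e₁ q = x)
    (h : ∀ q, e₁ q = e (hlf1 i q.1, q.2)) (y : Fin (k + 1) → unitInterval) :
    loop1 e₁ he₁ y = loop1 e he (hlf1 i.castSucc y) := by
  rw [loop1_apply, loop1_apply, h]
  congr 1
  apply Prod.ext
  · ext1 j
    by_cases hj : j = i
    · subst hj
      simp [hlf1]
    · have h1 : j.castSucc ≠ i.castSucc := fun h => hj (Fin.castSucc_injective _ h)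
      simp [hlf1, hj, h1]
  · have h1 : Fin.last k ≠ i.castSucc := (Fin.castSucc_lt_last i).ne'
    simp [hlf1, h1]

lemma loop1_hlf2 (i : Fin k) (e e₁ : C((Fin k → unitInterval) × unitInterval, X))
    (he : ∀ q ∈ bd1 k, e q = x) (he₁ : ∀ q ∈ bd1 k, e₁ q = x)
    (h : ∀ q, e₁ q = e (hlf2 i q.1, q.2)) (y : Fin (k + 1) → unitInterval) :
    loop1 e₁ he₁ y = loop1 e he (hlf2 i.castSucc y) := by
  rw [loop1_apply, loop1_apply, h]
  congr 1
  apply Prod.ext
  · ext1 j
    by_cases hj : j = i
    · subst hj
      simp [hlf2]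
    · have h1 : j.castSucc ≠ i.castSucc := fun h => hj (Fin.castSucc_injective _ h)
      simp [hlf2, hj, h1]
  · have h1 : Fin.last k ≠ i.castSucc := (Fin.castSucc_lt_last i).ne'
    simp [hlf2, h1]

lemma loop2_hlf1 (i : Fin k) (e e₁ : C((Fin k → unitInterval) × (unitInterval × unitInterval), X))
    (he : ∀ q ∈ bd2 k, e q = x) (he₁ : ∀ q ∈ bd2 k, e₁ q = x)
    (h : ∀ q, e₁ q = e (hlf1 i q.1, q.2)) (y : Fin (k + 2) → unitInterval) :
    loop2 e₁ he₁ y = loop2 e he (hlf1 i.castSucc.castSucc y) := by
  change e₁ (fromCube2s y) = e (fromCube2s (hlf1 i.castSucc.castSucc y))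
  rw [h]
  congr 1
  apply Prod.ext
  · ext1 j
    by_cases hj : j = i
    · subst hj
      simp [hlf1, fromCube2s]
    · have h1 : j.castSucc.castSucc ≠ i.castSucc.castSucc := fun h =>
        hj (Fin.castSucc_injective _ (Fin.castSucc_injective _ h))
      simp [hlf1, fromCube2s, hj]
  · have h1 : Fin.last (k + 1) ≠ i.castSucc.castSucc := (Fin.castSucc_lt_last i.castSucc).ne'
    have h2 : (Fin.last k).castSucc ≠ i.castSucc.castSucc := fun h =>
      (Fin.castSucc_lt_last i).ne' (Fin.castSucc_injective _ h)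
    simp only [fromCube2s, hlf1, Function.update_of_ne h1, Function.update_of_ne h2]

lemma loop2_hlf2 (i : Fin k) (e e₁ : C((Fin k → unitInterval) × (unitInterval × unitInterval), X))
    (he : ∀ q ∈ bd2 k, e q = x) (he₁ : ∀ q ∈ bd2 k, e₁ q = x)
    (h : ∀ q, e₁ q = e (hlf2 i q.1, q.2)) (y : Fin (k + 2) → unitInterval) :
    loop2 e₁ he₁ y = loop2 e he (hlf2 i.castSucc.castSucc y) := by
  change e₁ (fromCube2s y) = e (fromCube2s (hlf2 i.castSucc.castSucc y))
  rw [h]
  congr 1
  apply Prod.ext
  · ext1 j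
    by_cases hj : j = i
    · subst hj
      simp [hlf2, fromCube2s]
    · have h1 : j.castSucc.castSucc ≠ i.castSucc.castSucc := fun h =>
        hj (Fin.castSucc_injective _ (Fin.castSucc_injective _ h))
      simp [hlf2, fromCube2s, hj]
  · have h1 : Fin.last (k + 1) ≠ i.castSucc.castSucc := (Fin.castSucc_lt_last i.castSucc).ne'
    have h2 : (Fin.last k).castSucc ≠ i.castSucc.castSucc := fun h =>
      (Fin.castSucc_lt_last i).ne' (Fin.castSucc_injective _ h)
    simp only [fromCube2s, hlf2, Function.update_of_ne h1, Function.update_of_ne h2]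

end Loops

end Pool.Agent.Helper42
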