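import Mathlib
import Pool.Agent.Helper17.FlowODE
import Pool.Agent.Helper17.MoserFamily
import Pool.Agent.Helper17.AdmPath
import Pool.Agent.Helper42.Susp.RedExists

set_option maxSynthPendingDepth 3

open scoped ContDiff Topology unitInterval
open Set Function Filter

namespace Pool.Agent.Helper42

open Pool.Agent.Helper17

variable {n : ℕ}

/-- The restriction of `id + c` to the fibre through `p`. -/
noncomputable def fib (c : Phase (n + 1) → Phase n) (p : Phase (n + 1)) (w : Phase n) : Phase n :=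
  w + c (pt (xL p) (yL p) w)

/-- The fibre derivative of `id + c`. -/
noncomputable def fibD (c : Phase (n + 1) → Phase n) (p : Phase (n + 1)) : Phase n →L[ℝ] Phase n :=
  ContinuousLinearMap.id ℝ _ + (fderiv ℝ c p).comp eL

lemma fderiv_fib {c : Phase (n + 1) → Phase n} (hc : Differentiable ℝ c) (p : Phase (n + 1))
    (w : Phase n) : fderiv ℝ (fib c p) w = fibD c (pt (xL p) (yL p) w) := by
  have h1 : HasFDerivAt (fib c p) (ContinuousLinearMap.id ℝ _ +
      (fderiv ℝ c (pt (xL p) (yL p) w)).comp eL) w :=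
    (hasFDerivAt_id w).add ((hc _).hasFDerivAt.comp w (hasFDerivAt_pt _ _ w))
  exact h1.fderiv

lemma contDiff_fib {c : Phase (n + 1) → Phase n} (hc : ContDiff ℝ ∞ c) (p : Phase (n + 1)) :
    ContDiff ℝ ∞ (fib c p) :=
  contDiff_id.add (hc.comp (contDiff_const.add eL.contDiff))

/-- Moser's vector field in the fibres. -/
noncomputable def fibField (c : Phase (n + 1) → Phase n) (s : Icc (0 : ℝ) 1)
    (p : Phase (n + 1)) : Phase n :=
  -(ContinuousLinearMap.inverse (pullOp ((s : ℝ), fibD c p))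
    (sharp n (omegaB n (c p) + (1 / 2 : ℝ) • (omegaB n (c p)).comp ((fderiv ℝ c p).comp eL))))

lemma fibField_eq {c : Phase (n + 1) → Phase n} (hc : Differentiable ℝ c) (s : Icc (0 : ℝ) 1)
    (p : Phase (n + 1)) (w : Phase n) :
    fibField c s (pt (xL p) (yL p) w) = moserField (fun _ : Unit => fib c p) ((), s) w := by
  have h1 : fderiv ℝ (fib c p) w - ContinuousLinearMap.id ℝ _ =
      (fderiv ℝ c (pt (xL p) (yL p) w)).comp eL := by
    rw [fderiv_fib hc, fibD, add_sub_cancel_left]
  have h2 : fib c p w - w = c (pt (xL p) (yL p) w) := by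
    rw [fib, add_sub_cancel_left]
  rw [fibField, moserField, midForm, h1, h2, fderiv_fib hc]

section

variable {T : Type} [TopologicalSpace T] {c : T → Phase (n + 1) → Phase n}

lemma CF_fibD (hc : CF c) : CF (fun t p => fibD (c t) p) :=
  CF.add (CF.const contDiff_const) (CF.clm_comp hc.fderiv (CF.const contDiff_const))

lemma CF_fibField (hc : CF c) (hadm : ∀ t p, Admissible (fibD (c t) p)) :
    CF (fun (q : T × Icc (0 : ℝ) 1) p => fibField (c q.1) q.2 p) := by
  have h1 : CF (fun (q : T × Icc (0 : ℝ) 1) p => fibD (c q.1) p) :=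
    (CF_fibD hc).base continuous_fst
  have h2 : CF (fun (q : T × Icc (0 : ℝ) 1) p => (((q.2 : ℝ), fibD (c q.1) p) :
      ℝ × (Phase n →L[ℝ] Phase n))) :=
    (CF.param (continuous_subtype_val.comp continuous_snd)).prodMk h1
  have h3 : CF (fun (q : T × Icc (0 : ℝ) 1) p => pullOp ((q.2 : ℝ), fibD (c q.1) p)) :=
    h2.comp_smooth (fun _ _ => contDiff_pullOp.contDiffAt)
  have h4 : CF (fun (q : T × Icc (0 : ℝ) 1) p =>
      ContinuousLinearMap.inverse (pullOp ((q.2 : ℝ), fibD (c q.1) p))) := by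
    apply h3.comp_smooth
    intro q p
    have h5 := coe_cleOfInjective _ ((hadm q.1 p).injective q.2.2)
    rw [← h5]
    exact contDiffAt_map_inverse _
  have h5 : CF (fun (q : T × Icc (0 : ℝ) 1) p => omegaB n (c q.1 p)) :=
    (hc.base continuous_fst).clm (omegaB n)
  have h6 : CF (fun (q : T × Icc (0 : ℝ) 1) p => (fderiv ℝ (c q.1) p).comp eL) :=
    CF.clm_comp (hc.fderiv.base continuous_fst) (CF.const contDiff_const)
  have h7 : CF (fun (q : T × Icc (0 : ℝ) 1) p => sharp n (omegaB n (c q.1 p) + (1 / 2 : ℝ) •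
      (omegaB n (c q.1 p)).comp ((fderiv ℝ (c q.1) p).comp eL))) :=
    (h5.add ((CF.const (contDiff_const (c := (1 / 2 : ℝ)))).smul (h5.clm_comp h6))).clm (sharp n)
  exact (h4.clm_apply h7).clm (-(ContinuousLinearMap.id ℝ (Phase n)))

end

lemma fibField_eq_zero {c : Phase (n + 1) → Phase n} {s : Icc (0 : ℝ) 1} {p : Phase (n + 1)}
    (h : c p = 0) : fibField c s p = 0 := by
  rw [fibField, h, map_zero]
  simp

/-- Fibrewise Moser isotopy, smooth in all variables. -/
theorem fibre_moser {T : Type} [TopologicalSpace T] [CompactSpace T]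
    {c : T → Phase (n + 1) → Phase n} (hc : CF c) {K : Set (Phase (n + 1))} (hK : IsCompact K)
    (hc0 : ∀ t, ∀ p ∉ K, c t p = 0) (hadm : ∀ t p, Admissible (fibD (c t) p)) :
    ∃ C : T × Icc (0 : ℝ) 1 → Phase (n + 1) → Phase n, CF C ∧ (∀ q, ∀ p ∉ K, C q p = 0) ∧
      (∀ t p, C (t, ⟨0, left_mem_Icc.2 zero_le_one⟩) p = c t p) ∧
      (∀ q p, Admissible (fibD (C q) p)) ∧
      (∀ t p α β, omegaStd (fibD (C (t, ⟨1, right_mem_Icc.2 zero_le_one⟩)) p α)
        (fibD (C (t, ⟨1, right_mem_Icc.2 zero_le_one⟩)) p β) = omegaStd α β) ∧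
      (∀ t, (∀ p, c t p = 0) → ∀ s p, C (t, s) p = 0) := by
  set Y : T × Icc (0 : ℝ) 1 → Phase (n + 1) → Phase n := fun q p => fibField (c q.1) q.2 p with hY
  have hYCF : CF Y := CF_fibField hc hadm
  set X : T × Icc (0 : ℝ) 1 → Phase (n + 1) → Phase (n + 1) := fun q p => eL (Y q p) with hX
  have hXCF : CF X := hYCF.clm eL
  have hX0 : ∀ x ∉ K, ∀ q, X q x = 0 := by
    intro x hx q
    simp only [hX, hY]
    rw [fibField_eq_zero (hc0 q.1 x hx), map_zero]
  obtain ⟨C, -, hC⟩ := exists_bound_fderiv hXCF hK (fun q p hp => hX0 p hp q)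
  obtain ⟨ρ, hρ, heq, hfix⟩ := exists_flow X hXCF hC
  -- the flow preserves the fibres
  have hz : ∀ q x, zL (ρ q x) = zL x := by
    rintro ⟨t, s⟩ x
    obtain ⟨r, A, hr, hA, hrd, hAd, hr0, hA0⟩ := flow_ode hXCF hρ heq t x
    have h1 : ∀ s : Icc (0 : ℝ) 1, HasDerivAt (fun s => zL (r s)) 0 s := by
      intro s
      have h2 := (zL : Phase (n + 1) →L[ℝ] ℝ × ℝ).hasFDerivAt.comp_hasDerivAt (s : ℝ) (hrd s)
      have h3 : zL (X (t, s) (r s)) = 0 := zL_eL _
      rw [h3] at h2
      exact h2
    have hconst := (convex_Icc (0 : ℝ) 1).norm_image_sub_le_of_norm_hasDerivWithin_le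
      (f := fun s => zL (r s)) (f' := fun _ => 0) (C := 0)
      (fun t ht => (h1 ⟨t, ht⟩).hasDerivWithinAt)
      (fun t _ => by simp) (left_mem_Icc.2 zero_le_one) s.2
    rw [zero_mul, norm_le_zero_iff, sub_eq_zero] at hconst
    rw [← hr s, hconst, hr0]
  have hpt : ∀ q x, ρ q x = pt (xL x) (yL x) (wL (ρ q x)) := by
    intro q x
    have h1 := hz q x
    rw [zL_apply, zL_apply] at h1
    have h2 : xL (ρ q x) = xL x := congrArg Prod.fst h1
    have h3 : yL (ρ q x) = yL x := congrArg Prod.snd h1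
    apply ext_split
    · rw [xL_pt, h2]
    · rw [yL_pt, h3]
    · rw [wL_pt]
  have hzd : ∀ q x (α : Phase n), fderiv ℝ (ρ q) x (eL α) =
      eL (wL (fderiv ℝ (ρ q) x (eL α))) := by
    intro q x α
    have h1 : (zL : Phase (n + 1) →L[ℝ] ℝ × ℝ).comp (fderiv ℝ (ρ q) x) = zL := by
      have h2 : HasFDerivAt (fun x => zL (ρ q x)) ((zL : Phase (n + 1) →L[ℝ] ℝ × ℝ).comp
          (fderiv ℝ (ρ q) x)) x :=
        zL.hasFDerivAt.comp x (hρ.differentiable q x).hasFDerivAt
      have h3 : (fun x => zL (ρ q x)) = fun x => zL x := funext (hz q)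
      rw [h3] at h2
      exact h2.unique zL.hasFDerivAt
    have h2 := congrArg (fun L => L (eL α)) h1
    simp only [ContinuousLinearMap.comp_apply, zL_eL] at h2
    rw [zL_apply] at h2
    have h3 : xL (fderiv ℝ (ρ q) x (eL α)) = 0 := congrArg Prod.fst h2
    have h4 : yL (fderiv ℝ (ρ q) x (eL α)) = 0 := congrArg Prod.snd h2
    apply ext_split
    · rw [h3, xL_eL]
    · rw [h4, yL_eL]
    · rw [wL_eL]
  -- conservation in the fibres
  have hcons : ∀ (t : T) (s : Icc (0 : ℝ) 1) (x : Phase (n + 1)) (v w : Phase n),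
      (1 - (s : ℝ)) * omegaStd (wL (fderiv ℝ (ρ (t, s)) x (eL v)))
        (wL (fderiv ℝ (ρ (t, s)) x (eL w))) +
      s * omegaStd (fibD (c t) (ρ (t, s) x) (wL (fderiv ℝ (ρ (t, s)) x (eL v))))
        (fibD (c t) (ρ (t, s) x) (wL (fderiv ℝ (ρ (t, s)) x (eL w)))) = omegaStd v w := by
    intro t s x v w
    obtain ⟨r, A, hr, hA, hrd, hAd, hr0, hA0⟩ := flow_ode hXCF hρ heq t x
    have hadm' : ∀ (_ : Unit) w, Admissible (fderiv ℝ (fib (c t) x) w) := by
      intro _ w
      rw [fderiv_fib (hc.differentiable t)]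
      exact hadm t _
    have hXf : ∀ (s : Icc (0 : ℝ) 1) w, fibField (c t) s (pt (xL x) (yL x) w) =
        moserField (fun _ : Unit => fib (c t) x) ((), s) w := fun s w =>
      fibField_eq (hc.differentiable t) s x w
    have hrpt : ∀ s : Icc (0 : ℝ) 1, r s = pt (xL x) (yL x) (wL (r s)) := by
      intro s
      rw [hr s]
      exact hpt (t, s) x
    have hYd : ∀ (s : Icc (0 : ℝ) 1) w, HasFDerivAt (fun w => fibField (c t) s (pt (xL x) (yL x) w))
        ((fderiv ℝ (Y (t, s)) (pt (xL x) (yL x) w)).comp eL) w := by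
      intro s w
      exact (hYCF.differentiable (t, s) _).hasFDerivAt.comp w (hasFDerivAt_pt _ _ w)
    have h1 := moser_conservation (Ψ := fib (c t) x) (contDiff_fib (hc.contDiff t) x)
      (X := fun s w => fibField (c t) s (pt (xL x) (yL x) w))
      (fun s w => (hYd s w).differentiableAt)
      (fun s y w => by
        rw [hXf]
        exact moserField_spec hadm' ((), s) y w)
      (r := fun s => wL (r s)) (A := fun s => (wL.comp (A s)).comp eL)
      (fun s => by
        have h2 := (wL : Phase (n + 1) →L[ℝ] Phase n).hasFDerivAt.comp_hasDerivAt (s : ℝ) (hrd s)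
        have h3 : wL (X (t, s) (r s)) = fibField (c t) s (pt (xL x) (yL x) (wL (r s))) := by
          rw [← hrpt s]
          exact wL_eL _
        rw [h3] at h2
        exact h2)
      (fun s => by
        have h2 : HasDerivAt (fun s => (wL.comp (A s)).comp eL)
            ((wL.comp ((fderiv ℝ (X (t, s)) (r s)).comp (A s))).comp
              (eL : Phase n →L[ℝ] Phase (n + 1))) (s : ℝ) := by
          have h3 := ((ContinuousLinearMap.compL ℝ (Phase (n + 1)) (Phase (n + 1)) (Phase n)
            wL).hasFDerivAt.comp_hasDerivAt (s : ℝ) (hAd s))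
          have h4 := ((ContinuousLinearMap.compL ℝ (Phase n) (Phase (n + 1)) (Phase n)).flip
            eL).hasFDerivAt.comp_hasDerivAt (s : ℝ) h3
          exact h4
        refine h2.congr_deriv ?_
        ext1 α
        have h5 : A s (eL α) = eL (wL (A s (eL α))) := by
          rw [hA s]
          exact hzd (t, s) x α
        simp only [ContinuousLinearMap.comp_apply]
        rw [h5]
        have h6 : ∀ β : Phase n, wL (fderiv ℝ (X (t, s)) (r s) (eL β)) =
            fderiv ℝ (fun w => fibField (c t) s (pt (xL x) (yL x) w)) (wL (r s)) β := by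
          intro β
          have h7 : fderiv ℝ (X (t, s)) (r s) = eL.comp (fderiv ℝ (Y (t, s)) (r s)) :=
            (eL.hasFDerivAt.comp (r s) (hYCF.differentiable (t, s) (r s)).hasFDerivAt).fderiv
          rw [h7, (hYd s (wL (r s))).fderiv, ← hrpt s]
          simp
        rw [h6, wL_eL])
      (by
        ext1 α
        simp only [hA0, ContinuousLinearMap.comp_apply, ContinuousLinearMap.id_apply, wL_eL])
      v w s
    simp only [ContinuousLinearMap.comp_apply] at h1
    rw [fderiv_fib (hc.differentiable t), ← hrpt s, hr s, hA s] at h1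
    exact h1
  -- the new fibre maps
  set C' : T × Icc (0 : ℝ) 1 → Phase (n + 1) → Phase n := fun q p =>
    (wL (ρ q p) - wL p) + c q.1 (ρ q p) with hC'
  have hC'CF : CF C' := ((hρ.clm wL).sub (CF.const wL.contDiff)).add
    ((hc.base continuous_fst).comp hρ)
  have hC'D : ∀ q p α, fibD (C' q) p α =
      fibD (c q.1) (ρ q p) (wL (fderiv ℝ (ρ q) p (eL α))) := by
    intro q p α
    have h1 : HasFDerivAt (C' q) ((wL.comp (fderiv ℝ (ρ q) p) - wL) +
        (fderiv ℝ (c q.1) (ρ q p)).comp (fderiv ℝ (ρ q) p)) p :=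
      ((wL.hasFDerivAt.comp p (hρ.differentiable q p).hasFDerivAt).sub wL.hasFDerivAt).add
        ((hc.differentiable q.1 _).hasFDerivAt.comp p (hρ.differentiable q p).hasFDerivAt)
    have h2 := hzd q p α
    rw [fibD, h1.fderiv, fibD]
    simp only [add_apply, ContinuousLinearMap.comp_apply, ContinuousLinearMap.id_apply,
      sub_apply, wL_eL]
    rw [← h2]
    abel
  refine ⟨C', hC'CF, ?_, ?_, ?_, ?_, ?_⟩
  · intro q p hp
    simp only [hC']
    rw [hfix p (hX0 p hp) q, hc0 q.1 p hp, sub_self, add_zero]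
  · intro t p
    have h1 : ρ (t, ⟨0, left_mem_Icc.2 zero_le_one⟩) p = p := by
      rw [heq]
      simp
    simp only [hC', h1, sub_self, zero_add]
  · rintro ⟨t, s⟩ p
    have h1 : fibD (C' (t, s)) p = (fibD (c t) (ρ (t, s) p)).comp
        ((wL.comp (fderiv ℝ (ρ (t, s)) p)).comp eL) := by
      ext1 α
      rw [hC'D]
      rfl
    rw [h1]
    exact admissible_moser s.2 (hadm t _) (fun v w => hcons t s p v w)
  · intro t p α β
    rw [hC'D, hC'D]
    have h1 := hcons t ⟨1, right_mem_Icc.2 zero_le_one⟩ p α β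
    simp only [sub_self, zero_mul, one_mul, zero_add] at h1
    exact h1
  · intro t ht s p
    have h1 : ρ (t, s) p = p := by
      rw [heq]
      have h2 : ∀ (s : Icc (0 : ℝ) 1) y, X (t, s) y = 0 := by
        intro s y
        simp only [hX, hY]
        rw [fibField_eq_zero (ht y), map_zero]
      simp [h2]
    simp only [hC', h1, ht, sub_self, add_zero]

end Pool.Agent.Helper42
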