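import Mathlib
import Pool.Agent.Helper17.CFInt
import Pool.Agent.Helper42.Susp.Mollify

set_option maxSynthPendingDepth 3

open scoped ContDiff Topology unitInterval
open Set Function Filter MeasureTheory

namespace Pool.Agent.Helper42

open Pool.Agent.Helper17

variable {n : ℕ}

/-- The complement of a ball is connected in dimension at least two. -/
lemma isPreconnected_norm_gt (hn : 0 < n) {R : ℝ} (hR : 0 ≤ R) :
    IsPreconnected {w : Phase n | R < ‖w‖} := by
  have hrank : 1 < Module.rank ℝ (Phase n) := by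
    rw [← Module.finrank_eq_rank, finrank_euclideanSpace]
    simp only [Fintype.card_sum, Fintype.card_fin]
    have : 1 < n + n := by omega
    exact_mod_cast this
  have h1 : IsPreconnected (Metric.sphere (0 : Phase n) 1) :=
    isPreconnected_sphere hrank 0 1
  have h2 : IsPreconnected (Metric.sphere (0 : Phase n) 1 ×ˢ Ioi R) := h1.prod isPreconnected_Ioi
  have h3 : {w : Phase n | R < ‖w‖} =
      (fun q : Phase n × ℝ => q.2 • q.1) '' (Metric.sphere (0 : Phase n) 1 ×ˢ Ioi R) := by
    ext w
    constructor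
    · intro hw
      have hw0 : 0 < ‖w‖ := lt_of_le_of_lt hR hw
      refine ⟨(‖w‖⁻¹ • w, ‖w‖), ⟨?_, hw⟩, ?_⟩
      · rw [mem_sphere_zero_iff_norm]
        change ‖‖w‖⁻¹ • w‖ = 1
        rw [norm_smul, norm_inv, norm_norm, inv_mul_cancel₀ hw0.ne']
      · change ‖w‖ • (‖w‖⁻¹ • w) = w
        rw [smul_smul, mul_inv_cancel₀ hw0.ne', one_smul]
    · rintro ⟨⟨u, r⟩, ⟨hu, hr⟩, rfl⟩
      rw [mem_sphere_zero_iff_norm] at hu
      have hr' : R < r := hr
      change R < ‖r • u‖
      rw [norm_smul, Real.norm_eq_abs, abs_of_nonneg (hR.trans hr'.le)]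
      simp only at hu
      rw [hu, mul_one]
      exact hr'
  rw [h3]
  exact h2.image _ (continuous_snd.smul continuous_fst).continuousOn

/-- A function with zero derivative outside a ball is constant there. -/
lemma eq_of_fderiv_zero_outside (hn : 0 < n) {R : ℝ} (hR : 0 ≤ R) {s : Phase n → ℝ}
    (hs : ∀ w, R < ‖w‖ → HasFDerivAt s (0 : Phase n →L[ℝ] ℝ) w) {w w' : Phase n}
    (hw : R < ‖w‖) (hw' : R < ‖w'‖) : s w = s w' := by
  have ho : IsOpen {w : Phase n | R < ‖w‖} := isOpen_lt continuous_const continuous_norm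
  exact ho.is_const_of_fderiv_eq_zero (𝕜 := ℝ) (isPreconnected_norm_gt hn hR)
    (fun x hx => (hs x hx).differentiableAt.differentiableWithinAt)
    (fun x hx => (hs x hx).fderiv) hw hw'

lemma exists_norm_eq (hn : 0 < n) {R : ℝ} (hR : 0 ≤ R) : ∃ w : Phase n, ‖w‖ = R := by
  refine ⟨R • EuclideanSpace.single (Sum.inl ⟨0, hn⟩) (1 : ℝ), ?_⟩
  rw [norm_smul, Real.norm_eq_abs, abs_of_nonneg hR]
  simp

/-- Compactly supported primitives of families of closed fibrewise one-forms. -/
theorem exists_fibre_primitive (hn : 0 < n) {T : Type} [TopologicalSpace T]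
    {α : T → Phase (n + 1) → (Phase n →L[ℝ] ℝ)} (hα : CF α) {R : ℝ} (hR : 0 ≤ R)
    (hα0 : ∀ t p, R < ‖p‖ → α t p = 0)
    (hcl : ∀ t p u v, fderiv ℝ (α t) p (eL u) v = fderiv ℝ (α t) p (eL v) u) :
    ∃ g : T → Phase (n + 1) → ℝ, CF g ∧ (∀ t p, 3 * R < ‖p‖ → g t p = 0) ∧
      (∀ t p u, fderiv ℝ (g t) p (eL u) = α t p u) ∧
      (∀ t, (∀ p, α t p = 0) → ∀ p, g t p = 0) := by
  obtain ⟨w₀, hw₀⟩ := exists_norm_eq hn (R := R + 1) (by linarith)
  set m : ℝ → Phase (n + 1) → Phase (n + 1) := fun τ p => pt (xL p) (yL p) (τ • wL p) with hm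
  have hmCF : CF m := by
    have h1 : CF (fun (_ : ℝ) (p : Phase (n + 1)) => xL p • (ex : Phase (n + 1)) +
        yL p • (ey : Phase (n + 1))) :=
      CF.const ((xL.contDiff.smul contDiff_const).add (yL.contDiff.smul contDiff_const))
    have h2 : CF (fun (τ : ℝ) (p : Phase (n + 1)) => eL (τ • wL p)) :=
      ((CF.param continuous_id).smul (CF.const wL.contDiff)).clm eL
    exact h1.add h2
  set g₀ : T → Phase (n + 1) → ℝ := fun t p =>
    ∫ τ in Icc (0 : ℝ) 1, α t (m τ p) (wL p) ∂(volume.restrict (Icc (0 : ℝ) 1)) with hg₀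
  have hg₀CF : CF g₀ := by
    apply CF.setIntegral isCompact_Icc (volume.restrict (Icc (0 : ℝ) 1))
      (F := fun (q : T × ℝ) p => α q.1 (m q.2 p) (wL p))
    exact ((hα.base continuous_fst).comp (hmCF.base continuous_snd)).clm_apply
      (CF.const wL.contDiff)
  -- fibre primitives
  have hfib : ∀ t (z : ℝ × ℝ), ∃ s : Phase n → ℝ,
      (∀ w, HasFDerivAt s (α t (pt z.1 z.2 w)) w) ∧
      ∀ w, g₀ t (pt z.1 z.2 w) = s w - s 0 := by
    intro t z
    have hd : ∀ w, HasFDerivAt (fun w => α t (pt z.1 z.2 w))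
        ((fderiv ℝ (α t) (pt z.1 z.2 w)).comp eL) w := fun w =>
      (hα.differentiable t _).hasFDerivAt.comp w (eL.hasFDerivAt.const_add _)
    obtain ⟨s, hs⟩ := convex_univ.exists_forall_hasFDerivAt_of_fderiv_symmetric
      (s := (univ : Set (Phase n))) isOpen_univ
      (fun w _ => (hd w).differentiableAt.differentiableWithinAt)
      (fun w _ u v => by
        rw [(hd w).fderiv]
        exact hcl t _ u v)
    refine ⟨s, fun w => hs w (mem_univ w), fun w => ?_⟩
    have h1 : ∀ τ : ℝ, HasDerivAt (fun τ : ℝ => s (τ • w)) (α t (pt z.1 z.2 (τ • w)) w) τ := by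
      intro τ
      have h2 : HasDerivAt (fun τ : ℝ => τ • w) w τ := by
        have := (hasDerivAt_id τ).smul_const w
        simpa using this
      exact (hs (τ • w) (mem_univ _)).comp_hasDerivAt τ h2
    have hc : Continuous (fun τ : ℝ => α t (pt z.1 z.2 (τ • w)) w) := by
      have h3 : Continuous (fun τ : ℝ => pt z.1 z.2 (τ • w)) := by
        unfold pt
        exact continuous_const.add (eL.continuous.comp (continuous_id.smul continuous_const))
      have h4 : Continuous (fun τ : ℝ => α t (pt z.1 z.2 (τ • w))) :=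
        hα.continuous.comp (continuous_const.prodMk h3)
      exact h4.clm_apply continuous_const
    have h5 := intervalIntegral.integral_eq_sub_of_hasDerivAt (a := 0) (b := 1)
      (fun τ _ => h1 τ) (hc.intervalIntegrable _ _)
    rw [intervalIntegral.integral_of_le zero_le_one, ← integral_Icc_eq_integral_Ioc] at h5
    simp only [one_smul, zero_smul] at h5
    rw [← h5]
    simp only [hg₀, hm, xL_pt, yL_pt, wL_pt]
    rw [Measure.restrict_restrict measurableSet_Icc, inter_self]
  set g : T → Phase (n + 1) → ℝ := fun t p => g₀ t p - g₀ t (pt (xL p) (yL p) w₀) with hg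
  have hgCF : CF g := by
    apply hg₀CF.sub
    apply hg₀CF.comp
    exact CF.const (((xL.contDiff.smul contDiff_const).add
      (yL.contDiff.smul contDiff_const)).add contDiff_const)
  refine ⟨g, hgCF, ?_, ?_, ?_⟩
  · intro t p hp
    obtain ⟨s, hs, hs'⟩ := hfib t (xL p, yL p)
    have e1 : g t p = s (wL p) - s w₀ := by
      have h1 := hs' (wL p)
      have h2 := hs' w₀
      simp only [pt_eta] at h1
      simp only [hg]
      rw [h1, h2]
      ring
    rw [e1, sub_eq_zero]
    by_cases hw : R < ‖wL p‖
    · apply eq_of_fderiv_zero_outside hn hR (fun w hw => ?_) hw (by rw [hw₀]; linarith)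
      have h3 : α t (pt (xL p) (yL p) w) = 0 := by
        apply hα0
        have h4 := norm_wL_le (pt (xL p) (yL p) w)
        rw [wL_pt] at h4
        linarith
      have h5 := hs w
      rw [h3] at h5
      exact h5
    · -- the whole fibre is outside the support
      have hz : R < ‖zL p‖ := by
        have := norm_le_of_zL p
        linarith [not_lt.1 hw]
      have h3 : ∀ w, α t (pt (xL p) (yL p) w) = 0 := by
        intro w
        apply hα0
        have h4 : ‖zL (pt (xL p) (yL p) w)‖ ≤ ‖pt (xL p) (yL p) w‖ := by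
          rw [zL_apply, Prod.norm_def]
          exact max_le (abs_xL_le _) (abs_yL_le _)
        have h5 : zL (pt (xL p) (yL p) w) = zL p := by rw [zL_apply, zL_apply, xL_pt, yL_pt]
        rw [h5] at h4
        linarith
      have h4 : ∀ w, HasFDerivAt s (0 : Phase n →L[ℝ] ℝ) w := by
        intro w
        have := hs w
        rwa [h3 w] at this
      exact is_const_of_fderiv_eq_zero (𝕜 := ℝ) (fun w => (h4 w).differentiableAt)
        (fun w => (h4 w).fderiv) _ _
  · intro t p u
    obtain ⟨s, hs, hs'⟩ := hfib t (xL p, yL p)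
    have h1 : ∀ α : Phase n, g t (p + eL α) = s (wL p + α) - s w₀ := by
      intro α
      have h2 := hs' (wL p + α)
      have h3 := hs' w₀
      have h4 : p + eL α = pt (xL p) (yL p) (wL p + α) := by
        apply ext_split <;> simp
      simp only [hg]
      rw [h4]
      simp only [xL_pt, yL_pt]
      rw [h2, h3]
      ring
    have h2 : HasFDerivAt (fun α : Phase n => g t (p + eL α)) ((fderiv ℝ (g t) p).comp eL) 0 := by
      refine HasFDerivAt.comp (g := g t) (f := fun α : Phase n => p + eL α) 0 ?_
        (eL.hasFDerivAt.const_add p)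
      rw [map_zero, add_zero]
      exact (hgCF.differentiable t p).hasFDerivAt
    have h3 : HasFDerivAt (fun α : Phase n => s (wL p + α) - s w₀)
        ((α t p).comp (ContinuousLinearMap.id ℝ _)) 0 := by
      have h4 : HasFDerivAt (fun α : Phase n => s (wL p + α))
          ((α t p).comp (ContinuousLinearMap.id ℝ _)) 0 := by
        refine HasFDerivAt.comp (g := s) (f := fun α : Phase n => wL p + α) 0 ?_
          ((hasFDerivAt_id _).const_add _)
        rw [add_zero]
        have h5 := hs (wL p)
        rwa [pt_eta] at h5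
      exact h4.sub_const _
    rw [show (fun α : Phase n => g t (p + eL α)) = fun α => s (wL p + α) - s w₀ from
      funext h1] at h2
    have h4 := h2.unique h3
    have h5 := congrArg (fun L => L u) h4
    simpa using h5
  · intro t ht p
    have h1 : ∀ p, g₀ t p = 0 := by
      intro p
      simp only [hg₀, ht]
      simp
    simp only [hg, h1, sub_self]

end Pool.Agent.Helper42
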