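import Mathlib
import Pool.Agent.Helper42.Susp.FibrePrim
import Pool.Agent.Helper42.Susp.FibreMoser

set_option maxSynthPendingDepth 3

open scoped ContDiff Topology unitInterval
open Set Function Filter MeasureTheory

namespace Pool.Agent.Helper42

open Pool.Agent.Helper17

variable {n : ℕ}

lemma second_symm {E' : Type} [NormedAddCommGroup E'] [NormedSpace ℝ E']
    {f : Phase (n + 1) → E'} (hf : ContDiff ℝ ∞ f) (p u v : Phase (n + 1)) :
    fderiv ℝ (fderiv ℝ f) p u v = fderiv ℝ (fderiv ℝ f) p v u :=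
  (hf.contDiffAt (x := p)).isSymmSndFDerivAt
    (by rw [minSmoothness_of_isRCLikeNormedField]; exact WithTop.coe_le_coe.2 le_top) u v

/-- The closed one-form in the fibres attached to a direction `e`. -/
noncomputable def fibForm (c : Phase (n + 1) → Phase n) (e p : Phase (n + 1)) : Phase n →L[ℝ] ℝ :=
  (omegaB n (fderiv ℝ c p e)).comp (fibD c p)

lemma fibForm_apply (c : Phase (n + 1) → Phase n) (e p : Phase (n + 1)) (β : Phase n) :
    fibForm c e p β = omegaStd (fderiv ℝ c p e) (fibD c p β) := rfl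

lemma fibD_apply (c : Phase (n + 1) → Phase n) (p : Phase (n + 1)) (β : Phase n) :
    fibD c p β = β + fderiv ℝ c p (eL β) := rfl

lemma CF_fibForm {T : Type} [TopologicalSpace T] {c : T → Phase (n + 1) → Phase n} (hc : CF c)
    (e : Phase (n + 1)) : CF (fun t p => fibForm (c t) e p) :=
  CF.clm_comp ((hc.fderiv.clm_apply (CF.const (contDiff_const (c := e)))).clm (omegaB n))
    (CF_fibD hc)

section

variable {c : Phase (n + 1) → Phase n} (hc : ContDiff ℝ ∞ c)

include hc

lemma hasFDerivAt_fderiv_apply (p e : Phase (n + 1)) :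
    HasFDerivAt (fun p => fderiv ℝ c p e) ((fderiv ℝ (fderiv ℝ c) p).flip e) p := by
  have h1 : HasFDerivAt (fderiv ℝ c) (fderiv ℝ (fderiv ℝ c) p) p :=
    ((hc.fderiv_right (m := ∞) (by simp)).differentiable (by simp) p).hasFDerivAt
  have := h1.clm_apply (hasFDerivAt_const e p)
  simpa using this

lemma hasFDerivAt_fibD_apply (p : Phase (n + 1)) (β : Phase n) :
    HasFDerivAt (fun p => fibD c p β) ((fderiv ℝ (fderiv ℝ c) p).flip (eL β)) p :=
  (hasFDerivAt_fderiv_apply hc p (eL β)).const_add β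

lemma fderiv_fibForm (e p u : Phase (n + 1)) (v : Phase n) :
    fderiv ℝ (fibForm c e) p u v =
      omegaStd (fderiv ℝ (fderiv ℝ c) p u e) (fibD c p v) +
      omegaStd (fderiv ℝ c p e) (fderiv ℝ (fderiv ℝ c) p u (eL v)) := by
  have hCF : CF (fun (_ : Unit) p => fibForm c e p) := CF_fibForm (CF.const hc) e
  have h0 : HasFDerivAt (fibForm c e) (fderiv ℝ (fibForm c e) p) p :=
    (hCF.differentiable () p).hasFDerivAt
  have h1 : HasFDerivAt (fun p => fibForm c e p v) ((fderiv ℝ (fibForm c e) p).flip v) p := by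
    have := h0.clm_apply (hasFDerivAt_const v p)
    simpa using this
  have h2 : HasFDerivAt (fun p => omegaB n (fderiv ℝ c p e))
      ((omegaB n).comp ((fderiv ℝ (fderiv ℝ c) p).flip e)) p :=
    (omegaB n).hasFDerivAt.comp p (hasFDerivAt_fderiv_apply hc p e)
  have h3 := h2.clm_apply (hasFDerivAt_fibD_apply hc p v)
  have h4 := congrArg (fun L => L u) (h1.unique h3)
  simp only [ContinuousLinearMap.flip_apply, add_apply, ContinuousLinearMap.comp_apply,
    omegaB_apply] at h4
  rw [h4]
  ring

lemma fibre_symp_deriv (hs : ∀ p α β, omegaStd (fibD c p α) (fibD c p β) = omegaStd α β)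
    (p e : Phase (n + 1)) (α β : Phase n) :
    omegaStd (fderiv ℝ (fderiv ℝ c) p e (eL α)) (fibD c p β) +
      omegaStd (fibD c p α) (fderiv ℝ (fderiv ℝ c) p e (eL β)) = 0 := by
  have h1 : HasFDerivAt (fun p => omegaB n (fibD c p α))
      ((omegaB n).comp ((fderiv ℝ (fderiv ℝ c) p).flip (eL α))) p :=
    (omegaB n).hasFDerivAt.comp p (hasFDerivAt_fibD_apply hc p α)
  have h2 := h1.clm_apply (hasFDerivAt_fibD_apply hc p β)
  have h3 : (fun p => (omegaB n (fibD c p α)) (fibD c p β)) = fun _ => omegaStd α β :=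
    funext fun p => hs p α β
  rw [h3] at h2
  have h4 := congrArg (fun L => L e) (h2.unique (hasFDerivAt_const _ p))
  simp only [ContinuousLinearMap.flip_apply, add_apply, ContinuousLinearMap.comp_apply,
    omegaB_apply, zero_apply] at h4
  linarith

lemma fibForm_closed (hs : ∀ p α β, omegaStd (fibD c p α) (fibD c p β) = omegaStd α β)
    (e p : Phase (n + 1)) (u v : Phase n) :
    fderiv ℝ (fibForm c e) p (eL u) v = fderiv ℝ (fibForm c e) p (eL v) u := by
  rw [fderiv_fibForm hc, fderiv_fibForm hc, second_symm hc p (eL u) e, second_symm hc p (eL v) e,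
    second_symm hc p (eL v) (eL u)]
  have h1 := fibre_symp_deriv hc hs p e u v
  have h2 := omegaStd_swap (fibD c p u) (fderiv ℝ (fderiv ℝ c) p e (eL v))
  linarith

end

/-- The complementary functions of a family of fibrewise symplectic maps. -/
theorem exists_ab (hn : 0 < n) {T : Type} [TopologicalSpace T] {c : T → Phase (n + 1) → Phase n}
    (hc : CF c) {R : ℝ} (hR : 0 ≤ R) (hc0 : ∀ t p, R < ‖p‖ → c t p = 0)
    (hs : ∀ t p α β, omegaStd (fibD (c t) p α) (fibD (c t) p β) = omegaStd α β) :
    ∃ a b : T → Phase (n + 1) → ℝ, CF a ∧ CF b ∧ (∀ t p, 3 * R < ‖p‖ → a t p = 0) ∧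
      (∀ t p, 3 * R < ‖p‖ → b t p = 0) ∧
      (∀ t p u v, xL u * fderiv ℝ (b t) p v - xL v * fderiv ℝ (b t) p u +
        kap (fderiv ℝ (c t) p) u v = fderiv ℝ (a t) p u * yL v - fderiv ℝ (a t) p v * yL u) ∧
      (∀ t, (∀ p, c t p = 0) → ∀ p, a t p = 0 ∧ b t p = 0) := by
  have hform0 : ∀ e t p, R < ‖p‖ → fibForm (c t) e p = 0 := by
    intro e t p hp
    have h1 : fderiv ℝ (c t) p = 0 := by
      have h2 : c t =ᶠ[𝓝 p] fun _ => 0 := by
        filter_upwards [(isOpen_lt continuous_const continuous_norm).mem_nhds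
          (show p ∈ {p : Phase (n + 1) | R < ‖p‖} from hp)] with q hq
        exact hc0 t q hq
      rw [h2.fderiv_eq]
      exact fderiv_const_apply 0
    ext β
    rw [fibForm_apply, h1]
    simp [omegaStd_zero_left]
  have hcd : ∀ t p, R < ‖p‖ → fderiv ℝ (c t) p = 0 := by
    intro t p hp
    have h2 : c t =ᶠ[𝓝 p] fun _ => 0 := by
      filter_upwards [(isOpen_lt continuous_const continuous_norm).mem_nhds
        (show p ∈ {p : Phase (n + 1) | R < ‖p‖} from hp)] with q hq
      exact hc0 t q hq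
    rw [h2.fderiv_eq]
    exact fderiv_const_apply 0
  obtain ⟨gx, hgx, hgx0, hgxd, hgxT⟩ := exists_fibre_primitive hn (CF_fibForm hc ex) hR
    (hform0 ex) (fun t p u v => fibForm_closed (hc.contDiff t) (hs t) ex p u v)
  obtain ⟨gy, hgy, hgy0, hgyd, hgyT⟩ := exists_fibre_primitive hn (CF_fibForm hc ey) hR
    (hform0 ey) (fun t p u v => fibForm_closed (hc.contDiff t) (hs t) ey p u v)
  -- the integrability condition
  have hD : ∀ t p, -fderiv ℝ (gx t) p ey + omegaStd (fderiv ℝ (c t) p ex) (fderiv ℝ (c t) p ey) +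
      fderiv ℝ (gy t) p ex = 0 := by
    intro t p
    have hcs := hc.contDiff t
    have key : ∀ (g : Phase (n + 1) → ℝ) (_ : ContDiff ℝ ∞ g) (e e' : Phase (n + 1))
        (_ : ∀ p u, fderiv ℝ g p (eL u) = fibForm (c t) e p u) (p : Phase (n + 1)) (β : Phase n),
        fderiv ℝ (fderiv ℝ g) p (eL β) e' = fderiv ℝ (fibForm (c t) e) p e' β := by
      intro g hg e e' hge p β
      rw [second_symm hg]
      have h1 : HasFDerivAt (fderiv ℝ g) (fderiv ℝ (fderiv ℝ g) p) p :=
        ((hg.fderiv_right (m := ∞) (by simp)).differentiable (by simp) p).hasFDerivAt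
      have h2 : HasFDerivAt (fun p => fderiv ℝ g p (eL β))
          ((fderiv ℝ (fderiv ℝ g) p).flip (eL β)) p := by
        have := h1.clm_apply (hasFDerivAt_const (eL β) p)
        simpa using this
      have h3 : (fun p => fderiv ℝ g p (eL β)) = fun p => fibForm (c t) e p β :=
        funext fun p => hge p β
      rw [h3] at h2
      have h4 : HasFDerivAt (fibForm (c t) e) (fderiv ℝ (fibForm (c t) e) p) p :=
        ((CF_fibForm hc e).differentiable t p).hasFDerivAt
      have h5 : HasFDerivAt (fun p => fibForm (c t) e p β)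
          ((fderiv ℝ (fibForm (c t) e) p).flip β) p := by
        have := h4.clm_apply (hasFDerivAt_const β p)
        simpa using this
      have h6 := congrArg (fun L => L e') (h2.unique h5)
      simpa using h6
    set D : Phase (n + 1) → ℝ := fun p => -fderiv ℝ (gx t) p ey +
      omegaStd (fderiv ℝ (c t) p ex) (fderiv ℝ (c t) p ey) + fderiv ℝ (gy t) p ex with hDdef
    have hd1 : ∀ (g : Phase (n + 1) → ℝ) (_ : ContDiff ℝ ∞ g) (e p : Phase (n + 1)),
        HasFDerivAt (fun p => fderiv ℝ g p e) ((fderiv ℝ (fderiv ℝ g) p).flip e) p := by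
      intro g hg e p
      have h1 : HasFDerivAt (fderiv ℝ g) (fderiv ℝ (fderiv ℝ g) p) p :=
        ((hg.fderiv_right (m := ∞) (by simp)).differentiable (by simp) p).hasFDerivAt
      have := h1.clm_apply (hasFDerivAt_const e p)
      simpa using this
    have hΩ : ∀ p, HasFDerivAt (fun p => (omegaB n (fderiv ℝ (c t) p ex)) (fderiv ℝ (c t) p ey))
        (((omegaB n) (fderiv ℝ (c t) p ex)).comp ((fderiv ℝ (fderiv ℝ (c t)) p).flip ey) +
          (((omegaB n).comp ((fderiv ℝ (fderiv ℝ (c t)) p).flip ex)).flip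
            (fderiv ℝ (c t) p ey))) p := by
      intro p
      exact ((omegaB n).hasFDerivAt.comp p (hasFDerivAt_fderiv_apply hcs p ex)).clm_apply
        (hasFDerivAt_fderiv_apply hcs p ey)
    have hDd : ∀ p, HasFDerivAt D (-(fderiv ℝ (fderiv ℝ (gx t)) p).flip ey +
        (((omegaB n) (fderiv ℝ (c t) p ex)).comp ((fderiv ℝ (fderiv ℝ (c t)) p).flip ey) +
          (((omegaB n).comp ((fderiv ℝ (fderiv ℝ (c t)) p).flip ex)).flip
            (fderiv ℝ (c t) p ey))) + (fderiv ℝ (fderiv ℝ (gy t)) p).flip ex) p := by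
      intro p
      exact (((hd1 (gx t) (hgx.contDiff t) ey p).neg).add (hΩ p)).add
        (hd1 (gy t) (hgy.contDiff t) ex p)
    have hfz : ∀ p (β : Phase n), fderiv ℝ D p (eL β) = 0 := by
      intro p β
      rw [(hDd p).fderiv]
      simp only [add_apply, neg_apply, ContinuousLinearMap.flip_apply,
        ContinuousLinearMap.comp_apply, omegaB_apply]
      rw [key (gx t) (hgx.contDiff t) ex ey (hgxd t) p β,
        key (gy t) (hgy.contDiff t) ey ex (hgyd t) p β, fderiv_fibForm hcs, fderiv_fibForm hcs,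
        second_symm hcs p (eL β) ey, second_symm hcs p (eL β) ex, second_symm hcs p ex ey]
      have h1 := omegaStd_swap (fderiv ℝ (c t) p ey) (fderiv ℝ (fderiv ℝ (c t)) p ex (eL β))
      linarith
    have hconst : ∀ w, D (pt (xL p) (yL p) w) = D (pt (xL p) (yL p) (wL p)) := by
      intro w
      have h1 : ∀ w, HasFDerivAt (fun w => D (pt (xL p) (yL p) w)) (0 : Phase n →L[ℝ] ℝ) w := by
        intro w
        have h2 : HasFDerivAt (fun w => D (pt (xL p) (yL p) w))
            ((fderiv ℝ D (pt (xL p) (yL p) w)).comp eL) w :=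
          (hDd _).differentiableAt.hasFDerivAt.comp w (hasFDerivAt_pt _ _ w)
        have h3 : (fderiv ℝ D (pt (xL p) (yL p) w)).comp (eL : Phase n →L[ℝ] Phase (n + 1)) = 0 := by
          ext β
          exact hfz _ β
        rwa [h3] at h2
      exact is_const_of_fderiv_eq_zero (𝕜 := ℝ) (fun w => (h1 w).differentiableAt)
        (fun w => (h1 w).fderiv) _ _
    obtain ⟨w, hw⟩ := exists_norm_eq hn (R := 3 * R + 1) (by linarith)
    have h1 := hconst w
    rw [pt_eta] at h1
    change D p = 0
    rw [← h1]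
    have hnorm : 3 * R < ‖pt (xL p) (yL p) w‖ := by
      have h4 := norm_wL_le (pt (xL p) (yL p) w)
      rw [wL_pt] at h4
      linarith
    have hzero : ∀ (g : Phase (n + 1) → ℝ) (_ : ∀ p, 3 * R < ‖p‖ → g p = 0),
        fderiv ℝ g (pt (xL p) (yL p) w) = 0 := by
      intro g hg
      have h2 : g =ᶠ[𝓝 (pt (xL p) (yL p) w)] fun _ => 0 := by
        filter_upwards [(isOpen_lt continuous_const continuous_norm).mem_nhds
          (show pt (xL p) (yL p) w ∈ {p : Phase (n + 1) | 3 * R < ‖p‖} from hnorm)] with q hq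
        exact hg q hq
      rw [h2.fderiv_eq]
      exact fderiv_const_apply 0
    simp only [hDdef]
    rw [hzero _ (hgx0 t), hzero _ (hgy0 t), hcd t _ (by linarith)]
    simp [omegaStd_zero_left]
  refine ⟨fun t p => -gy t p, fun t p => -gx t p, hgy.clm (-(ContinuousLinearMap.id ℝ ℝ)),
    hgx.clm (-(ContinuousLinearMap.id ℝ ℝ)), fun t p hp => by
      beta_reduce; rw [hgy0 t p hp, neg_zero], fun t p hp => by
      beta_reduce; rw [hgx0 t p hp, neg_zero], ?_, ?_⟩
  · intro t p u v
    have hb : ∀ v, fderiv ℝ (fun p => -gx t p) p v = -fderiv ℝ (gx t) p v := by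
      intro v
      rw [fderiv_fun_neg]
      rfl
    have ha : ∀ v, fderiv ℝ (fun p => -gy t p) p v = -fderiv ℝ (gy t) p v := by
      intro v
      rw [fderiv_fun_neg]
      rfl
    have hbs : ∀ (L : Phase (n + 1) →L[ℝ] ℝ) v, L v = xL v * L ex + yL v * L ey +
        L (eL (wL v)) := by
      intro L v
      conv_lhs => rw [← split_eq v]
      rw [map_add, map_add, map_smul, map_smul, smul_eq_mul, smul_eq_mul]
    set C := fderiv ℝ (c t) p with hC
    have k1 : kap C ex ey = omegaStd (C ex) (C ey) := by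
      rw [kap, wL_ex, wL_ey, zero_add, zero_add, omegaStd_zero_left, sub_zero]
    have kanti : ∀ u v, kap C u v = -kap C v u := by
      intro u v
      rw [kap, kap, omegaStd_swap (wL u + C u), omegaStd_swap (wL u)]
      ring
    have kself : ∀ u, kap C u u = 0 := by
      intro u
      rw [kap, omegaStd_self, omegaStd_self, sub_zero]
    have kx : ∀ β : Phase n, kap C ex (eL β) = fderiv ℝ (gx t) p (eL β) := by
      intro β
      rw [hgxd, fibForm_apply, fibD_apply, kap, wL_ex, wL_eL, zero_add, omegaStd_zero_left,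
        sub_zero]
    have ky : ∀ β : Phase n, kap C ey (eL β) = fderiv ℝ (gy t) p (eL β) := by
      intro β
      rw [hgyd, fibForm_apply, fibD_apply, kap, wL_ey, wL_eL, zero_add, omegaStd_zero_left,
        sub_zero]
    have kw : ∀ α β : Phase n, kap C (eL α) (eL β) = 0 := by
      intro α β
      have h1 := hs t p α β
      rw [fibD_apply, fibD_apply] at h1
      rw [kap, wL_eL, wL_eL, h1, sub_self]
    have hk : kap C u v = (xL u * yL v - yL u * xL v) * kap C ex ey +
        xL u * kap C ex (eL (wL v)) - xL v * kap C ex (eL (wL u)) +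
        yL u * kap C ey (eL (wL v)) - yL v * kap C ey (eL (wL u)) := by
      conv_lhs => rw [← split_eq u, ← split_eq v]
      simp only [kap_add_left, kap_add_right, kap_smul_left, kap_smul_right, kself, kw]
      rw [kanti ey ex, kanti (eL (wL u)) ex, kanti (eL (wL u)) ey]
      ring
    rw [hk, k1, kx, kx, ky, ky, hb, hb, ha, ha, hbs (fderiv ℝ (gx t) p) v,
      hbs (fderiv ℝ (gx t) p) u, hbs (fderiv ℝ (gy t) p) v, hbs (fderiv ℝ (gy t) p) u]
    linear_combination (xL u * yL v - yL u * xL v) * hD t p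
  · intro t ht p
    have h1 : ∀ e p, fibForm (c t) e p = 0 := by
      intro e p
      have h2 : c t = fun _ => 0 := funext ht
      ext β
      rw [fibForm_apply, h2, fderiv_const_apply]
      simp [omegaStd_zero_left]
    constructor
    · beta_reduce
      rw [hgyT t (h1 ey) p, neg_zero]
    · beta_reduce
      rw [hgxT t (h1 ex) p, neg_zero]

end Pool.Agent.Helper42
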