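import Mathlib
import Pool.Agent.Helper42.Susp.MixedExists

set_option maxSynthPendingDepth 3

open scoped ContDiff Topology
open Set Function Filter MeasureTheory

namespace Pool.Agent.Helper42

open Pool.Agent.Helper17

variable {n : ℕ}

/-- Scaling of mixed data without positivity gives mixed data. -/
lemma mixed_scaled {T : Type} [TopologicalSpace T] {a b : T → Phase (n + 1) → ℝ}
    {c : T → Phase (n + 1) → Phase n} (ha : CF a) (hb : CF b) (hc : CF c) {R : ℝ}
    (ha0 : ∀ t p, R < ‖p‖ → a t p = 0) (hb0 : ∀ t p, R < ‖p‖ → b t p = 0)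
    (hc0 : ∀ t p, R < ‖p‖ → c t p = 0)
    (heq : ∀ t p u v, xL u * fderiv ℝ (b t) p v - xL v * fderiv ℝ (b t) p u +
        kap (fderiv ℝ (c t) p) u v = fderiv ℝ (a t) p u * yL v - fderiv ℝ (a t) p v * yL u)
    {l Ma : ℝ} (hl0 : 0 < l) (hl1 : l ≤ 1) (hMa : ∀ t p, ‖fderiv ℝ (a t) p‖ ≤ Ma)
    (hlM : l * Ma < 1) :
    Mixed (Metric.closedBall (0 : Phase (n + 1)) (R / l)) (fun t p => l * a t (Dl l p))
      (fun t p => l * b t (Dl l p)) (fun t p => c t (Dl l p)) := by
  have hout : ∀ p : Phase (n + 1), p ∉ Metric.closedBall (0 : Phase (n + 1)) (R / l) →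
      R < ‖Dl l p‖ := by
    intro p hp
    by_contra hneg
    have h1 : Dl l p ∉ Metric.closedBall (0 : Phase (n + 1)) R :=
      Dl_not_mem (K := Metric.closedBall (0 : Phase (n + 1)) R) Subset.rfl hl0 le_rfl hl1 hp
    exact h1 (mem_closedBall_zero_iff.2 (not_lt.1 hneg))
  have had : ∀ t p u, fderiv ℝ (fun p => l * a t (Dl l p)) p u =
      l * fderiv ℝ (a t) (Dl l p) (Dl l u) := by
    intro t p u
    rw [((hasFDerivAt_scaled (ha.differentiable t) l p).const_mul l).fderiv]
    rfl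
  have hbd : ∀ t p u, fderiv ℝ (fun p => l * b t (Dl l p)) p u =
      l * fderiv ℝ (b t) (Dl l p) (Dl l u) := by
    intro t p u
    rw [((hasFDerivAt_scaled (hb.differentiable t) l p).const_mul l).fderiv]
    rfl
  have hcd : ∀ t p, fderiv ℝ (fun p => c t (Dl l p)) p = (fderiv ℝ (c t) (Dl l p)).comp (Dl l) :=
    fun t p => (hasFDerivAt_scaled (hc.differentiable t) l p).fderiv
  refine ⟨(CF.param continuous_const).smul (CF_scaled ha continuous_id (l := fun _ => l)
    continuous_const), (CF.param continuous_const).smul (CF_scaled hb continuous_id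
    (l := fun _ => l) continuous_const), CF_scaled hc continuous_id (l := fun _ => l)
    continuous_const, ?_, ?_, ?_, ?_, ?_⟩
  · intro t p hp
    beta_reduce
    rw [ha0 t _ (hout p hp), mul_zero]
  · intro t p hp
    beta_reduce
    rw [hb0 t _ (hout p hp), mul_zero]
  · intro t p hp
    beta_reduce
    rw [hc0 t _ (hout p hp)]
  · intro t p
    rw [had, Dl_ex, map_smul, smul_eq_mul]
    have h1 : |fderiv ℝ (a t) (Dl l p) ex| ≤ Ma := by
      have := (fderiv ℝ (a t) (Dl l p)).le_opNorm ex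
      rw [norm_ex, mul_one, Real.norm_eq_abs] at this
      exact this.trans (hMa t _)
    have h2 := (abs_le.1 h1).1
    have h3 : -(l * Ma) ≤ l * fderiv ℝ (a t) (Dl l p) ex := by nlinarith
    have h4 : 0 ≤ Ma := (abs_nonneg _).trans h1
    nlinarith [mul_nonneg hl0.le h4]
  · intro t p u v
    rw [had, had, hbd, hbd, hcd, kap_comp_Dl]
    have h1 := heq t (Dl l p) (Dl l u) (Dl l v)
    simp only [xL_Dl, yL_Dl] at h1
    linear_combination h1

/-- Mixed data give a family of symplectomorphisms. -/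
theorem exists_symp_of_mixed {T : Type} [TopologicalSpace T] {K : Set (Phase (n + 1))}
    (hK : IsCompact K) {a b : T → Phase (n + 1) → ℝ} {c : T → Phase (n + 1) → Phase n}
    (h : Mixed K a b c) :
    ∃ f : C(T, SympCt (n + 1)),
      (∀ t p, (f t : Equiv.Perm (Phase (n + 1))) (p + a t p • ex) =
        p + b t p • ey + eL (c t p)) ∧
      (∀ t, Surjective (fun p => p + a t p • ex)) ∧
      (∀ t p, 0 < xL (fderiv ℝ (f t : Equiv.Perm (Phase (n + 1))) p ex)) ∧
      (∀ t, ∀ p ∉ K, (f t : Equiv.Perm (Phase (n + 1))) p = p) ∧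
      (∀ t, (∀ p, a t p = 0 ∧ b t p = 0 ∧ c t p = 0) → f t = 1) := by
  have hQe : ∀ t p, Qf 1 1 (a t) p = p + a t p • ex := by
    intro t p
    simp [Qf]
  have hNe : ∀ t p, Nf 1 1 (b t) (c t) p = p + b t p • ey + eL (c t p) := by
    intro t p
    simp [Nf]
  obtain ⟨G, hG, hGK, hGadm, hGQ, hQs⟩ := exists_quotient
    (Q := fun t => Qf 1 1 (a t)) (N := fun t => Nf 1 1 (b t) (c t))
    (CF_Qf h.ha continuous_id continuous_const continuous_const)
    (CF_Nf h.hb h.hc continuous_id continuous_const continuous_const) hK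
    (fun t p hp => by beta_reduce; rw [hQe, h.ha0 t p hp, zero_smul, add_zero])
    (fun t p hp => by
      beta_reduce
      rw [hNe, h.hb0 t p hp, h.hc0 t p hp, zero_smul, add_zero, map_zero, add_zero])
    (fun t p σ _ V hV => rel_of_theta_one h t zero_le_one le_rfl p σ V hV)
  have hQd : ∀ t p, DifferentiableAt ℝ (Qf 1 1 (a t)) p := fun t p =>
    (CF_Qf (θ := fun _ => 1) (l := fun _ => 1) h.ha continuous_id continuous_const
      continuous_const).differentiable t p
  have hchain : ∀ t p u, fderiv ℝ (G t) (Qf 1 1 (a t) p) (fderiv ℝ (Qf 1 1 (a t)) p u) =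
      fderiv ℝ (Nf 1 1 (b t) (c t)) p u := by
    intro t p u
    have h1 : HasFDerivAt (fun p => G t (Qf 1 1 (a t) p))
        ((fderiv ℝ (G t) (Qf 1 1 (a t) p)).comp (fderiv ℝ (Qf 1 1 (a t)) p)) p :=
      (hG.differentiable t _).hasFDerivAt.comp p (hQd t p).hasFDerivAt
    have h2 : (fun p => G t (Qf 1 1 (a t) p)) = Nf 1 1 (b t) (c t) := funext (hGQ t)
    rw [h2] at h1
    rw [h1.fderiv]
    rfl
  have hinj : ∀ t p, Injective (fderiv ℝ (Qf 1 1 (a t)) p) := by
    intro t p
    rw [injective_iff_map_eq_zero]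
    intro V hV
    apply rel_of_theta_one h t zero_le_one le_rfl p 0 V
    intro W
    rw [hV, omegaStd_zero_left]
    simp
  have hsymp : ∀ t x u v, omegaStd (fderiv ℝ (G t) x u) (fderiv ℝ (G t) x v) = omegaStd u v := by
    intro t x u v
    obtain ⟨p, rfl⟩ := hQs t x
    have hsurj : Surjective (fderiv ℝ (Qf 1 1 (a t)) p) :=
      LinearMap.surjective_of_injective
        (f := (fderiv ℝ (Qf 1 1 (a t)) p : Phase (n + 1) →ₗ[ℝ] Phase (n + 1))) (hinj t p)
    obtain ⟨u', rfl⟩ := hsurj u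
    obtain ⟨v', rfl⟩ := hsurj v
    rw [hchain, hchain, form_diff h t]
    ring
  set f : T → SympCt (n + 1) := fun t => mkSymp (G t) (hG.contDiff t) ⟨K, hK, hGK t⟩ (hsymp t)
    with hf
  have hfc : Continuous f := continuous_of_CF hG ⟨K, hK⟩ (fun t x hx => hGK t x hx)
    (fun t x => rfl)
  refine ⟨⟨f, hfc⟩, ?_, ?_, ?_, ?_, ?_⟩
  · intro t p
    change G t (p + a t p • ex) = _
    rw [← hQe, hGQ, hNe]
  · intro t x
    obtain ⟨p, hp⟩ := hQs t x
    exact ⟨p, by beta_reduce; rw [← hQe]; exact hp⟩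
  · intro t x
    obtain ⟨p, rfl⟩ := hQs t x
    change 0 < xL (fderiv ℝ (G t) (Qf 1 1 (a t) p) ex)
    have h1 := hchain t p ex
    rw [fderiv_Qf (h.ha.differentiable t), fderiv_Nf (h.hb.differentiable t)
      (h.hc.differentiable t)] at h1
    simp only [Dl_one, one_mul] at h1
    have h2 : (ex : Phase (n + 1)) + fderiv ℝ (a t) p (Dl 1 ex) • ex =
        (1 + fderiv ℝ (a t) p ex) • ex := by
      rw [Dl_one, add_smul, one_smul]
    have h3 := congrArg xL h1
    simp only [Dl_one] at h2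
    rw [h2] at h3
    simp only [map_add, map_smul, xL_ex, xL_ey, xL_eL, smul_eq_mul, mul_zero, add_zero] at h3
    have h4 := h.pos t p
    by_contra hneg
    have h5 : (1 + fderiv ℝ (a t) p ex) * xL (fderiv ℝ (G t) (Qf 1 1 (a t) p) ex) ≤ 0 :=
      mul_nonpos_of_nonneg_of_nonpos h4.le (not_lt.1 hneg)
    linarith
  · intro t p hp
    exact hGK t p hp
  · intro t ht
    apply SympCt.ext'
    intro x
    change G t x = x
    have h1 := hGQ t x
    beta_reduce at h1
    rw [hQe, hNe, (ht x).1, (ht x).2.1, (ht x).2.2] at h1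
    simpa using h1

lemma admissible_of_close' {A : Phase n →L[ℝ] Phase n} {θ : ℝ} (hθ : θ < 1)
    (h : ∀ α β, |omegaStd (A α) (A β) - omegaStd α β| ≤ θ * (‖α‖ * ‖β‖)) : Admissible A := by
  intro σ hσ V hV
  have hθ' : σ * θ < 1 := by
    rcases le_or_gt 0 θ with h0 | h0
    · nlinarith [hσ.1, hσ.2]
    · nlinarith [hσ.1, hσ.2]
  refine eq_zero_of_form_close (Φ := fun V W => (1 - σ) * omegaStd V W + σ *
    omegaStd (A V) (A W)) hθ' (fun W => ?_) hV
  have e : (1 - σ) * omegaStd V W + σ * omegaStd (A V) (A W) - omegaStd V W =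
      σ * (omegaStd (A V) (A W) - omegaStd V W) := by ring
  beta_reduce
  rw [e, abs_mul, abs_of_nonneg hσ.1, mul_assoc]
  exact mul_le_mul_of_nonneg_left (h V W) hσ.1

end Pool.Agent.Helper42
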