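import Mathlib
import Pool.Agent.Helper42.Susp.Realise
import Pool.Agent.Helper42.Susp.RedExists

set_option maxSynthPendingDepth 3

open scoped ContDiff Topology unitInterval
open Set Function Filter

namespace Pool.Agent.Helper42

open Pool.Agent.Helper17

variable {n : ℕ}

/-- The base point over a point of the square, scaled by `L`. -/
noncomputable def ptq (L : ℝ) {T : Type} (q : T × (unitInterval × unitInterval)) (w : Phase n) :
    Phase (n + 1) :=
  pt (L * (2 * (q.2.1 : ℝ) - 1)) (L * (2 * (q.2.2 : ℝ) - 1)) w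

lemma CF_ptq (L : ℝ) {T : Type} [TopologicalSpace T] :
    CF (fun (q : T × (unitInterval × unitInterval)) (w : Phase n) => ptq L q w) := by
  have c1 : Continuous (fun q : T × (unitInterval × unitInterval) =>
      (L * (2 * (q.2.1 : ℝ) - 1)) • (ex : Phase (n + 1)) +
        (L * (2 * (q.2.2 : ℝ) - 1)) • (ey : Phase (n + 1))) := by
    apply Continuous.add
    · exact (continuous_const.mul ((continuous_const.mul
        (continuous_subtype_val.comp continuous_snd.fst)).sub continuous_const)).smul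
        continuous_const
    · exact (continuous_const.mul ((continuous_const.mul
        (continuous_subtype_val.comp continuous_snd.snd)).sub continuous_const)).smul
        continuous_const
  exact (CF.param c1).add (CF.const eL.contDiff)

lemma norm_le_norm_ptq (L : ℝ) {T : Type} (q : T × (unitInterval × unitInterval)) (w : Phase n) :
    ‖w‖ ≤ ‖ptq L q w‖ := by
  have h := norm_wL_le (ptq L q w)
  rwa [ptq, wL_pt] at h

lemma le_norm_ptq_of_bd {L : ℝ} (hL : 0 ≤ L) {T : Type} {q : T × (unitInterval × unitInterval)}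
    (hq : q.2 ∈ sqBd) (w : Phase n) : L ≤ ‖ptq L q w‖ := by
  have h1 := abs_xL_le (ptq L q w)
  have h2 := abs_yL_le (ptq L q w)
  have h3 : |(2 * ((1 : unitInterval) : ℝ) - 1)| = 1 := by norm_num
  have h4 : |(2 * ((0 : unitInterval) : ℝ) - 1)| = 1 := by norm_num
  have e1 : xL (ptq L q w) = L * (2 * (q.2.1 : ℝ) - 1) := xL_pt _ _ _
  have e2 : yL (ptq L q w) = L * (2 * (q.2.2 : ℝ) - 1) := yL_pt _ _ _
  rw [e1, abs_mul, abs_of_nonneg hL] at h1
  rw [e2, abs_mul, abs_of_nonneg hL] at h2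
  rcases hq with h | h | h | h
  · rwa [h, h4, mul_one] at h1
  · rwa [h, h3, mul_one] at h1
  · rwa [h, h4, mul_one] at h2
  · rwa [h, h3, mul_one] at h2

lemma hasFDerivAt_ptq (L : ℝ) {T : Type} (q : T × (unitInterval × unitInterval)) (w : Phase n) :
    HasFDerivAt (fun w : Phase n => ptq L q w) (eL : Phase n →L[ℝ] Phase (n + 1)) w :=
  hasFDerivAt_pt _ _ w

lemma fderiv_add_ptq {T : Type} {c : Phase (n + 1) → Phase n} (hc : Differentiable ℝ c) (L : ℝ)
    (q : T × (unitInterval × unitInterval)) (w : Phase n) :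
    fderiv ℝ (fun w => w + c (ptq L q w)) w = fibD c (ptq L q w) := by
  have h1 : HasFDerivAt (fun w => w + c (ptq L q w)) (ContinuousLinearMap.id ℝ _ +
      (fderiv ℝ c (ptq L q w)).comp eL) w :=
    (hasFDerivAt_id w).add ((hc _).hasFDerivAt.comp w (hasFDerivAt_ptq _ _ w))
  exact h1.fderiv

/-- A fibrewise symplectic family is the reduction of a family of symplectomorphisms. -/
theorem exists_red_of_fibre (hn : 0 < n) {T : Type} [TopologicalSpace T] [CompactSpace T]
    {T₀ : Set T} {c : T → Phase (n + 1) → Phase n} (hc : CF c) {R₀ : ℝ} (hR₀ : 1 ≤ R₀)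
    (hc0 : ∀ t p, R₀ < ‖p‖ → c t p = 0)
    (hs : ∀ t p α β, omegaStd (fibD (c t) p α) (fibD (c t) p β) = omegaStd α β)
    (hT : ∀ t ∈ T₀, ∀ p, c t p = 0) :
    ∃ (L R : ℝ) (f : C(T, SympCt (n + 1)))
      (h : C(T × (unitInterval × unitInterval), SympCt n)), R₀ < L ∧ (∀ t ∈ T₀, f t = 1) ∧
      (∀ t p, 0 < xL (fderiv ℝ (f t : Equiv.Perm (Phase (n + 1))) p ex)) ∧ IsRed R f h ∧
      ∀ q w, (h q : Equiv.Perm (Phase n)) w = w + c q.1 (ptq L q w) := by
  have hR0 : 0 < R₀ := by linarith
  obtain ⟨a, b, ha, hb, ha0, hb0, heq, hab⟩ := exists_ab hn hc hR0.le hc0 hs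
  obtain ⟨Ma, hMa0, hMa⟩ := exists_bound_fderiv ha
    (isCompact_closedBall (0 : Phase (n + 1)) (3 * R₀)) (fun t p hp => ha0 t p (by
      rw [mem_closedBall_zero_iff, not_le] at hp
      exact hp))
  set l : ℝ := 1 / (1 + Ma) with hl
  have hl0 : 0 < l := by positivity
  have hl1 : l ≤ 1 := by
    rw [hl, div_le_one (by positivity)]
    linarith
  have hlM : l * Ma < 1 := by
    rw [hl, div_mul_eq_mul_div, one_mul, div_lt_one (by positivity)]
    linarith
  have hmix := mixed_scaled ha hb hc ha0 hb0 (fun t p hp => hc0 t p (by linarith)) heq hl0 hl1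
    hMa hlM
  obtain ⟨f, hf, hfs, hfpos, hfK, hf1⟩ := exists_symp_of_mixed (isCompact_closedBall _ _) hmix
  set R : ℝ := 3 * R₀ / l + 1 with hR
  set L : ℝ := l * R with hL
  have hLeq : L = 3 * R₀ + l := by
    rw [hL, hR]
    field_simp
  have hRpos : 0 < R := by positivity
  -- the reduction
  set ψ : T × (unitInterval × unitInterval) → Phase n → Phase n := fun q w =>
    w + c q.1 (ptq L q w) with hψ
  have hψCF : CF ψ := CF.add (CF.const contDiff_id) ((hc.base continuous_fst).comp (CF_ptq L))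
  have hψK : ∀ q, ∀ w ∉ Metric.closedBall (0 : Phase n) R₀, ψ q w = w := by
    intro q w hw
    rw [mem_closedBall_zero_iff, not_le] at hw
    simp only [hψ]
    rw [hc0 _ _ (hw.trans_le (norm_le_norm_ptq L q w)), add_zero]
  have hψs : ∀ q w u v, omegaStd (fderiv ℝ (ψ q) w u) (fderiv ℝ (ψ q) w v) = omegaStd u v := by
    intro q w u v
    rw [hψ]
    beta_reduce
    rw [fderiv_add_ptq (hc.differentiable q.1)]
    exact hs _ _ _ _
  set h : T × (unitInterval × unitInterval) → SympCt n := fun q =>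
    mkSymp (ψ q) (hψCF.contDiff q) ⟨_, isCompact_closedBall (0 : Phase n) R₀, hψK q⟩ (hψs q)
    with hh
  have hhc : Continuous h := continuous_of_CF hψCF ⟨_, isCompact_closedBall (0 : Phase n) R₀⟩
    (fun q w hw => hψK q w hw) (fun q w => rfl)
  refine ⟨L, R, f, ⟨h, hhc⟩, by linarith, ?_, hfpos, ⟨hRpos, ?_, ?_⟩, fun q w => rfl⟩
  · intro t ht
    apply hf1
    intro p
    obtain ⟨h1, h2⟩ := hab t (hT t ht) (Dl l p)
    simp only [h1, h2, hT t ht, mul_zero, and_self]
  · intro t p hp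
    apply hfK
    rw [mem_closedBall_zero_iff, not_le]
    have h1 : R ≤ ‖p‖ := by
      rcases hp with h | h
      · exact h.trans (abs_xL_le p)
      · exact h.trans (abs_yL_le p)
    linarith
  · intro t z p hx hy
    obtain ⟨p', rfl⟩ := hfs t p
    beta_reduce at hx hy ⊢
    rw [hf] at hx ⊢
    simp only [map_add, map_smul, xL_ey, xL_eL, smul_zero, add_zero, yL_ex, wL_ey, wL_eL,
      wL_ex] at hx hy ⊢
    change _ = ψ (t, z) (wL p')
    simp only [hψ]
    congr 2
    apply ext_split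
    · rw [xL_Dl, hx, ptq, xL_pt, hL]
      ring
    · rw [yL_Dl, hy, ptq, yL_pt, hL]
      ring
    · rw [wL_Dl, ptq, wL_pt]

lemma sq_mem' {z : ℝ × ℝ} (hz : 1 ≤ ‖z‖) : sq 1 z ∈ sqBd := by
  have key : ∀ s : ℝ, 1 ≤ |s| → (projIcc 0 1 zero_le_one ((s / 1 + 1) / 2) : Icc (0 : ℝ) 1) =
      ⟨0, left_mem_Icc.2 zero_le_one⟩ ∨
      (projIcc 0 1 zero_le_one ((s / 1 + 1) / 2) : Icc (0 : ℝ) 1) =
      ⟨1, right_mem_Icc.2 zero_le_one⟩ := by
    intro s hs
    rw [div_one]
    rcases le_abs.1 hs with h | h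
    · right
      apply projIcc_of_right_le
      linarith
    · left
      apply projIcc_of_le_left
      linarith
  have h1 : 1 ≤ max |z.1| |z.2| := hz
  rcases le_max_iff.1 h1 with h | h
  · rcases key z.1 h with h2 | h2
    · exact Or.inl h2
    · exact Or.inr (Or.inl h2)
  · rcases key z.2 h with h2 | h2
    · exact Or.inr (Or.inr (Or.inl h2))
    · exact Or.inr (Or.inr (Or.inr h2))

/-- The centred coordinates of a point of the square. -/
def ctr (z : unitInterval × unitInterval) : ℝ × ℝ := (2 * (z.1 : ℝ) - 1, 2 * (z.2 : ℝ) - 1)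

lemma continuous_ctr : Continuous ctr :=
  ((continuous_const.mul (continuous_subtype_val.comp continuous_fst)).sub
    continuous_const).prodMk ((continuous_const.mul
    (continuous_subtype_val.comp continuous_snd)).sub continuous_const)

lemma sq_ctr (z : unitInterval × unitInterval) : sq 1 (ctr z) = z := by
  have key : ∀ s : unitInterval, (projIcc 0 1 zero_le_one (((2 * (s : ℝ) - 1) / 1 + 1) / 2) :
      Icc (0 : ℝ) 1) = s := by
    intro s
    have : ((2 * (s : ℝ) - 1) / 1 + 1) / 2 = s := by ring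
    rw [this]
    exact projIcc_val zero_le_one s
  exact Prod.ext (key z.1) (key z.2)

lemma norm_ctr {z : unitInterval × unitInterval} (hz : z ∈ sqBd) : 1 ≤ ‖ctr z‖ := by
  have h3 : |(2 * ((1 : unitInterval) : ℝ) - 1)| = 1 := by norm_num
  have h4 : |(2 * ((0 : unitInterval) : ℝ) - 1)| = 1 := by norm_num
  have h1 : ‖ctr z‖ = max |2 * (z.1 : ℝ) - 1| |2 * (z.2 : ℝ) - 1| := rfl
  rw [h1]
  rcases hz with h | h | h | h
  · rw [h, h4]; exact le_max_left _ _
  · rw [h, h3]; exact le_max_left _ _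
  · rw [h, h4]; exact le_max_right _ _
  · rw [h, h3]; exact le_max_right _ _

lemma zL_ptq (L : ℝ) {T : Type} (q : T × (unitInterval × unitInterval)) (w : Phase n) :
    zL (ptq L q w) = L • ctr q.2 := by
  rw [zL_apply]
  apply Prod.ext
  · exact xL_pt _ _ _
  · exact yL_pt _ _ _

lemma wL_ptq (L : ℝ) {T : Type} (q : T × (unitInterval × unitInterval)) (w : Phase n) :
    wL (ptq L q w) = w := wL_pt _ _ _

/-- Rescaling the square is an isotopy. -/
lemma homotopicRel_rescale {T : Type} [TopologicalSpace T] {T₀ : Set T}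
    (h : C(T × (unitInterval × unitInterval), SympCt n))
    (hh : ∀ q : T × (unitInterval × unitInterval), (q.1 ∈ T₀ ∨ q.2 ∈ sqBd) → h q = 1) {L : ℝ}
    (hL : 1 ≤ L) (h' : C(T × (unitInterval × unitInterval), SympCt n))
    (he : ∀ q, h' q = h (q.1, sq 1 (L • ctr q.2))) :
    h'.HomotopicRel h {q | q.1 ∈ T₀ ∨ q.2 ∈ sqBd} := by
  have key : ∀ (s : unitInterval) (q : T × (unitInterval × unitInterval)),
      (q.1 ∈ T₀ ∨ q.2 ∈ sqBd) →
      h (q.1, sq 1 (((1 - (s : ℝ)) * L + s) • ctr q.2)) = 1 := by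
    intro s q hq
    apply hh
    rcases hq with h1 | h1
    · exact Or.inl h1
    · right
      apply sq_mem'
      have h2 : 1 ≤ (1 - (s : ℝ)) * L + s := by
        nlinarith [s.2.1, s.2.2]
      rw [norm_smul, Real.norm_eq_abs, abs_of_nonneg (by linarith)]
      nlinarith [norm_ctr h1]
  refine ⟨{
    toFun := fun r => h (r.2.1, sq 1 (((1 - (r.1 : ℝ)) * L + r.1) • ctr r.2.2))
    continuous_toFun := ?_
    map_zero_left := fun q => ?_
    map_one_left := fun q => ?_
    prop' := fun s q hq => ?_ }⟩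
  · apply h.continuous.comp
    apply (continuous_fst.comp continuous_snd).prodMk
    apply (continuous_sq 1).comp
    exact (((continuous_const.sub (continuous_subtype_val.comp continuous_fst)).mul
        continuous_const).add (continuous_subtype_val.comp continuous_fst)).smul
        (continuous_ctr.comp (continuous_snd.comp continuous_snd))
  · change h (q.1, sq 1 (((1 - ((0 : unitInterval) : ℝ)) * L + ((0 : unitInterval) : ℝ)) •
      ctr q.2)) = h' q
    rw [he]
    simp
  · change h (q.1, sq 1 (((1 - ((1 : unitInterval) : ℝ)) * L + ((1 : unitInterval) : ℝ)) •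
      ctr q.2)) = h q
    have : (1 - ((1 : unitInterval) : ℝ)) * L + ((1 : unitInterval) : ℝ) = 1 := by simp
    rw [this, one_smul, sq_ctr]
  · change h (q.1, sq 1 (((1 - (s : ℝ)) * L + s) • ctr q.2)) = h' q
    rw [key s q hq, he]
    have h3 := key 0 q hq
    simpa using h3.symm

lemma fibD_omega (C : Phase (n + 1) →L[ℝ] Phase n) (α β : Phase n) :
    kap C (eL α) (eL β) = omegaStd (α + C (eL α)) (β + C (eL β)) - omegaStd α β := by
  rw [kap, wL_eL, wL_eL]

/-- A linear map close to a symplectic one is admissible. -/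
lemma admissible_of_norm_sub {A B : Phase n →L[ℝ] Phase n} {M ε : ℝ} (hM : 0 ≤ M)
    (hε : ε = 1 / (8 * (1 + M)))
    (hB : ∀ α β, omegaStd (α + B α) (β + B β) = omegaStd α β) (hBM : ‖B‖ ≤ M)
    (hAB : ‖A - B‖ ≤ ε) : Admissible (ContinuousLinearMap.id ℝ _ + A) := by
  have hε1 : 2 * (1 + M) * ε = 1 / 4 := by rw [hε]; field_simp; norm_num
  have hε2 : ε ^ 2 ≤ 1 / 4 := by
    have h0 : 0 < ε := by rw [hε]; positivity
    have h1 : ε ≤ 1 / 2 := by
      rw [hε]
      apply one_div_le_one_div_of_le <;> linarith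
    nlinarith
  apply admissible_of_close' (θ := 1 / 2) (by norm_num)
  intro α β
  have h1 := abs_kap_fibre_le (C := A.comp wL) (A := B) (ε := ε) hB hBM (by
    have : (A.comp wL).comp eL - B = A - B := by
      ext1 γ
      simp
    rw [this]
    exact hAB) α β
  rw [fibD_omega] at h1
  simp only [ContinuousLinearMap.comp_apply, wL_eL] at h1
  refine h1.trans ?_
  apply mul_le_mul_of_nonneg_right _ (mul_nonneg (norm_nonneg _) (norm_nonneg _))
  linarith

/-- **Realisation**: every family of symplectomorphisms of `ℝ^{2n}` over `T × [0,1]^2`, trivial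
over the boundary of the square, is homotopic to a reduction. -/
theorem exists_realise {T : Type} [TopologicalSpace T] [CompactSpace T] {T₀ : Set T}
    (h : C(T × (unitInterval × unitInterval), SympCt n))
    (hh : ∀ q : T × (unitInterval × unitInterval), (q.1 ∈ T₀ ∨ q.2 ∈ sqBd) → h q = 1) :
    ∃ (R : ℝ) (f : C(T, SympCt (n + 1)))
      (h' : C(T × (unitInterval × unitInterval), SympCt n)), (∀ t ∈ T₀, f t = 1) ∧
      (∀ t p, 0 < xL (fderiv ℝ (f t : Equiv.Perm (Phase (n + 1))) p ex)) ∧ IsRed R f h' ∧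
      h.HomotopicRel h' {q | q.1 ∈ T₀ ∨ q.2 ∈ sqBd} := by
  rcases Nat.eq_zero_or_pos n with rfl | hn
  · refine ⟨1, ContinuousMap.const _ 1, h, fun t ht => rfl, fun t p => ?_, ⟨one_pos, fun t p _ => rfl,
      fun t z p _ _ => Subsingleton.elim _ _⟩, ContinuousMap.HomotopicRel.refl _⟩
    have h1 : fderiv ℝ ((ContinuousMap.const T (1 : SympCt 1) t : SympCt 1) :
        Equiv.Perm (Phase 1)) p = ContinuousLinearMap.id ℝ _ := fderiv_id
    have h2 : xL (fderiv ℝ ((ContinuousMap.const T (1 : SympCt 1) t : SympCt 1) :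
        Equiv.Perm (Phase 1)) p (ex : Phase (0 + 1))) = 1 := by
      rw [h1]
      exact xL_ex
    exact h2 ▸ one_pos
  obtain ⟨hH, KW, hKW⟩ := CF_of_continuous
    (f := fun q : T × (unitInterval × unitInterval) => h q) h.continuous
  obtain ⟨M, hM0, hM⟩ := exists_bound_fderiv
    (F := fun (q : T × (unitInterval × unitInterval)) w => (h q : Equiv.Perm (Phase n)) w - w)
    (hH.sub (CF.const contDiff_id)) KW.isCompact
    (fun q w hw => by beta_reduce; rw [hKW q w hw, sub_self])
  set η : T × (ℝ × ℝ) → Phase n → Phase n := fun q w =>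
    (h (q.1, sq 1 q.2) : Equiv.Perm (Phase n)) w - w with hη
  have hcont : Continuous (fun q : T × (ℝ × ℝ) => (q.1, sq 1 q.2)) :=
    continuous_fst.prodMk ((continuous_sq 1).comp continuous_snd)
  have hηCF : CF η := (hH.base hcont).sub (CF.const contDiff_id)
  have hηK : ∀ q, ∀ w ∉ (KW : Set (Phase n)), η q w = 0 := by
    intro q w hw
    simp only [hη, hKW _ w hw, sub_self]
  have hηR : ∀ (t : T) (z : ℝ × ℝ), 1 < ‖z‖ → ∀ w, η (t, z) w = 0 := by
    intro t z hz w
    have h1 : h (t, sq 1 z) = 1 := hh _ (Or.inr (sq_mem' hz.le))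
    simp only [hη, h1]
    exact sub_self w
  have hηT : ∀ t ∈ T₀, ∀ z w, η (t, z) w = 0 := by
    intro t ht z w
    have h1 : h (t, sq 1 z) = 1 := hh _ (Or.inl ht)
    simp only [hη, h1]
    exact sub_self w
  have hηd : ∀ q w α, fderiv ℝ (η q) w α =
      fderiv ℝ (h (q.1, sq 1 q.2) : Equiv.Perm (Phase n)) w α - α := by
    intro q w α
    have h1 : HasFDerivAt (η q) (fderiv ℝ (h (q.1, sq 1 q.2) : Equiv.Perm (Phase n)) w -
        ContinuousLinearMap.id ℝ _) w :=
      (SympCt.differentiable _ w).hasFDerivAt.sub (hasFDerivAt_id w)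
    rw [h1.fderiv]
    rfl
  have hηs : ∀ q w α β, omegaStd (α + fderiv ℝ (η q) w α) (β + fderiv ℝ (η q) w β) =
      omegaStd α β := by
    intro q w α β
    rw [hηd, hηd, add_sub_cancel, add_sub_cancel]
    exact (h (q.1, sq 1 q.2)).2.2.2.1 w α β
  have hηM : ∀ q w, ‖fderiv ℝ (η q) w‖ ≤ M := fun q w => hM _ w
  set ε : ℝ := 1 / (8 * (1 + M)) with hε
  have hεpos : 0 < ε := by positivity
  obtain ⟨c, K, hc, hK, hc0, hcε, hcT⟩ := exists_mollify hηCF KW.isCompact hηK hηR hεpos
  have hcT' : ∀ t ∈ T₀, ∀ p, c t p = 0 := fun t ht p => hcT t (fun z w => hηT t ht z w) p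
  have hadm : ∀ t p, Admissible (fibD (c t) p) := fun t p =>
    admissible_of_norm_sub hM0 hε (hηs (t, zL p) (wL p)) (hηM _ _) (hcε t p)
  obtain ⟨C, hC, hCK, hC0, hCadm, hC1, hCT⟩ := fibre_moser hc hK hc0 hadm
  obtain ⟨R₁, hR₁⟩ := hK.isBounded.subset_closedBall (0 : Phase (n + 1))
  set R₀ : ℝ := max R₁ 1 with hR₀
  have hout : ∀ p : Phase (n + 1), R₀ < ‖p‖ → p ∉ K := by
    intro p hp hpK
    have h1 : ‖p‖ ≤ R₁ := by simpa using hR₁ hpK
    linarith [le_max_left R₁ 1]
  have hR0 : 0 < R₀ := lt_of_lt_of_le one_pos (le_max_right _ _)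
  set o : Icc (0 : ℝ) 1 := ⟨1, right_mem_Icc.2 zero_le_one⟩ with ho
  obtain ⟨L, R, f, h', hL, hf1, hfpos, hred, hh'⟩ := exists_red_of_fibre hn (T₀ := T₀)
    (c := fun t => C (t, o)) (hC.base (continuous_id.prodMk continuous_const)) (R₀ := R₀)
    (le_max_right _ _) (fun t p hp => hCK _ p (hout p hp)) hC1
    (fun t ht p => hCT t (hcT' t ht) o p)
  have hL0 : 0 ≤ L := by linarith
  refine ⟨R, f, h', hf1, hfpos, hred, ?_⟩
  -- the intermediate family
  have hLc : Continuous (fun q : T × (unitInterval × unitInterval) =>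
      (q.1, sq 1 (L • ctr q.2))) :=
    continuous_fst.prodMk ((continuous_sq 1).comp
      ((continuous_ctr.comp continuous_snd).const_smul L))
  set hLm : C(T × (unitInterval × unitInterval), SympCt n) :=
    ⟨fun q => h (q.1, sq 1 (L • ctr q.2)), h.continuous.comp hLc⟩ with hhL
  have hLη : ∀ q w, (hLm q : Equiv.Perm (Phase n)) w = w + η (q.1, L • ctr q.2) w := by
    intro q w
    simp only [hη, hhL]
    rw [add_sub_cancel]
    rfl
  have hbdc : ∀ q : T × (unitInterval × unitInterval), q.2 ∈ sqBd → ∀ w : Phase n,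
      R₀ < ‖ptq L q w‖ := fun q hq w => hL.trans_le (le_norm_ptq_of_bd hL0 hq w)
  have hbdη : ∀ q : T × (unitInterval × unitInterval), q.2 ∈ sqBd → ∀ w : Phase n,
      η (q.1, L • ctr q.2) w = 0 := by
    intro q hq w
    apply hηR
    rw [norm_smul, Real.norm_eq_abs, abs_of_nonneg hL0]
    have h1 : 1 < L := lt_of_le_of_lt (le_max_right _ _) hL
    nlinarith [norm_ctr hq]
  -- from `c` to the reduction
  have A1 : AdmHom {q : T × (unitInterval × unitInterval) | q.1 ∈ T₀ ∨ q.2 ∈ sqBd}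
      (fun q (w : Phase n) => w + c q.1 (ptq L q w))
      (fun q w => (h' q : Equiv.Perm (Phase n)) w) := by
    refine ⟨fun r w => w + C (r.1.1, r.2) (ptq L r.1 w), ?_, ⟨Metric.closedBall 0 R₀,
      isCompact_closedBall _ _, ?_⟩, ?_, ?_, ?_, ?_⟩
    · exact CF.add (CF.const contDiff_id) ((hC.base ((continuous_fst.comp
        continuous_fst).prodMk continuous_snd)).comp ((CF_ptq L).base continuous_fst))
    · intro r w hw
      rw [mem_closedBall_zero_iff, not_le] at hw
      beta_reduce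
      rw [hCK _ _ (hout _ (hw.trans_le (norm_le_norm_ptq L r.1 w))), add_zero]
    · intro r w
      beta_reduce
      rw [fderiv_add_ptq (hC.differentiable (r.1.1, r.2))]
      exact hCadm _ _
    · intro q w
      beta_reduce
      rw [hC0]
    · intro q w
      exact (hh' q w).symm
    · intro q hq s w
      beta_reduce
      rcases hq with h1 | h1
      · rw [hCT q.1 (hcT' q.1 h1), add_zero]
      · rw [hCK _ _ (hout _ (hbdc q h1 w)), add_zero]
  -- from `c` to the rescaled original family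
  have A2 : AdmHom {q : T × (unitInterval × unitInterval) | q.1 ∈ T₀ ∨ q.2 ∈ sqBd}
      (fun q (w : Phase n) => w + c q.1 (ptq L q w))
      (fun q w => (hLm q : Equiv.Perm (Phase n)) w) := by
    have hcCF : CF (fun (r : (T × (unitInterval × unitInterval)) × Icc (0 : ℝ) 1)
        (w : Phase n) => c r.1.1 (ptq L r.1 w)) :=
      (hc.base (h := fun r : (T × (unitInterval × unitInterval)) × Icc (0 : ℝ) 1 => r.1.1)
        (continuous_fst.comp continuous_fst)).comp ((CF_ptq L).base continuous_fst)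
    have hηCF' : CF (fun (r : (T × (unitInterval × unitInterval)) × Icc (0 : ℝ) 1)
        (w : Phase n) => η (r.1.1, L • ctr r.1.2) w) :=
      hηCF.base (h := fun r : (T × (unitInterval × unitInterval)) × Icc (0 : ℝ) 1 =>
        (r.1.1, L • ctr r.1.2)) ((continuous_fst.comp continuous_fst).prodMk
        ((continuous_ctr.comp (continuous_snd.comp continuous_fst)).const_smul L))
    refine ⟨fun r w => w + ((1 - (r.2 : ℝ)) • c r.1.1 (ptq L r.1 w) +
      (r.2 : ℝ) • η (r.1.1, L • ctr r.1.2) w), ?_, ⟨Metric.closedBall 0 R₀ ∪ KW,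
      (isCompact_closedBall _ _).union KW.isCompact, ?_⟩, ?_, ?_, ?_, ?_⟩
    · exact CF.add (CF.const contDiff_id) (((CF.param (continuous_const.sub
        (continuous_subtype_val.comp continuous_snd))).smul hcCF).add
        ((CF.param (continuous_subtype_val.comp continuous_snd)).smul hηCF'))
    · intro r w hw
      have hw1 : w ∉ Metric.closedBall (0 : Phase n) R₀ := fun h => hw (Or.inl h)
      rw [mem_closedBall_zero_iff, not_le] at hw1
      beta_reduce
      rw [hc0 _ _ (hout _ (hw1.trans_le (norm_le_norm_ptq L r.1 w))),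
        hηK _ w (fun h => hw (Or.inr h))]
      simp
    · intro r w
      have h5 : HasFDerivAt (fun w => c r.1.1 (ptq L r.1 w))
          ((fderiv ℝ (c r.1.1) (ptq L r.1 w)).comp eL) w :=
        (hc.differentiable r.1.1 (ptq L r.1 w)).hasFDerivAt.comp w (hasFDerivAt_ptq L r.1 w)
      have h6 : HasFDerivAt (fun w => (1 - (r.2 : ℝ)) • c r.1.1 (ptq L r.1 w))
          ((1 - (r.2 : ℝ)) • ((fderiv ℝ (c r.1.1) (ptq L r.1 w)).comp eL)) w :=
        h5.const_smul (1 - (r.2 : ℝ))
      have h7 : HasFDerivAt (fun w => (r.2 : ℝ) • η (r.1.1, L • ctr r.1.2) w)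
          ((r.2 : ℝ) • fderiv ℝ (η (r.1.1, L • ctr r.1.2)) w) w :=
        (hηCF.differentiable (r.1.1, L • ctr r.1.2) w).hasFDerivAt.const_smul (r.2 : ℝ)
      have h1 : HasFDerivAt (fun w => w + ((1 - (r.2 : ℝ)) • c r.1.1 (ptq L r.1 w) +
          (r.2 : ℝ) • η (r.1.1, L • ctr r.1.2) w))
          (ContinuousLinearMap.id ℝ _ + ((1 - (r.2 : ℝ)) •
            ((fderiv ℝ (c r.1.1) (ptq L r.1 w)).comp eL) +
            (r.2 : ℝ) • fderiv ℝ (η (r.1.1, L • ctr r.1.2)) w)) w :=
        (hasFDerivAt_id w).add (h6.add h7)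
      beta_reduce
      rw [h1.fderiv]
      apply admissible_of_norm_sub hM0 hε (hηs (r.1.1, L • ctr r.1.2) w) (hηM _ _)
      have h2 := hcε r.1.1 (ptq L r.1 w)
      rw [zL_ptq, wL_ptq] at h2
      have h3 : (1 - (r.2 : ℝ)) • ((fderiv ℝ (c r.1.1) (ptq L r.1 w)).comp eL) +
          (r.2 : ℝ) • fderiv ℝ (η (r.1.1, L • ctr r.1.2)) w -
          fderiv ℝ (η (r.1.1, L • ctr r.1.2)) w =
          (1 - (r.2 : ℝ)) • ((fderiv ℝ (c r.1.1) (ptq L r.1 w)).comp eL -
            fderiv ℝ (η (r.1.1, L • ctr r.1.2)) w) := by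
        module
      rw [h3, norm_smul, Real.norm_eq_abs, abs_of_nonneg (by linarith [r.2.2.2])]
      calc (1 - (r.2 : ℝ)) * ‖(fderiv ℝ (c r.1.1) (ptq L r.1 w)).comp eL -
            fderiv ℝ (η (r.1.1, L • ctr r.1.2)) w‖ ≤ 1 * ε :=
            mul_le_mul (by linarith [r.2.2.1]) h2 (norm_nonneg _) zero_le_one
        _ = ε := one_mul _
    · intro q w
      beta_reduce
      simp
    · intro q w
      beta_reduce
      rw [hLη]
      simp
    · intro q hq s w
      beta_reduce
      rcases hq with h1 | h1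
      · rw [hcT' q.1 h1, hηT q.1 h1]
        simp
      · rw [hc0 _ _ (hout _ (hbdc q h1 w)), hbdη q h1 w]
        simp
  have B1 : h'.HomotopicRel hLm {q | q.1 ∈ T₀ ∨ q.2 ∈ sqBd} :=
    homotopicRel_of_admHom (A1.symm.trans A2)
  have B2 : hLm.HomotopicRel h {q | q.1 ∈ T₀ ∨ q.2 ∈ sqBd} :=
    homotopicRel_rescale h hh (hL.le.trans' (le_max_right _ _)) hLm (fun q => rfl)
  exact (B1.trans B2).symm

end Pool.Agent.Helper42
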