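import Mathlib
import Pool.Agent.Helper42.Susp.CubeSnoc
import Pool.Agent.Helper42.Susp.RealiseMain
import Pool.Agent.H50.Susp.Corner

set_option maxSynthPendingDepth 3

open scoped ContDiff Topology unitInterval
open Set Function TopologicalSpace Filter

namespace Pool.Agent.Helper42

open Pool.Agent.Helper17 Pool.Agent.H50.Susp

variable {n k : ℕ}

/-- Positivity in the two forms used. -/
lemma pos_conv (φ : SympCt (n + 1)) (p : Phase (n + 1))
    (h : 0 < xL (fderiv ℝ (φ : Equiv.Perm (Phase (n + 1))) p ex)) :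
    0 < fderiv ℝ (fun q => ((φ : Equiv.Perm (Phase (n + 1))) q) (Sum.inl 0)) p (eX 0) := by
  have h2 : fderiv ℝ (fun q => ((φ : Equiv.Perm (Phase (n + 1))) q) (Sum.inl 0)) p =
      xL.comp (fderiv ℝ (φ : Equiv.Perm (Phase (n + 1))) p) :=
    (xL.hasFDerivAt.comp p (SympCt.differentiable φ p).hasFDerivAt).fderiv
  rw [h2]
  exact h

lemma pos_conv' (φ : SympCt (n + 1)) (p : Phase (n + 1))
    (h : 0 < fderiv ℝ (fun q => ((φ : Equiv.Perm (Phase (n + 1))) q) (Sum.inl 0)) p (eX 0)) :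
    0 < xL (fderiv ℝ (φ : Equiv.Perm (Phase (n + 1))) p ex) := by
  have h2 : fderiv ℝ (fun q => ((φ : Equiv.Perm (Phase (n + 1))) q) (Sum.inl 0)) p =
      xL.comp (fderiv ℝ (φ : Equiv.Perm (Phase (n + 1))) p) :=
    (xL.hasFDerivAt.comp p (SympCt.differentiable φ p).hasFDerivAt).fderiv
  rw [h2] at h
  exact h

section

variable {T : Type} [TopologicalSpace T] [CompactSpace T] {T₀ : Set T}

/-- Reductions of the same family at different scales are homotopic. -/
theorem isRed_unique {f : C(T, SympCt (n + 1))} (hf : ∀ t ∈ T₀, f t = 1)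
    (hpos : ∀ t p, 0 < xL (fderiv ℝ (f t : Equiv.Perm (Phase (n + 1))) p ex)) {R R' : ℝ}
    {h h' : C(T × (unitInterval × unitInterval), SympCt n)} (hr : IsRed R f h)
    (hr' : IsRed R' f h') : h.HomotopicRel h' {q | q.1 ∈ T₀ ∨ q.2 ∈ sqBd} := by
  obtain ⟨ρ, hρ, hfρ⟩ := exists_radius f
  have hP := posPair_segF f (fun t p => pos_conv _ _ (hpos t p)) hfρ
  obtain ⟨e, he⟩ := exists_isScat hρ hP
  have h1 := scat_of_pos (T0 := T₀) f hf (fun t p => pos_conv _ _ (hpos t p)) hr he
  have h2 := scat_of_pos (T0 := T₀) f hf (fun t p => pos_conv _ _ (hpos t p)) hr' he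
  exact h1.symm.trans h2

/-- Families with homotopic reductions, at possibly different scales, are homotopic. -/
theorem homotopicRel_of_reduction' {f f' : C(T, SympCt (n + 1))} (hf : ∀ t ∈ T₀, f t = 1)
    (hf' : ∀ t ∈ T₀, f' t = 1)
    (hpos : ∀ t p, 0 < xL (fderiv ℝ (f t : Equiv.Perm (Phase (n + 1))) p ex))
    (hpos' : ∀ t p, 0 < xL (fderiv ℝ (f' t : Equiv.Perm (Phase (n + 1))) p ex)) {R R' : ℝ}
    {h h' : C(T × (unitInterval × unitInterval), SympCt n)} (hr : IsRed R f h)
    (hr' : IsRed R' f' h') (hh : h.HomotopicRel h' {q | q.1 ∈ T₀ ∨ q.2 ∈ sqBd}) :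
    f.HomotopicRel f' T₀ := by
  obtain ⟨R₁, hR₁, h1⟩ := exists_isRed f hpos
  obtain ⟨R₂, hR₂, h2⟩ := exists_isRed f' hpos'
  obtain ⟨g, hg⟩ := h1 (max R₁ R₂) (le_max_left _ _)
  obtain ⟨g', hg'⟩ := h2 (max R₁ R₂) (le_max_right _ _)
  exact homotopicRel_of_reduction hf hf' hpos hpos' hg hg'
    (((isRed_unique hf hpos hg hr).trans hh).trans (isRed_unique hf' hpos' hr' hg'))

/-- The pair map of a positive family is null-homotopic. -/
theorem homotopicRel_pair_of_pos {f : C(T, SympCt (n + 1))} (hf : ∀ t ∈ T₀, f t = 1)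
    (hpos : ∀ t p, 0 < xL (fderiv ℝ (f t : Equiv.Perm (Phase (n + 1))) p ex)) :
    ((⟨pairMap, continuous_pairMap⟩ : C(SympCt (n + 1), PairSp n)).comp f).HomotopicRel
      (ContinuousMap.const _ PairSp.std) T₀ := by
  obtain ⟨ρ, hρ, hfρ⟩ := exists_radius f
  have hP := posPair_segF f (fun t p => pos_conv _ _ (hpos t p)) hfρ
  obtain ⟨R, hR, hPu⟩ := posPair_of_continuous
    (((⟨pairMap, continuous_pairMap⟩ : C(SympCt (n + 1), PairSp n)).comp f).continuous)
  have c1 : Continuous (fun t : T => (t, (1 : unitInterval))) := continuous_id.prodMk continuous_const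
  have s1 : PairHomotopic (0 : Fin (n + 1)) T₀ (fun (_ : T) (p : Phase (n + 1)) => p (Sum.inl 0))
      (fun _ p => p (Sum.inr 0))
      (fun t p => ((f t : Equiv.Perm (Phase (n + 1))) p) (Sum.inl 0))
      (fun _ p => p (Sum.inr 0)) := by
    refine ⟨ρ, segF f, fun _ p => p (Sum.inr 0), hρ, hP, fun t p => ⟨?_, rfl⟩,
      fun t p => ⟨?_, rfl⟩, fun t ht s p => ⟨?_, rfl⟩⟩
    · simp [segF]
    · simp [segF]
    · simp only [segF, hf t ht]
      change p (Sum.inl 0) + (s : ℝ) * (p (Sum.inl 0) - p (Sum.inl 0)) = p (Sum.inl 0)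
      rw [sub_self, mul_zero, add_zero]
  have hP1 : PosPair (0 : Fin (n + 1)) (max ρ R)
      (fun t p => ((f t : Equiv.Perm (Phase (n + 1))) p) (Sum.inl 0))
      (fun _ p => p (Sum.inr 0)) := by
    have h1 := (hP.base c1).mono (le_max_left ρ R)
    have h2 : (fun t : T => segF f (t, 1)) =
        fun t p => ((f t : Equiv.Perm (Phase (n + 1))) p) (Sum.inl 0) := by
      funext t p
      simp [segF]
    rw [h2] at h1
    exact h1
  have hP2 : PosPair (0 : Fin (n + 1)) (max ρ R)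
      (fun t p => ((f t : Equiv.Perm (Phase (n + 1))) p) (Sum.inl 0))
      (fun t p => ((f t : Equiv.Perm (Phase (n + 1))) p) (Sum.inr 0)) :=
    hPu.mono (le_max_right ρ R)
  have s2 := pairHomotopic_of_left (T0 := T₀) (hρ.trans (le_max_left ρ R)) hP1 hP2 (fun t ht p => by
    beta_reduce
    rw [hf t ht]
    rfl)
  have h3 := homotopicRel_of_pairHomotopic (u := ContinuousMap.const _ PairSp.std)
    (v := (⟨pairMap, continuous_pairMap⟩ : C(SympCt (n + 1), PairSp n)).comp f)
    (s1.trans s2)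
  exact h3.symm

end

/-- The loop of symplectomorphisms of `ℝ^{2n+2}` defined by `f` is a suspension of the loop `g` of
symplectomorphisms of `ℝ^{2n}`. -/
def IsSusp (g : GenLoop (Fin (k + 2)) (SympCt n) 1) (γ : GenLoop (Fin k) (SympCt (n + 1)) 1) :
    Prop :=
  (∀ t p, 0 < xL (fderiv ℝ (γ.1 t : Equiv.Perm (Phase (n + 1))) p ex)) ∧
    ∃ (R : ℝ) (h : C((Fin k → unitInterval) × (unitInterval × unitInterval), SympCt n)),
      IsRed R γ.1 h ∧ h.HomotopicRel (unloop2 g) (bd2 k)

theorem exists_isSusp (g : GenLoop (Fin (k + 2)) (SympCt n) 1) :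
    ∃ γ : GenLoop (Fin k) (SympCt (n + 1)) 1, IsSusp g γ := by
  obtain ⟨R, f, h, hf, hpos, hr, hh⟩ := exists_realise (T₀ := Cube.boundary (Fin k)) (unloop2 g)
    (unloop2_bd g)
  exact ⟨⟨f, hf⟩, hpos, R, h, hr, hh.symm⟩

theorem IsSusp.homotopic {g g' : GenLoop (Fin (k + 2)) (SympCt n) 1}
    {γ γ' : GenLoop (Fin k) (SympCt (n + 1)) 1} (h : IsSusp g γ) (h' : IsSusp g' γ')
    (hg : GenLoop.Homotopic g g') : GenLoop.Homotopic γ γ' := by
  obtain ⟨hpos, R, r, hr, hh⟩ := h
  obtain ⟨hpos', R', r', hr', hh'⟩ := h'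
  exact homotopicRel_of_reduction' γ.2 γ'.2 hpos hpos' hr hr'
    ((hh.trans (unloop2_homotopic hg)).trans hh'.symm)

/-- The suspension homomorphism `π_{k+2}(Symp(ℝ^{2n})) → π_k(Symp(ℝ^{2n+2}))`. -/
noncomputable def sigmaMap (k n : ℕ) :
    HomotopyGroup (Fin (k + 2)) (SympCt n) 1 → HomotopyGroup (Fin k) (SympCt (n + 1)) 1 :=
  Quotient.map (fun g => (exists_isSusp g).choose)
    (fun g g' h => (exists_isSusp g).choose_spec.homotopic (exists_isSusp g').choose_spec h)

lemma sigmaMap_eq {g : GenLoop (Fin (k + 2)) (SympCt n) 1}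
    {γ : GenLoop (Fin k) (SympCt (n + 1)) 1} (h : IsSusp g γ) :
    sigmaMap k n (hmk g) = hmk γ :=
  Quotient.sound ((exists_isSusp g).choose_spec.homotopic h (GenLoop.Homotopic.refl g))

/-- A positive family over the cube is a suspension. -/
lemma exists_isSusp_of_pos (γ : GenLoop (Fin k) (SympCt (n + 1)) 1)
    (hpos : ∀ t p, 0 < xL (fderiv ℝ (γ.1 t : Equiv.Perm (Phase (n + 1))) p ex)) :
    ∃ (R : ℝ) (h : C((Fin k → unitInterval) × (unitInterval × unitInterval), SympCt n))
      (hh : ∀ q ∈ bd2 k, h q = 1), IsRed R γ.1 h ∧ IsSusp (loop2 h hh) γ := by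
  obtain ⟨R₁, hR₁, h1⟩ := exists_isRed γ.1 hpos
  obtain ⟨h, hr⟩ := h1 R₁ le_rfl
  have hh : ∀ q ∈ bd2 k, h q = 1 := by
    rintro ⟨t, z⟩ (ht | hz)
    · exact hr.eq_one_of_eq_one (γ.2 t ht) z
    · exact hr.eq_one_of_bd t hz
  refine ⟨R₁, h, hh, hr, hpos, R₁, h, hr, ?_⟩
  rw [unloop2_loop2]
  exact ContinuousMap.HomotopicRel.refl _

/-- A family whose pair of functions is null-homotopic is homotopic to a positive one. -/
theorem exists_pos_of_pair {T : Type} [TopologicalSpace T] [CompactSpace T] {T₀ : Set T}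
    {f : C(T, SympCt (n + 1))}
    (hU : ((⟨pairMap, continuous_pairMap⟩ : C(SympCt (n + 1), PairSp n)).comp f).HomotopicRel
      (ContinuousMap.const _ PairSp.std) T₀) :
    ∃ g : C(T, SympCt (n + 1)), (∀ t ∈ T₀, g t = 1) ∧
      (∀ t p, 0 < xL (fderiv ℝ (g t : Equiv.Perm (Phase (n + 1))) p ex)) ∧
      f.HomotopicRel g T₀ := by
  obtain ⟨U⟩ := hU.symm
  set V : T × unitInterval → PairSp n := fun q => U (q.2, q.1) with hV
  have hVc : Continuous V := U.continuous.comp (continuous_snd.prodMk continuous_fst)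
  obtain ⟨R, hR, hPP⟩ := posPair_of_continuous hVc
  obtain ⟨g, hgpos, hg1, hfg⟩ := Pool.Agent.H50.Susp.exists_homotopicRel_pos (0 : Fin (n + 1)) T₀ f
    (fun t p => ((V t).1 p).1) (fun t p => ((V t).1 p).2) hR hPP
    (fun t p => by
      have h1 : V (t, 0) = PairSp.std := by
        simp only [hV]
        rw [U.apply_zero]
        rfl
      rw [h1]
      rfl)
    (fun t p => by
      have h1 : V (t, 1) = pairMap (f t) := by
        simp only [hV]
        rw [U.apply_one]
        rfl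
      rw [h1]
      rfl)
    (fun t ht s p => by
      have h1 : V (t, s) = PairSp.std := by
        simp only [hV]
        rw [U.eq_fst s ht]
        rfl
      rw [h1]
      rfl)
  exact ⟨g, hg1, fun t p => pos_conv' _ _ (hgpos t p), hfg⟩

/-- **Exactness at the group**: the image of the suspension is the kernel of the map to pairs. -/
theorem range_sigma_eq (k n : ℕ) (a : HomotopyGroup (Fin k) (SympCt (n + 1)) 1) :
    a ∈ range (sigmaMap k n) ↔ piPair k n a = hmk GenLoop.const := by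
  constructor
  · rintro ⟨b, rfl⟩
    refine Quotient.inductionOn b fun g => ?_
    obtain ⟨γ, hγ⟩ := exists_isSusp g
    have h1 : sigmaMap k n (Quotient.mk _ g) = hmk γ := sigmaMap_eq hγ
    rw [h1]
    apply Quotient.sound
    exact homotopicRel_pair_of_pos γ.2 hγ.1
  · refine Quotient.inductionOn a fun γ h => ?_
    obtain ⟨g, hg1, hpos, hfg⟩ := exists_pos_of_pair (T₀ := Cube.boundary (Fin k))
      (show ContinuousMap.HomotopicRel _ _ _ from Quotient.exact h)
    obtain ⟨R, r, hh, -, hs⟩ := exists_isSusp_of_pos ⟨g, hg1⟩ hpos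
    refine ⟨hmk (loop2 r hh), ?_⟩
    rw [sigmaMap_eq hs]
    exact Quotient.sound hfg.symm

/-- The pointwise quotient of two loops. -/
noncomputable def divLoop {N : Type} (γ γ' : GenLoop N (SympCt n) 1) : GenLoop N (SympCt n) 1 :=
  ⟨⟨fun t => γ.1 t * (γ'.1 t)⁻¹, continuous_mul_family γ.1.continuous
    (continuous_inv_family γ'.1.continuous)⟩, fun t ht => by
    change γ.1 t * (γ'.1 t)⁻¹ = 1
    rw [γ.2 t ht, γ'.2 t ht, inv_one, mul_one]⟩

/-- Refined exactness at the group, also for `k = 0`: two classes have the same image in the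
space of pairs if and only if their quotient is a suspension. -/
theorem piPair_eq_iff (k n : ℕ) (γ γ' : GenLoop (Fin k) (SympCt (n + 1)) 1) :
    piPair k n (hmk γ) = piPair k n (hmk γ') ↔
      hmk (divLoop γ γ') ∈ range (sigmaMap k n) := by
  rw [range_sigma_eq]
  constructor
  · intro h
    have h1 : ContinuousMap.HomotopicRel
        ((⟨pairMap, continuous_pairMap⟩ : C(SympCt (n + 1), PairSp n)).comp γ.1)
        ((⟨pairMap, continuous_pairMap⟩ : C(SympCt (n + 1), PairSp n)).comp γ'.1)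
        (Cube.boundary (Fin k)) := Quotient.exact h
    obtain ⟨U⟩ := h1
    apply Quotient.sound
    refine ⟨{ toFun := fun q => (U q).act (γ'.1 q.2)⁻¹
              continuous_toFun := continuous_act_family U.continuous
                ((continuous_inv_family γ'.1.continuous).comp continuous_snd)
              map_zero_left := fun t => ?_
              map_one_left := fun t => ?_
              prop' := fun s t ht => ?_ }⟩
    · rw [U.apply_zero]
      rfl
    · rw [U.apply_one]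
      change (PairSp.std.act (γ'.1 t)).act (γ'.1 t)⁻¹ = PairSp.std
      rw [← PairSp.act_mul, mul_inv_cancel, PairSp.act_one]
    · change (U (s, t)).act (γ'.1 t)⁻¹ = PairSp.std.act (γ.1 t * (γ'.1 t)⁻¹)
      rw [U.eq_fst s ht]
      rfl
  · intro h
    have h1 : ContinuousMap.HomotopicRel
        ((⟨pairMap, continuous_pairMap⟩ : C(SympCt (n + 1), PairSp n)).comp (divLoop γ γ').1)
        (ContinuousMap.const _ PairSp.std) (Cube.boundary (Fin k)) := Quotient.exact h
    obtain ⟨U⟩ := h1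
    apply Quotient.sound
    refine ⟨{ toFun := fun q => (U q).act (γ'.1 q.2)
              continuous_toFun := continuous_act_family U.continuous
                (γ'.1.continuous.comp continuous_snd)
              map_zero_left := fun t => ?_
              map_one_left := fun t => ?_
              prop' := fun s t ht => ?_ }⟩
    · rw [U.apply_zero]
      change (PairSp.std.act (γ.1 t * (γ'.1 t)⁻¹)).act (γ'.1 t) = PairSp.std.act (γ.1 t)
      rw [← PairSp.act_mul, inv_mul_cancel_right]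
    · rw [U.apply_one]
      rfl
    · change (U (s, t)).act (γ'.1 t) = PairSp.std.act (γ.1 t)
      rw [U.eq_fst s ht]
      change (PairSp.std.act (γ.1 t * (γ'.1 t)⁻¹)).act (γ'.1 t) = PairSp.std.act (γ.1 t)
      rw [← PairSp.act_mul, inv_mul_cancel_right]

/-- All reductions of a suspension represent the suspended class. -/
lemma hmk_eq_of_isSusp {g : GenLoop (Fin (k + 2)) (SympCt n) 1}
    {γ : GenLoop (Fin k) (SympCt (n + 1)) 1} (hs : IsSusp g γ) {R : ℝ}
    {h : C((Fin k → unitInterval) × (unitInterval × unitInterval), SympCt n)}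
    (hh : ∀ q ∈ bd2 k, h q = 1) (hr : IsRed R γ.1 h) : hmk (loop2 h hh) = hmk g := by
  obtain ⟨hpos, R', h', hr', hh'⟩ := hs
  have h1 := isRed_unique (T₀ := Cube.boundary (Fin k)) γ.2 hpos hr hr'
  rw [← loop2_unloop2 g, hmk_loop2_eq_iff]
  exact h1.trans hh'

lemma hmk_surj {N X : Type} [TopologicalSpace X] {x : X} (a : HomotopyGroup N X x) :
    ∃ f, hmk f = a :=
  Quotient.inductionOn a fun f => ⟨f, rfl⟩

/-- The suspension is a homomorphism. -/
theorem sigmaMap_mul (k n : ℕ) (a b : HomotopyGroup (Fin (k + 1 + 2)) (SympCt n) 1) :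
    sigmaMap (k + 1) n (a * b) = sigmaMap (k + 1) n a * sigmaMap (k + 1) n b := by
  obtain ⟨g, rfl⟩ := hmk_surj a
  obtain ⟨g', rfl⟩ := hmk_surj b
  obtain ⟨γ, hγ⟩ := exists_isSusp g
  obtain ⟨γ', hγ'⟩ := exists_isSusp g'
  rw [sigmaMap_eq hγ, sigmaMap_eq hγ']
  set i : Fin (k + 1) := 0 with hi
  set Γ : GenLoop (Fin (k + 1)) (SympCt (n + 1)) 1 := GenLoop.transAt i γ' γ with hΓ
  have hmul : hmk γ * hmk γ' = hmk Γ := hmk_mul _ i γ γ'
  have hpos : ∀ t p, 0 < xL (fderiv ℝ (Γ.1 t : Equiv.Perm (Phase (n + 1))) p ex) := by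
    intro t p
    have h1 : Γ.1 t = if (t i : ℝ) ≤ 1 / 2
      then γ' (Function.update t i <| Set.projIcc 0 1 zero_le_one (2 * t i))
      else γ (Function.update t i <| Set.projIcc 0 1 zero_le_one (2 * t i - 1)) := rfl
    rw [h1]
    split_ifs
    · exact hγ'.1 _ p
    · exact hγ.1 _ p
  obtain ⟨R, h, hh, hr, hs⟩ := exists_isSusp_of_pos Γ hpos
  -- the two halves of the reduction
  set h₁ : C((Fin (k + 1) → unitInterval) × (unitInterval × unitInterval), SympCt n) :=
    ⟨fun q => h (hlf1 i q.1, q.2), h.continuous.comp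
      (((continuous_hlf1 i).comp continuous_fst).prodMk continuous_snd)⟩ with hh₁
  set h₂ : C((Fin (k + 1) → unitInterval) × (unitInterval × unitInterval), SympCt n) :=
    ⟨fun q => h (hlf2 i q.1, q.2), h.continuous.comp
      (((continuous_hlf2 i).comp continuous_fst).prodMk continuous_snd)⟩ with hh₂
  have r1 : IsRed R γ'.1 h₁ := by
    have h1 : ∀ t, Γ.1 (hlf1 i t) = γ'.1 t := fun t => transAt_hlf1 i γ' γ t
    refine ⟨hr.pos, fun t p hp => ?_, fun t z p hx hy => ?_⟩
    · have h2 := hr.supp (hlf1 i t) p hp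
      rwa [h1] at h2
    · have h2 := hr.red (hlf1 i t) z p
      rw [h1] at h2
      exact h2 hx hy
  have r2 : IsRed R γ.1 h₂ := by
    have h1 : ∀ t, Γ.1 (hlf2 i t) = γ.1 t := fun t => transAt_hlf2 i γ' γ t
    refine ⟨hr.pos, fun t p hp => ?_, fun t z p hx hy => ?_⟩
    · have h2 := hr.supp (hlf2 i t) p hp
      rwa [h1] at h2
    · have h2 := hr.red (hlf2 i t) z p
      rw [h1] at h2
      exact h2 hx hy
  have b1 : ∀ q ∈ bd2 (k + 1), h₁ q = 1 := by
    rintro ⟨t, z⟩ (ht | hz)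
    · exact r1.eq_one_of_eq_one (γ'.2 t ht) z
    · exact r1.eq_one_of_bd t hz
  have b2 : ∀ q ∈ bd2 (k + 1), h₂ q = 1 := by
    rintro ⟨t, z⟩ (ht | hz)
    · exact r2.eq_one_of_eq_one (γ.2 t ht) z
    · exact r2.eq_one_of_bd t hz
  have h3 : hmk (loop2 h hh) = hmk (loop2 h₂ b2) * hmk (loop2 h₁ b1) :=
    hmk_mul_hmk i.castSucc.castSucc _ _ _ (loop2_hlf1 i h h₁ hh b1 fun q => rfl)
      (loop2_hlf2 i h h₂ hh b2 fun q => rfl)
  rw [hmk_eq_of_isSusp hγ' b1 r1, hmk_eq_of_isSusp hγ b2 r2] at h3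
  rw [hmul, ← h3]
  exact sigmaMap_eq hs

/-- The map to pairs is a homomorphism. -/
theorem piPair_mul (k n : ℕ) (a b : HomotopyGroup (Fin (k + 1)) (SympCt (n + 1)) 1) :
    piPair (k + 1) n (a * b) = piPair (k + 1) n a * piPair (k + 1) n b := by
  obtain ⟨g, rfl⟩ := hmk_surj a
  obtain ⟨g', rfl⟩ := hmk_surj b
  set i : Fin (k + 1) := 0 with hi
  have hb : ∀ γ : GenLoop (Fin (k + 1)) (SympCt (n + 1)) 1, ∀ y ∈ Cube.boundary (Fin (k + 1)),
      (((⟨pairMap, continuous_pairMap⟩ : C(SympCt (n + 1), PairSp n)).comp γ.1) y) =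
        PairSp.std := by
    intro γ y hy
    change pairMap (γ.1 y) = PairSp.std
    rw [γ.2 y hy, pairMap_one]
  have e : ∀ γ : GenLoop (Fin (k + 1)) (SympCt (n + 1)) 1, piPair (k + 1) n (hmk γ) =
      hmk ⟨(⟨pairMap, continuous_pairMap⟩ : C(SympCt (n + 1), PairSp n)).comp γ.1, hb γ⟩ :=
    fun γ => rfl
  rw [hmk_mul _ i, e, e, e, hmk_mul _ i]
  congr 1
  apply Subtype.ext
  apply ContinuousMap.ext
  intro t
  change pairMap (GenLoop.transAt i g' g t) = _
  rw [transAt_apply]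
  change _ = GenLoop.transAt i _ _ t
  rw [transAt_apply]
  split_ifs
  · rfl
  · rfl

end Pool.Agent.Helper42
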