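import Mathlib
import Pool.Agent.Helper42.Susp.Sigma
import Pool.Agent.H50.Susp.Joint

set_option maxSynthPendingDepth 3

open scoped ContDiff Topology unitInterval
open Set Function TopologicalSpace Filter

namespace Pool.Agent.Helper42

open Pool.Agent.Helper17 Pool.Agent.H50.Susp

/-- **Exactness at the homotopy groups of the smaller group.** -/
theorem range_delta_eq (k n : ℕ) (c : HomotopyGroup (Fin (k + 2)) (SympCt n) 1) :
    (∃ b, deltaMap (k + 1) n b = c) ↔ sigmaMap k n c = hmk GenLoop.const := by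
  obtain ⟨g, rfl⟩ := hmk_surj c
  obtain ⟨γ, hpos, R, h, hr, hh⟩ := exists_isSusp g
  rw [sigmaMap_eq (γ := γ) ⟨hpos, R, h, hr, hh⟩, hmk_eq_iff]
  exact range_delta_iff g γ.1 γ.2 (fun t p => pos_conv _ _ (hpos t p)) hr hh.symm

end Pool.Agent.Helper42
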